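import Pool.Agent.Lib_MP_a1eae6_lc.Gen

/-!
# Hardness of ISO-IMP for `Σ₂ᵖ`
-/

set_option linter.unusedSectionVars false
set_option linter.unusedVariables false

namespace Pool.Agent.IsoImp

open Pool.Agent.PT81 Turing Polynomial

noncomputable section

section

variable {Γ : Type} {R : List Γ × List Bool × List Bool → Bool}

/-- The string of a triple. -/
abbrev enc3 {Γ : Type} (t : List Γ × List Bool × List Bool) : List (Γ ⊕ (Bool ⊕ Bool)) :=
  t.1.map Sum.inl ++ (t.2.1.map (fun b => Sum.inr (Sum.inl b)) ++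
    t.2.2.map (fun b => Sum.inr (Sum.inr b)))

variable (Mc : TM2ComputableInPolyTime (enc3 (Γ := Γ)) (fun b : Bool => [b]) R)

/-- The accepting symbol. -/
def gT : Σ k, Mc.tm.Γ k := ⟨Mc.tm.k₁, Mc.outputAlphabet.symm true⟩

def aT : SS Mc.tm (gT Mc) := ⟨gT Mc, mem_syms_self⟩

def jX (g : Γ) : SS Mc.tm (gT Mc) :=
  ⟨⟨Mc.tm.k₀, Mc.inputAlphabet.symm (Sum.inl g)⟩, mem_syms_in _⟩
def jU (b : Bool) : SS Mc.tm (gT Mc) :=
  ⟨⟨Mc.tm.k₀, Mc.inputAlphabet.symm (Sum.inr (Sum.inl b))⟩, mem_syms_in _⟩
def jV (b : Bool) : SS Mc.tm (gT Mc) :=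
  ⟨⟨Mc.tm.k₀, Mc.inputAlphabet.symm (Sum.inr (Sum.inr b))⟩, mem_syms_in _⟩

def cStart : CC Mc.tm := (some ⟨Mc.tm.m Mc.tm.main, main_mem _ _⟩, Mc.tm.initialState)

/-- The time bound of the simulation. -/
def TT (n m : ℕ) : ℕ := depMax Mc.tm * Mc.time.eval (n + m + m)

theorem init_stk (tm : FinTM2) (s : List (tm.Γ tm.k₀)) (k : tm.K) :
    ((initList tm s).stk k).map (Sigma.mk k) =
      if k = tm.k₀ then s.map (Sigma.mk tm.k₀) else [] := by
  by_cases h : k = tm.k₀
  · subst h
    simp [initList]
  · simp [initList, h]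

theorem halt_stk (tm : FinTM2) (s : List (tm.Γ tm.k₁)) :
    ((haltList tm s).stk tm.k₁).map (Sigma.mk tm.k₁) = s.map (Sigma.mk tm.k₁) := by
  simp [haltList]

theorem run_accept (x : List Γ) (u v : List Bool) (T : ℕ)
    (hT : depMax Mc.tm * Mc.time.eval (enc3 (x, u, v)).length ≤ T) :
    ((((sim Mc.tm (gT Mc)).step^[T] (cStart Mc, stk0 Mc.tm.k₀ (jX Mc) (jU Mc) (jV Mc) x u v)).2
      Mc.tm.k₁)[0]? = some (aT Mc)) ↔ R (x, u, v) = true := by
  obtain ⟨⟨n, hn⟩, hle⟩ := Mc.outputsFun (x, u, v)
  have hrel : RelC Mc.tm (gT Mc) (initList Mc.tm (List.map Mc.inputAlphabet.invFun (enc3 (x, u, v))))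
      (cStart Mc, stk0 Mc.tm.k₀ (jX Mc) (jU Mc) (jV Mc) x u v) := by
    refine ⟨rfl, rfl, fun k => ?_⟩
    rw [init_stk]
    by_cases h : k = Mc.tm.k₀
    · simp only [stk0, if_pos h, List.map_append, List.map_map]
      rfl
    · simp only [stk0, if_neg h, List.map_nil]
  have hn' : (flip bind (TM2.step Mc.tm.m))^[n]
      (some (initList Mc.tm (List.map Mc.inputAlphabet.invFun (enc3 (x, u, v))))) =
      some (haltList Mc.tm (List.map Mc.outputAlphabet.invFun [R (x, u, v)])) := hn
  obtain ⟨k, hk, hr⟩ := sim_steps n hrel hn'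
  have hkT : k ≤ T := by
    refine hk.trans ((Nat.mul_le_mul_left _ hle).trans ?_)
    exact hT
  obtain ⟨d, rfl⟩ := Nat.exists_eq_add_of_le hkT
  rw [Nat.add_comm k d, Function.iterate_add_apply, sim_halt hr rfl]
  obtain ⟨_, _, h3⟩ := hr
  have h4 := h3 Mc.tm.k₁
  rw [halt_stk] at h4
  set S := ((sim Mc.tm (gT Mc)).step^[k]
    (cStart Mc, stk0 Mc.tm.k₀ (jX Mc) (jU Mc) (jV Mc) x u v)).2 Mc.tm.k₁ with hS
  cases hSc : S with
  | nil => rw [hSc] at h4; simp at h4
  | cons a l =>
    rw [hSc] at h4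
    simp only [List.map_cons, List.cons.injEq, List.map_nil] at h4
    obtain ⟨h5, _⟩ := h4
    simp only [List.getElem?_cons_zero, Option.some.injEq]
    rw [Subtype.ext_iff, h5]
    simp only [aT, gT]
    constructor
    · intro h
      have h6 := eq_of_heq (Sigma.mk.inj h).2
      exact Mc.outputAlphabet.symm.injective h6
    · intro h
      rw [h]
      rfl

variable (q : ℕ[X])

instance instFinCC (tm : FinTM2) : Fintype (CC tm) := by
  letI := tm.σFin
  infer_instance

instance instFinK (tm : FinTM2) : Fintype tm.K := tm.kFin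

open Classical in
/-- The matrix of the reduction. -/
def theta (x : List Γ) : Fml Name :=
  .or (.neg (validF (sim Mc.tm (gT Mc)) NN Mc.tm.k₀ (jX Mc) (jU Mc) (jV Mc) (cStart Mc) x
    (q.eval x.length) (TT Mc x.length (q.eval x.length))))
    (vs (C := CC Mc.tm) NN Mc.tm.k₁ (some (aT Mc)) (TT Mc x.length (q.eval x.length)) 0)

open Classical in
/-- The names of the existential variables. -/
def uu (i : ℕ) : Name := nU (NN (C := CC Mc.tm) (K := Mc.tm.K) (Sg := SS Mc.tm (gT Mc))) i
open Classical in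
def uu' (i : ℕ) : Name := nU' (NN (C := CC Mc.tm) (K := Mc.tm.K) (Sg := SS Mc.tm (gT Mc))) i
open Classical in
def zz : Name := nz (NN (C := CC Mc.tm) (K := Mc.tm.K) (Sg := SS Mc.tm (gT Mc)))

open Classical in
theorem theta_spec (x : List Γ) :
    (∃ b : ℕ → Bool, ∀ a : Name → Bool, (∀ i < q.eval x.length, a (uu Mc i) = b i ∧
        a (uu' Mc i) = !(b i)) → (theta Mc q x).eval a = true) ↔
      ∃ u : List Bool, u.length = q.eval x.length ∧
        ∀ v : List Bool, v.length = q.eval x.length → R (x, u, v) = true := by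
  set m := q.eval x.length with hm
  set T := TT Mc x.length m with hT
  have hT' : ∀ u v : List Bool, u.length = m → v.length = m →
      depMax Mc.tm * Mc.time.eval (enc3 (x, u, v)).length ≤ T := by
    intro u v hu hv
    rw [hT, TT]
    apply Nat.mul_le_mul_left
    apply pmono
    simp only [enc3, List.length_append, List.length_map]
    omega
  constructor
  · rintro ⟨b, hb⟩
    refine ⟨(List.range m).map b, by simp, fun v hv => ?_⟩
    set u := (List.range m).map b with hu
    -- the assignment describing the run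
    let val : Kd (CC Mc.tm) Mc.tm.K (SS Mc.tm (gT Mc)) → ℕ → ℕ → Bool := fun κ t i =>
      match κ with
      | .inl c => decide (c = ((sim Mc.tm (gT Mc)).step^[t]
          (cStart Mc, stk0 Mc.tm.k₀ (jX Mc) (jU Mc) (jV Mc) x u v)).1)
      | .inr (.inl p) => decide ((((sim Mc.tm (gT Mc)).step^[t]
          (cStart Mc, stk0 Mc.tm.k₀ (jX Mc) (jU Mc) (jV Mc) x u v)).2 p.1)[i]? = p.2)
      | .inr (.inr 0) => b i
      | .inr (.inr 1) => !(b i)
      | .inr (.inr 2) => v.getD i false
      | .inr (.inr 3) => false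
    obtain ⟨A, hA⟩ := exists_assignment val
    have h1 := hb A (fun i hi => ⟨hA _ _ _, hA _ _ _⟩)
    have hu' : u = (List.range m).map fun j =>
        A (nU (NN (C := CC Mc.tm) (K := Mc.tm.K) (Sg := SS Mc.tm (gT Mc))) j) := by
      rw [hu]
      apply List.map_congr_left
      intro i hi
      exact (hA (.inr (.inr 0)) 0 i).symm
    have hv' : v = (List.range m).map fun j =>
        A (nV (NN (C := CC Mc.tm) (K := Mc.tm.K) (Sg := SS Mc.tm (gT Mc))) j) := by
      apply List.ext_getElem
      · simp [hv]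
      · intro i h1 h2
        rw [List.getElem_map, List.getElem_range]
        have := hA (.inr (.inr 2)) 0 i
        simp only [nV]
        rw [this]
        simp [val, h1]
    have h2 := run_valid (M := sim Mc.tm (gT Mc)) (N := NN) (k₀ := Mc.tm.k₀) (inX := jX Mc)
      (inU := jU Mc) (inV := jV Mc) (c0 := cStart Mc) A x m T u v hu' hv'
      (fun t => ⟨fun c => hA (.inl c) t 0, fun k a i => hA (.inr (.inl (k, a))) t i⟩)
    simp only [theta, Fml.eval, Bool.or_eq_true, Bool.not_eq_true'] at h1
    rcases h1 with h1 | h1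
    · rw [h2] at h1
      exact absurd h1 (by simp)
    · simp only [vs, Fml.eval] at h1
      have h3 := hA (.inr (.inl (Mc.tm.k₁, some (aT Mc)))) T 0
      rw [h3] at h1
      simp only [val, decide_eq_true_eq] at h1
      exact (run_accept Mc x u v T (hT' u v (by simp [hu]) hv)).1 h1
  · rintro ⟨u, hu, huv⟩
    refine ⟨fun i => u.getD i false, fun a ha => ?_⟩
    have hu' : u = (List.range m).map fun j =>
        a (nU (NN (C := CC Mc.tm) (K := Mc.tm.K) (Sg := SS Mc.tm (gT Mc))) j) := by
      apply List.ext_getElem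
      · simp [hu]
      · intro i h1 h2
        rw [List.getElem_map, List.getElem_range]
        have := (ha i (by omega)).1
        simp only [uu] at this
        rw [this]
        simp [h1]
    set v := (List.range m).map fun j =>
        a (nV (NN (C := CC Mc.tm) (K := Mc.tm.K) (Sg := SS Mc.tm (gT Mc))) j) with hv
    simp only [theta, Fml.eval, Bool.or_eq_true, Bool.not_eq_true']
    by_cases hval : (validF (sim Mc.tm (gT Mc)) NN Mc.tm.k₀ (jX Mc) (jU Mc) (jV Mc) (cStart Mc) x
        m T).eval a = true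
    · right
      have h1 := (valid_run a x m T u v hu' hv hval T le_rfl).2 Mc.tm.k₁ (some (aT Mc)) 0 (by omega)
      simp only [vs, Fml.eval]
      rw [h1, decide_eq_true_eq]
      exact (run_accept Mc x u v T (hT' u v hu (by simp [hv]))).2 (huv v (by simp [hv]))
    · left
      simpa using hval

theorem uu_inj (i j : ℕ) (h : uu Mc i = uu Mc j) : i = j := by
  classical
  exact (NN_inj h).2.2
theorem uu'_inj (i j : ℕ) (h : uu' Mc i = uu' Mc j) : i = j := by
  classical
  exact (NN_inj h).2.2
theorem uu_ne (i j : ℕ) : uu Mc i ≠ uu' Mc j := by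
  classical
  intro h
  have := (NN_inj h).1
  simp at this

/-- The two formulas. -/
def phiX (x : List Γ) : Fml Name := redPhi (q.eval x.length) (zz Mc) (uu Mc) (uu' Mc)
def psiX (x : List Γ) : Fml Name :=
  redPsi (q.eval x.length) (zz Mc) (uu Mc) (uu' Mc) (theta Mc q x)

/-- The reduction. -/
def redF (x : List Γ) : List (Sym ⊕ Sym) :=
  (phiX Mc q x).code.map Sum.inl ++ (psiX Mc q x).code.map Sum.inr

end

section poly

variable {E : Env} {γ : Type} [Enc E γ]

open Classical in
theorem pf_theta {Γ : Type} [Fintype Γ] [Enc E Γ] {R : List Γ × List Bool × List Bool → Bool}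
    (Mc : TM2ComputableInPolyTime (enc3 (Γ := Γ)) (fun b : Bool => [b]) R) (q : ℕ[X]) :
    PF E (fun x : List Γ => theta Mc q x) := by
  have hl : Poly E (fun x : List Γ => x.length) := Poly.length Poly.id
  have hm : Poly E (fun x : List Γ => q.eval x.length) := Poly.polyEval q hl
  have hT : Poly E (fun x : List Γ => TT Mc x.length (q.eval x.length)) :=
    Poly.mul (Poly.const _) (Poly.polyEval _ (Poly.add (Poly.add hl hm) hm))
  exact PF.or (PF.neg (pf_validF _ _ _ _ _ _ Poly.id hm hT)) (pf_vs _ _ hT (Poly.const 0))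

open Classical in
theorem poly_redF {Γ : Type} [Fintype Γ] [Enc E Γ] [Enc E (Sym ⊕ Sym)]
    {R : List Γ × List Bool × List Bool → Bool}
    (Mc : TM2ComputableInPolyTime (enc3 (Γ := Γ)) (fun b : Bool => [b]) R) (q : ℕ[X]) :
    Poly E (fun x : List Γ => redF Mc q x) := by
  have hl : Poly E (fun x : List Γ => x.length) := Poly.length Poly.id
  have hm : Poly E (fun x : List Γ => q.eval x.length) := Poly.polyEval q hl
  have h1 : PF E (fun x : List Γ => phiX Mc q x) :=
    PF.bigAndOver (G := fun p : List Γ × ℕ => Fml.and (.var (uu Mc p.2)) (.neg (.var (uu' Mc p.2))))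
      _ hm.range (PF.and (PF.var (poly_nm _ (Poly.const 0) Poly.snd))
        (PF.neg (PF.var (poly_nm _ (Poly.const 0) Poly.snd))))
  have h2 : PF E (fun x : List Γ => psiX Mc q x) :=
    PF.and (PF.bigAndOver (G := fun p : List Γ × ℕ => fxor (.var (uu Mc p.2)) (.var (uu' Mc p.2)))
      _ hm.range (PF.fxor (PF.var (poly_nm _ (Poly.const 0) Poly.snd))
        (PF.var (poly_nm _ (Poly.const 0) Poly.snd)))) (pf_theta Mc q)
  exact Poly.append
    (Poly.map (g := fun p : List Γ × Sym => (Sum.inl p.2 : Sym ⊕ Sym)) h1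
      (Poly.comp₁ (fun s : Sym => (Sum.inl s : Sym ⊕ Sym)) Poly.snd))
    (Poly.map (g := fun p : List Γ × Sym => (Sum.inr p.2 : Sym ⊕ Sym)) h2
      (Poly.comp₁ (fun s : Sym => (Sum.inr s : Sym ⊕ Sym)) Poly.snd))

end poly

theorem bits_inj : ∀ (x y : List Bool) (s t : List Sym),
    (∀ b l, s ≠ Sym.bit b :: l) → (∀ b l, t ≠ Sym.bit b :: l) →
    x.map Sym.bit ++ s = y.map Sym.bit ++ t → x = y ∧ s = t := by
  intro x
  induction x with
  | nil =>
    intro y s t hs ht h
    cases y with
    | nil => exact ⟨rfl, by simpa using h⟩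
    | cons b y => exact absurd (by simpa using h) (hs b (y.map Sym.bit ++ t))
  | cons a x ih =>
    intro y s t hs ht h
    cases y with
    | nil => exact absurd (by simpa using h.symm) (ht a (x.map Sym.bit ++ s))
    | cons b y =>
      simp only [List.map_cons, List.cons_append, List.cons.injEq, Sym.bit.injEq] at h
      obtain ⟨h1, h2⟩ := ih y s t hs ht h.2
      exact ⟨by rw [h.1, h1], h2⟩

theorem code_ne_bit (f : Fml Name) (s : List Sym) (b : Bool) (l : List Sym) :
    f.code ++ s ≠ Sym.bit b :: l := by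
  cases f <;> simp [Fml.code]

theorem code_append_inj : ∀ (f g : Fml Name) (s t : List Sym),
    (∀ b l, s ≠ Sym.bit b :: l) → (∀ b l, t ≠ Sym.bit b :: l) →
    f.code ++ s = g.code ++ t → f = g ∧ s = t := by
  intro f
  induction f with
  | var x =>
    intro g s t hs ht h
    cases g with
    | var y =>
      simp only [Fml.code, List.cons_append, List.cons.injEq, true_and] at h
      obtain ⟨h1, h2⟩ := bits_inj x y s t hs ht h
      exact ⟨by rw [h1], h2⟩
    | neg g => simp [Fml.code] at h
    | and g g' => simp [Fml.code] at h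
    | or g g' => simp [Fml.code] at h
  | neg f ih =>
    intro g s t hs ht h
    cases g with
    | var y => simp [Fml.code] at h
    | neg g =>
      simp only [Fml.code, List.cons_append, List.cons.injEq, true_and] at h
      obtain ⟨h1, h2⟩ := ih g s t hs ht h
      exact ⟨by rw [h1], h2⟩
    | and g g' => simp [Fml.code] at h
    | or g g' => simp [Fml.code] at h
  | and f f' ih ih' =>
    intro g s t hs ht h
    cases g with
    | var y => simp [Fml.code] at h
    | neg g => simp [Fml.code] at h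
    | and g g' =>
      simp only [Fml.code, List.cons_append, List.append_assoc, List.cons.injEq, true_and] at h
      obtain ⟨h1, h2⟩ := ih g _ _ (code_ne_bit _ _) (code_ne_bit _ _) h
      obtain ⟨h3, h4⟩ := ih' g' s t hs ht h2
      exact ⟨by rw [h1, h3], h4⟩
    | or g g' => simp [Fml.code] at h
  | or f f' ih ih' =>
    intro g s t hs ht h
    cases g with
    | var y => simp [Fml.code] at h
    | neg g => simp [Fml.code] at h
    | and g g' => simp [Fml.code] at h
    | or g g' =>
      simp only [Fml.code, List.cons_append, List.append_assoc, List.cons.injEq, true_and] at h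
      obtain ⟨h1, h2⟩ := ih g _ _ (code_ne_bit _ _) (code_ne_bit _ _) h
      obtain ⟨h3, h4⟩ := ih' g' s t hs ht h2
      exact ⟨by rw [h1, h3], h4⟩

theorem code_inj {f g : Fml Name} (h : f.code = g.code) : f = g :=
  (code_append_inj f g [] [] (by simp) (by simp) (by simpa using h)).1

theorem pair_inj {α : Type} {a b c d : List α}
    (h : (a.map Sum.inl ++ b.map Sum.inr : List (α ⊕ α)) = c.map Sum.inl ++ d.map Sum.inr) :
    a = c ∧ b = d := by
  induction a generalizing c with
  | nil =>
    cases c with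
    | nil =>
      refine ⟨rfl, ?_⟩
      have := List.map_injective_iff.2 (Sum.inr_injective (α := α) (β := α)) (by simpa using h)
      exact this
    | cons x c =>
      cases b with
      | nil => simp at h
      | cons y b => simp at h
  | cons x a ih =>
    cases c with
    | nil =>
      cases d with
      | nil => simp at h
      | cons y d => simp at h
    | cons y c =>
      simp only [List.map_cons, List.cons_append, List.cons.injEq, Sum.inl.injEq] at h
      obtain ⟨h1, h2⟩ := ih h.2
      exact ⟨by rw [h.1, h1], h2⟩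

theorem mem_ISO_IMP (φ ψ : Fml Name) :
    (φ.code.map Sum.inl ++ ψ.code.map Sum.inr : List (Sym ⊕ Sym)) ∈ ISO_IMP ↔
      IsoImplies φ ψ := by
  constructor
  · rintro ⟨φ', ψ', h, h'⟩
    obtain ⟨h1, h2⟩ := pair_inj h
    rw [code_inj h1, code_inj h2]
    exact h'
  · intro h
    exact ⟨φ, ψ, rfl, h⟩

instance : Inhabited (Sym ⊕ Sym) := ⟨Sum.inl Sym.var⟩

theorem hard {Γ : Type} [Fintype Γ] (L : Set (List Γ)) (hL : InSigmaTwo L) :
    PolyReduces L ISO_IMP := by
  classical
  obtain ⟨R, q, ⟨Mc⟩, hR⟩ := hL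
  refine ⟨redF Mc q, ?_, fun x => ?_⟩
  · let _ : Enc (io Γ (Sym ⊕ Sym)) Γ := finEnc _ _
    let _ : Enc (io Γ (Sym ⊕ Sym)) (Sym ⊕ Sym) := finEnc _ _
    exact poly_toTM2 (poly_redF Mc q) _ _ _ (fun _ => rfl)
  · rw [hR x, redF, mem_ISO_IMP, phiX, psiX, core (uu_inj Mc) (uu'_inj Mc) (uu_ne Mc),
      theta_spec]

end

end Pool.Agent.IsoImp
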