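import Pool.Agent.Lib_MP_a1eae6_lc.Fold

/-!
# From the library to Mathlib's `TM2ComputableInPolyTime`
-/

set_option linter.unusedSectionVars false

namespace Pool.Agent.PT81

open Polynomial Turing
open Function (update)

section

variable {G₀ G₁ A : Type} [DecidableEq A] {I : List G₀} {O : List G₁}

section input

variable (j : G₀ → Sy A)

def popI : Cm G₀ G₁ A := .pop .inp (fun v t => (t.map j, v.2))
def peekI : Cm G₀ G₁ A := .peek .inp (fun v t => (t.map j, v.2))

theorem ex_popI (v : Va A) (R : Fin 4 → List (Sy A)) :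
    Ex (popI j) v I O R (I.head?.map j, v.2) I.tail O R 1 := by
  have := Exec.pop (Γ := Gam G₀ G₁ A) .inp (fun v t => (t.map j, v.2)) v (st I O R)
  rw [update_st_inp] at this
  exact this

theorem ex_peekI (v : Va A) (R : Fin 4 → List (Sy A)) :
    Ex (peekI j) v I O R (I.head?.map j, v.2) I O R 1 :=
  Exec.peek (Γ := Gam G₀ G₁ A) .inp (fun v t => (t.map j, v.2)) v (st I O R)

def inLoop : Cm G₀ G₁ A :=
  .loop (fun v => v.1.isSome) (.seq (popI j) (.seq (cput 2) (peekI j)))

theorem ex_inLoop (I : List G₀) (f : Bool) (m s x y : List (Sy A)) :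
    Ex (inLoop j) (I.head?.map j, f) I O (vec m s x y) (none, f) [] O
      (vec m s ((I.map j).reverse ++ x) y) (4 * I.length + 1) := by
  induction I generalizing x with
  | nil => exact Exec.loopDone rfl
  | cons a I ih =>
    have hb : Ex (.seq (popI j) (.seq (cput 2) (peekI j))) ((a :: I).head?.map j, f) (a :: I) O
        (vec m s x y) (I.head?.map j, f) I O (vec m s (j a :: x) y) (1 + (1 + 1)) := by
      refine Ex.seq (ex_popI j _ _) (Ex.seq (ex_put 2) ?_)
      rw [upd2]
      exact ex_peekI j _ _
    have h := Exec.loopStep (p := fun v : Va A => v.1.isSome) rfl hb (ih (j a :: x))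
    have e1 : 1 + (1 + (1 + 1)) + (4 * I.length + 1) = 4 * (a :: I).length + 1 := by
      simp; ring
    rw [e1] at h
    have e2 : (I.map j).reverse ++ (j a :: x) = ((a :: I).map j).reverse ++ x := by simp
    rw [e2] at h
    exact h

/-- Interleave with node markers. -/
def inter (l : List (Sy A)) : List (Sy A) := l.flatMap fun z => [some none, z]

def buildLoop : Cm G₀ G₁ A :=
  .seq (cpeek 2) (.loop (fun v => v.1.isSome)
    (.seq (cpop 2) (.seq (cput 0) (.seq (cpush 0 (some none)) (cpeek 2)))))

theorem rn_buildLoop' (l : List (Sy A)) (f : Bool) (m s y : List (Sy A)) :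
    Rn (.loop (fun v => v.1.isSome)
    (.seq (cpop 2) (.seq (cput 0) (.seq (cpush 0 (some none)) (cpeek 2))))) I O (l.head?, f)
      (vec m s l y) (none, f) (vec (inter l.reverse ++ m) s [] y) (5 * l.length + 1) := by
  induction l generalizing m with
  | nil => exact Rn.loopDone rfl
  | cons a l ih =>
    have hb : Rn (.seq (cpop 2) (.seq (cput 0) (.seq (cpush 0 (some none)) (cpeek 2)))) I O
        ((a :: l).head?, f) (vec m s (a :: l) y) (l.head?, f) (vec (some none :: a :: m) s l y)
        (1 + (1 + (1 + 1))) :=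
      Rn.seq (rn_pop2 _ _ _ _ _) (Rn.seq (rn_put0 _ _ _ _ _) (Rn.seq (rn_push0 _ _ _ _ _ _)
        (rn_peek2 _ _ _ _ _)))
    have h := Rn.loopStep (p := fun v : Va A => v.1.isSome) rfl hb (ih (some none :: a :: m))
    have e1 : inter l.reverse ++ (some none :: a :: m) = inter (a :: l).reverse ++ m := by
      simp [inter]
    rw [e1] at h
    refine h.mono ?_
    simp only [List.length_cons]
    omega

theorem rn_buildLoop (l : List (Sy A)) (v : Va A) (m s y : List (Sy A)) :
    Rn buildLoop I O v
      (vec m s l y) (none, v.2) (vec (inter l.reverse ++ m) s [] y) (5 * l.length + 2) := by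
  refine (Rn.seq (rn_peek2 _ _ _ _ _) (rn_buildLoop' l _ _ _ _)).mono ?_
  omega

end input

section output

def outLoop1 : Cm G₀ G₁ A :=
  .seq (cpop 0) (.loop (fun v => decide (v.1 = some (some none)))
    (.seq (cpop 0) (.seq (cput 2) (cpop 0))))

theorem rn_outLoop1 (nil : A) (l : List A) (v : Va A) (s x y : List (Sy A)) :
    Rn outLoop1 I O v (vec (le (E := ⟨G₀, G₁, A, nil⟩) Tr.leaf l).str s x y)
      (some (some (some nil)), v.2)
      (vec [] s ((l.map fun a => some (some a)).reverse ++ x) y) (4 * l.length + 2) := by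
  have key : ∀ (l : List A) (x : List (Sy A)), Rn (.loop (fun v => decide (v.1 = some (some none)))
      (.seq (cpop 0) (.seq (cput 2) (cpop 0)))) I O
      ((le (E := ⟨G₀, G₁, A, nil⟩) Tr.leaf l).str.head?, v.2)
      (vec (le (E := ⟨G₀, G₁, A, nil⟩) Tr.leaf l).str.tail s x y)
      (some (some (some nil)), v.2)
      (vec [] s ((l.map fun a => some (some a)).reverse ++ x) y) (4 * l.length + 1) := by
    intro l
    induction l with
    | nil => intro x; exact Rn.loopDone (by simp [le])
    | cons a l ih =>
      intro x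
      have hb : Rn (.seq (cpop 0) (.seq (cput 2) (cpop 0))) I O
          ((le (E := ⟨G₀, G₁, A, nil⟩) Tr.leaf (a :: l)).str.head?, v.2)
          (vec (le (E := ⟨G₀, G₁, A, nil⟩) Tr.leaf (a :: l)).str.tail s x y)
          ((le (E := ⟨G₀, G₁, A, nil⟩) Tr.leaf l).str.head?, v.2)
          (vec (le (E := ⟨G₀, G₁, A, nil⟩) Tr.leaf l).str.tail s (some (some a) :: x) y)
          (1 + (1 + 1)) :=
        Rn.seq (rn_pop0 _ _ _ _ _) (Rn.seq (rn_put2 _ _ _ _ _) (rn_pop0 _ _ _ _ _))
      have h := Rn.loopStep (p := fun v : Va A => decide (v.1 = some (some none)))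
        (by simp [le]) hb (ih _)
      have e1 : (l.map fun a => some (some a)).reverse ++ (some (some a) :: x) =
          (((a :: l).map fun a => some (some a)).reverse ++ x) := by simp
      rw [e1] at h
      refine h.mono ?_
      simp only [List.length_cons]
      omega
  refine (Rn.seq (rn_pop0 _ _ _ _ _) (key l x)).mono ?_
  omega

variable (d : Option (Sy A) → G₁)

def pushO : Cm G₀ G₁ A := .push .out (fun v => d v.1)

theorem ex_pushO (v : Va A) (R : Fin 4 → List (Sy A)) :
    Ex (pushO d) v I O R v I (d v.1 :: O) R 1 := by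
  have := Exec.push (Γ := Gam G₀ G₁ A) .out (fun v : Va A => d v.1) v (st I O R)
  rw [update_st_out] at this
  exact this

def outLoop2 : Cm G₀ G₁ A :=
  .loop (fun v => v.1.isSome) (.seq (cpop 2) (.seq (pushO d) (cpeek 2)))

theorem ex_outLoop2 (l : List (Sy A)) (f : Bool) (m s y : List (Sy A)) (O : List G₁) :
    Ex (outLoop2 d) (l.head?, f) I O (vec m s l y) (none, f) I
      ((l.map fun z => d (some z)).reverse ++ O) (vec m s [] y) (4 * l.length + 1) := by
  induction l generalizing O with
  | nil => exact Exec.loopDone rfl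
  | cons a l ih =>
    have hb : Ex (.seq (cpop 2) (.seq (pushO d) (cpeek 2))) ((a :: l).head?, f) I O
        (vec m s (a :: l) y) (l.head?, f) I (d (some a) :: O) (vec m s l y) (1 + (1 + 1)) := by
      have h1 := ex_pop (I := I) (O := O) (R := vec m s (a :: l) y) (v := ((a :: l).head?, f)) 2
      rw [upd2] at h1
      exact Ex.seq h1 (Ex.seq (ex_pushO d _ _) (ex_peek 2))
    have h := Exec.loopStep (p := fun v : Va A => v.1.isSome) rfl hb (ih (d (some a) :: O))
    have e1 : 1 + (1 + (1 + 1)) + (4 * l.length + 1) = 4 * (a :: l).length + 1 := by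
      simp; ring
    rw [e1] at h
    have e2 : (l.map fun z => d (some z)).reverse ++ (d (some a) :: O) =
        ((a :: l).map fun z => d (some z)).reverse ++ O := by simp
    rw [e2] at h
    exact h

end output

end

/-- The environment for functions from strings over `G₀` to strings over `G₁`. -/
abbrev io (G₀ G₁ : Type) [DecidableEq G₀] [DecidableEq G₁] : Env where
  G₀ := G₀
  G₁ := G₁
  A := Option (G₀ ⊕ G₁)
  nil := none

/-- Encodings of the input and output strings. -/
def inE (G₀ G₁ : Type) [DecidableEq G₀] [DecidableEq G₁] (g : G₀) : Tr (io G₀ G₁).A :=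
  .leaf (some (Sum.inl g))
def outE (G₀ G₁ : Type) [DecidableEq G₀] [DecidableEq G₁] (g : G₁) : Tr (io G₀ G₁).A :=
  .leaf (some (Sum.inr g))

theorem le_str (E : Env) {F : Type} (j : F → E.A) (l : List F) :
    (le (E := E) (fun g => Tr.leaf (j g)) l).str =
      inter (l.map fun g => some (some (j g))) ++ [some (some E.nil)] := by
  induction l with
  | nil => rfl
  | cons a l ih => simp [le, ih, inter]

theorem le_map (E : Env) {F : Type} (j : F → E.A) (l : List F) :
    le (E := E) (fun g => Tr.leaf (j g)) l = le (E := E) Tr.leaf (l.map j) := by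
  induction l with
  | nil => rfl
  | cons a l ih => simp [le, ih]

theorem le_sz (E : Env) {F : Type} (j : F → E.A) (l : List F) :
    (le (E := E) (fun g => Tr.leaf (j g)) l).sz = 2 * l.length + 1 := by
  induction l with
  | nil => rfl
  | cons a l ih => simp [le, ih]; ring

/-- The complete program. -/
def fullProg {G₀ G₁ : Type} [DecidableEq G₀] [DecidableEq G₁] [Inhabited G₁]
    (c : Cm G₀ G₁ (Option (G₀ ⊕ G₁))) : Cm G₀ G₁ (Option (G₀ ⊕ G₁)) :=
  .seq (cpush 0 (some (some none)))
  (.seq (peekI fun g => some (some (some (Sum.inl g))))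
  (.seq (inLoop fun g => some (some (some (Sum.inl g))))
  (.seq buildLoop
  (.seq c
  (.seq outLoop1
  (.seq (cpeek 2)
  (.seq (outLoop2 fun z => match z with
    | some (some (some (some (Sum.inr g)))) => g
    | _ => default)
  (.load fun _ => (none, false)))))))))

theorem toTM2 {G₀ G₁ : Type} [Fintype G₀] [Fintype G₁] [DecidableEq G₀] [DecidableEq G₁]
    [Inhabited G₁] {F : List G₀ → List G₁}
    (hF : PT (io G₀ G₁) (le (inE G₀ G₁)) (le (outE G₀ G₁)) F)
    {α β : Type} (ea : α → List G₀) (eb : β → List G₁) (f : α → β)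
    (h : ∀ a, F (ea a) = eb (f a)) : Nonempty (TM2ComputableInPolyTime ea eb f) := by
  obtain ⟨c, p, hc⟩ := hF
  let C := fullProg c
  letI : Fintype (Option (Lab C)) := by
    letI := labFintype C
    infer_instance
  let tm : FinTM2 :=
    { K := RK
      k₀ := .inp
      k₁ := .out
      Γ := Gam G₀ G₁ (Option (G₀ ⊕ G₁))
      Λ := Option (Lab C)
      main := some (entry C)
      σ := Va (Option (G₀ ⊕ G₁))
      initialState := (none, false)
      Γk₀Fin := inferInstanceAs (Fintype G₀)
      m := prog C }
  -- the run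
  have hrun : ∀ x : List G₀, ∃ n ≤ 9 * x.length + 8 * p.eval (2 * x.length + 1) +
      p.eval (2 * x.length + 1) + 30,
      Ex C (none, false) x [] (vec [] [] [] []) (none, false) [] (F x) (vec [] [] [] []) n := by
    intro x
    set j₀ : G₀ → Sy (Option (G₀ ⊕ G₁)) := fun g => some (some (some (Sum.inl g))) with hj₀
    have h1 : Ex (A := Option (G₀ ⊕ G₁)) (cpush 0 (some (some none))) (none, false) x
        ([] : List G₁) (vec [] [] [] [])
        (none, false) x [] (vec [some (some none)] [] [] []) 1 := by
      have := ex_push (I := x) (O := ([] : List G₁)) (R := vec [] [] [] []) (v := (none, false)) 0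
        (some (some (none : Option (G₀ ⊕ G₁))))
      rw [upd0] at this
      exact this
    have h2 := ex_peekI (I := x) (O := ([] : List G₁)) j₀ (none, false)
      (vec [some (some none)] [] [] [])
    have h3 := ex_inLoop (O := ([] : List G₁)) j₀ x false [some (some none)] [] [] []
    obtain ⟨n4, hn4, h4⟩ := rn_buildLoop (I := ([] : List G₀)) (O := ([] : List G₁))
      (x.map j₀).reverse (none, false) [some (some none)] [] []
    rw [List.reverse_reverse] at h4
    have e1 : inter (x.map j₀) ++ [some (some none)] = (le (E := io G₀ G₁) (inE G₀ G₁) x).str := by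
      have := le_str (io G₀ G₁) (fun g : G₀ => (some (Sum.inl g) : (io G₀ G₁).A)) x
      exact this.symm
    rw [e1] at h4
    rw [List.append_nil] at h3
    obtain ⟨hsz, hc'⟩ := hc x
    obtain ⟨v5, n5, hn5, h5⟩ := hc' [] [] [] (none, false)
    have hx : (le (E := io G₀ G₁) (inE G₀ G₁) x).sz = 2 * x.length + 1 :=
      le_sz (io G₀ G₁) (fun g : G₀ => (some (Sum.inl g) : (io G₀ G₁).A)) x
    have hFx : (le (E := io G₀ G₁) (outE G₀ G₁) (F x)).sz = 2 * (F x).length + 1 :=
      le_sz (io G₀ G₁) (fun g : G₁ => (some (Sum.inr g) : (io G₀ G₁).A)) (F x)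
    rw [hx] at hn5 hsz
    rw [hFx] at hsz
    have hle : le (E := io G₀ G₁) (outE G₀ G₁) (F x) =
        le (E := io G₀ G₁) Tr.leaf ((F x).map fun g => (some (Sum.inr g) : (io G₀ G₁).A)) :=
      le_map (io G₀ G₁) (fun g : G₁ => (some (Sum.inr g) : (io G₀ G₁).A)) (F x)
    rw [hle] at h5
    obtain ⟨n6, hn6, h6⟩ := rn_outLoop1 (I := ([] : List G₀)) (O := ([] : List G₁))
      (none : Option (G₀ ⊕ G₁)) ((F x).map fun g => (some (Sum.inr g) : Option (G₀ ⊕ G₁)))
      v5 [] [] []
    rw [List.append_nil] at h6
    set w : List (Sy (Option (G₀ ⊕ G₁))) := (((F x).map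
      fun g => (some (Sum.inr g) : Option (G₀ ⊕ G₁))).map fun a => some (some a)).reverse with hw
    have h7 : Ex (cpeek 2) (some (some (some none)), v5.2) ([] : List G₀) ([] : List G₁)
      (vec [] [] w []) (w.head?, v5.2) [] [] (vec [] [] w []) 1 := ex_peek 2
    set d : Option (Sy (Option (G₀ ⊕ G₁))) → G₁ := (fun z => match z with
      | some (some (some (some (Sum.inr g)))) => g
      | _ => default) with hd
    have h8 := ex_outLoop2 (I := ([] : List G₀)) d w v5.2 [] [] [] []
    have e2 : (w.map fun z => d (some z)).reverse ++ [] = F x := by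
      rw [hw, List.append_nil, ← List.map_reverse, List.reverse_reverse, List.map_map, List.map_map]
      simp [hd, Function.comp_def]
    rw [e2] at h8
    have h9 : Ex (.load fun _ => (none, false)) (none, v5.2) ([] : List G₀) (F x)
      (vec [] [] [] []) (none, false) [] (F x) (vec [] [] [] []) 1 :=
      Exec.load (Γ := Gam G₀ G₁ (Option (G₀ ⊕ G₁))) (fun _ => (none, false)) _ _
    refine ⟨_, ?_, Ex.seq h1 (Ex.seq h2 (Ex.seq h3 (Ex.seq h4 (Ex.seq h5 (Ex.seq h6 (Ex.seq h7
      (Ex.seq h8 h9)))))))⟩
    have hwl : w.length = (F x).length := by simp [hw]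
    simp only [List.length_map, List.length_reverse] at hn4 hn6
    rw [hwl]
    omega
  have hst : ∀ (x : List G₀) (O : List G₁), (st x O (vec [] [] [] []) :
      ∀ k, List (Gam G₀ G₁ (Option (G₀ ⊕ G₁)) k)) = fun k => match k with
        | .inp => x
        | .out => O
        | .r _ => [] := by
    intro x O
    funext k
    cases k with
    | inp => rfl
    | out => rfl
    | r i => fin_cases i <;> rfl
  have hinit : ∀ x : List G₀, initList tm x = (⟨some (some (entry C)), (none, false),
      st x [] (vec [] [] [] [])⟩ : TM2.Cfg _ _ _) := by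
    intro x
    rw [hst]
    simp only [initList]
    congr 1
    funext k
    cases k <;> rfl
  have hhalt : ∀ x : List G₁, haltList tm x = (⟨none, (none, false),
      st [] x (vec [] [] [] [])⟩ : TM2.Cfg _ _ _) := by
    intro x
    rw [hst]
    simp only [haltList]
    congr 1
    funext k
    cases k <;> rfl
  refine ⟨⟨⟨tm, Equiv.refl _, Equiv.refl _⟩, 9 * X + 9 * p.comp (2 * X + 1) + 31,
    fun a => ?_⟩⟩
  have hmap0 : List.map (Equiv.refl G₀).invFun (ea a) = ea a := by
    simp
  have hmap1 : List.map (Equiv.refl G₁).invFun (eb (f a)) = eb (f a) := by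
    simp
  have hx := hrun (ea a)
  choose n hn hex using hx
  have hsteps := prog_correct hex
  rw [← hinit, ← hhalt, h] at hsteps
  refine ⟨⟨n + 1, ?_⟩, ?_⟩
  · have : Option.map (haltList tm) (some (List.map (Equiv.refl G₁).invFun (eb (f a)))) =
        some (haltList tm (eb (f a))) := by
      rw [hmap1]; rfl
    erw [this, hmap0]
    exact hsteps
  · simp only [eval_add, eval_mul, eval_X, eval_ofNat, eval_comp, eval_one]
    omega

end Pool.Agent.PT81
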