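import Mathlib.Computability.TuringMachine.Computable
import Mathlib.Logic.Equiv.Defs
import Mathlib.Data.Set.Basic

/-!
# Boolean formulas, isomorphic implication, the class `Σ₂ᵖ` and polynomial-time reductions
-/

namespace Pool.Agent.IsoImp

open Turing

/-- Propositional formulas over the connectives `¬`, `∧`, `∨` with variables from `ν`. -/
inductive Fml (ν : Type) : Type
  | var (x : ν) : Fml ν
  | neg (f : Fml ν) : Fml ν
  | and (f g : Fml ν) : Fml ν
  | or (f g : Fml ν) : Fml ν

namespace Fml

/-- Truth value of a formula under the assignment `a`. -/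
def eval {ν : Type} (a : ν → Bool) : Fml ν → Bool
  | var x => a x
  | neg f => !(eval a f)
  | and f g => eval a f && eval a g
  | or f g => eval a f || eval a g

/-- Simultaneous replacement of every variable `x` by `π x`. -/
def rename {ν μ : Type} (π : ν → μ) : Fml ν → Fml μ
  | var x => var (π x)
  | neg f => neg (rename π f)
  | and f g => and (rename π f) (rename π g)
  | or f g => or (rename π f) (rename π g)

/-- The set of variables occurring in a formula. -/
def vars {ν : Type} : Fml ν → Set ν
  | var x => {x}
  | neg f => vars f
  | and f g => vars f ∪ vars g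
  | or f g => vars f ∪ vars g

end Fml

/-- Variables are named by binary strings. -/
abbrev Name : Type := List Bool

/-- The alphabet in which formulas are written. -/
inductive Sym : Type
  | bit (b : Bool)
  | var
  | neg
  | and
  | or
  deriving DecidableEq, Fintype

/-- A formula as a string, in Polish notation; a variable is written as the symbol `var` followed
by its name, a binary string. -/
def Fml.code : Fml Name → List Sym
  | .var x => Sym.var :: x.map Sym.bit
  | .neg f => Sym.neg :: f.code
  | .and f g => Sym.and :: (f.code ++ g.code)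
  | .or f g => Sym.or :: (f.code ++ g.code)

/-- `φ` isomorphically implies `ψ`: for some permutation `π` of the set `X` of the variables that
occur in `φ` or `ψ` (a permutation of all names that fixes every name outside `X`), every
assignment satisfying `π(φ)` satisfies `ψ`. -/
def IsoImplies (φ ψ : Fml Name) : Prop :=
  ∃ π : Equiv.Perm Name, (∀ x, x ∉ φ.vars ∪ ψ.vars → π x = x) ∧
    ∀ a : Name → Bool, (φ.rename π).eval a = true → ψ.eval a = true

/-- The language ISO-IMP. A pair of formulas is written as the concatenation of their codes, the
symbols of the first being tagged `inl` and those of the second `inr`. -/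
def ISO_IMP : Set (List (Sym ⊕ Sym)) :=
  {w | ∃ φ ψ : Fml Name, w = φ.code.map Sum.inl ++ ψ.code.map Sum.inr ∧ IsoImplies φ ψ}

/-- The class `Σ₂ᵖ` (Arora and Barak, Definition 5.1): `L` is in `Σ₂ᵖ` if there are a polynomial
`q` and a predicate `R` on triples `(x, u, v)`, decided by a Turing machine in time polynomial in
the length of `(x, u, v)`, such that `x ∈ L` iff some `u ∈ {0,1}^(q |x|)` satisfies
`R (x, u, v)` for all `v ∈ {0,1}^(q |x|)`. -/
def InSigmaTwo {Γ : Type} (L : Set (List Γ)) : Prop :=
  ∃ (R : List Γ × List Bool × List Bool → Bool) (q : Polynomial ℕ),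
    Nonempty (TM2ComputableInPolyTime
      (fun t : List Γ × List Bool × List Bool =>
        t.1.map Sum.inl ++ (t.2.1.map (fun b => Sum.inr (Sum.inl b)) ++
          t.2.2.map (fun b => Sum.inr (Sum.inr b)) : List (Γ ⊕ (Bool ⊕ Bool))))
      (fun b : Bool => [b]) R) ∧
    ∀ x : List Γ, x ∈ L ↔ ∃ u : List Bool, u.length = q.eval x.length ∧
      ∀ v : List Bool, v.length = q.eval x.length → R (x, u, v) = true

/-- Polynomial-time many-one reducibility. -/
def PolyReduces {Γ Δ : Type} (A : Set (List Γ)) (B : Set (List Δ)) : Prop :=
  ∃ f : List Γ → List Δ, Nonempty (TM2ComputableInPolyTime (fun x : List Γ => x)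
    (fun y : List Δ => y) f) ∧ ∀ x, x ∈ A ↔ f x ∈ B

end Pool.Agent.IsoImp
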