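import Pool.Agent.Lib_MP_a1eae6_lc.Lib

/-!
# Folds and list functions
-/

set_option linter.unusedSectionVars false

namespace Pool.Agent.PT81

open Polynomial

variable {E : Env} {α β γ δ ε : Type}

section

variable [Enc E α] [Enc E β] [Enc E γ] [Enc E δ] [Enc E ε]

theorem Poly.tail {f : γ → List α} (hf : Poly E f) : Poly E (fun c => (f c).tail) :=
  (Poly.listCases hf (Poly.const []) (Poly.snd.comp Poly.snd)).congr fun c => by
    cases f c <;> rfl

theorem Poly.isEmpty {f : γ → List α} (hf : Poly E f) : Poly E (fun c => (f c).isEmpty) :=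
  (Poly.listCases hf (Poly.const true) (Poly.const false)).congr fun c => by
    cases f c <;> rfl

theorem Poly.head? {f : γ → List α} (hf : Poly E f) : Poly E (fun c => (f c).head?) :=
  (Poly.listCases hf (Poly.const none) (Poly.osome (Poly.fst.comp Poly.snd))).congr fun c => by
    cases f c <;> rfl

/-- Folding over a list, with a polynomial bound on the size of the accumulator. -/
theorem Poly.foldl {f : γ → List α} {b : γ → β} {g : γ × (β × α) → β}
    (hf : Poly E f) (hb : Poly E b) (hg : Poly E g) (q : ℕ[X])
    (hq : ∀ c, ∀ k ≤ (f c).length,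
      esz E (((f c).take k).foldl (fun b a => g (c, (b, a))) (b c)) ≤ q.eval (esz E c)) :
    Poly E (fun c => (f c).foldl (fun b a => g (c, (b, a))) (b c)) := by
  classical
  -- the trajectory
  let S : γ × ℕ → γ × (List α × β) := fun x =>
    (x.1, ((f x.1).drop x.2, ((f x.1).take x.2).foldl (fun b a => g (x.1, (b, a))) (b x.1)))
  let step : γ × (List α × β) → γ × (List α × β) := fun x =>
    match x.2.1 with
    | [] => x
    | a :: l => (x.1, (l, g (x.1, (x.2.2, a))))
  have hstep : Poly E step := by
    have h1 : Poly E (fun y : (γ × (List α × β)) × (α × List α) =>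
        (y.1.1, (y.2.2, g (y.1.1, (y.1.2.2, y.2.1))))) :=
      (Poly.fst.comp Poly.fst).pair ((Poly.snd.comp Poly.snd).pair
        (hg.comp ((Poly.fst.comp Poly.fst).pair (((Poly.snd.comp (Poly.snd.comp Poly.fst))).pair
          (Poly.fst.comp Poly.snd)))))
    refine (Poly.listCases (f := fun x : γ × (List α × β) => x.2.1)
      (Poly.fst.comp Poly.snd) Poly.id h1).congr fun c => ?_
    rcases c with ⟨c, l, b⟩
    cases l <;> rfl
  have hS : ∀ c k, step (S (c, k)) = S (c, k + 1) := by
    intro c k
    simp only [S, step]
    cases hd : (f c).drop k with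
    | nil =>
      have hle : (f c).length ≤ k := by simpa using hd
      have h1 : (f c).drop (k + 1) = [] := by simp; omega
      have h2 : (f c).take (k + 1) = (f c).take k := by
        rw [List.take_of_length_le (by omega), List.take_of_length_le hle]
      simp [h1, h2]
    | cons a l =>
      have hlt : k < (f c).length := by
        by_contra hcon
        have : (f c).drop k = [] := by simp; omega
        rw [this] at hd
        simp at hd
      have h0 := List.drop_eq_getElem_cons hlt
      rw [hd, List.cons.injEq] at h0
      have h2 : (f c).take (k + 1) = (f c).take k ++ [a] := by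
        rw [List.take_succ_eq_append_getElem hlt, h0.1]
      simp [h2, h0.2]
  have hiter : ∀ c k j, (fun x : γ × ℕ => (x.1, x.2 + 1))^[k] (c, j) = (c, j + k) := by
    intro c k j
    induction k generalizing j with
    | zero => rfl
    | succ k ih => rw [Function.iterate_succ_apply, ih]; simp; ring
  -- the trajectory as an iteration
  have h1 : PT E (fun x : γ × ℕ => en E (S x)) (fun x : γ × ℕ => en E (S x))
      (fun x => (x.1, x.2 + 1)) := by
    refine PT.recode (PT.precode hstep S (fun _ => rfl)) fun x => ?_
    rw [← hS]
  obtain ⟨pf, hpf⟩ := hf.bound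
  have h2 := PT.iter (ec := fun c : γ => en E (f c)) h1 (3 + X + pf + q) (by
    intro n x k hk
    rw [hiter]
    have hb : ∀ y : γ × ℕ, esz E (S y) ≤ 2 + esz E y.1 + pf.eval (esz E y.1) +
        q.eval (esz E y.1) := by
      intro y
      have e1 : esz E ((f y.1).drop y.2) ≤ pf.eval (esz E y.1) :=
        (esz_drop_le _ _).trans (hpf _)
      have e2 : esz E (((f y.1).take y.2).foldl (fun b a => g (y.1, (b, a))) (b y.1)) ≤
          q.eval (esz E y.1) := by
        by_cases hy : y.2 ≤ (f y.1).length
        · exact hq _ _ hy
        · have := hq y.1 _ le_rfl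
          rw [List.take_length] at this
          rw [List.take_of_length_le (by omega)]
          exact this
      simp only [S, esz_prod]
      omega
    have h3 := hb (x.1, x.2 + k)
    have h4 : esz E x.1 ≤ (en E (S x)).sz := by
      have : (en E (S x)).sz = esz E (S x) := rfl
      rw [this]
      simp only [S, esz_prod]
      omega
    have h5 : esz E x.1 ≤ (en E (f n)).sz + (en E (S x)).sz := by omega
    have h6 := pmono pf h5
    have h7 := pmono q h5
    simp only [eval_add, eval_X, eval_ofNat]
    have : (en E (S (x.1, x.2 + k))).sz = esz E (S (x.1, x.2 + k)) := rfl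
    rw [this]
    simp only at h3
    omega)
  have h3 : PT E (en E) (pe (fun c : γ => en E (f c)) (fun x : γ × ℕ => en E (S x)))
      (fun c => (c, (c, 0))) := by
    refine PT.recode (hf.pair (Poly.id.pair (hf.pair hb))) fun c => ?_
    simp [pe, S]
  have h4 := PT.comp h2 h3
  have h5 : PT E (fun x : γ × ℕ => en E (S x)) (en E)
      (fun x : γ × ℕ => ((f x.1).take x.2).foldl (fun b a => g (x.1, (b, a))) (b x.1)) :=
    PT.precode (f := fun y : γ × (List α × β) => y.2.2) (Poly.snd.comp Poly.snd) S (fun _ => rfl)
  have h6 := PT.comp h5 h4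
  refine PT.congr h6 fun c => ?_
  simp only
  rw [hiter]
  have hlen : (f c).length ≤ 0 + (en E (f c)).sz := by
    have := length_le_esz (E := E) (f c)
    simp only [esz] at this
    omega
  rw [List.take_of_length_le hlen]

/-- Folding with an additive bound on the growth. -/
theorem Poly.foldlAdd {f : γ → List α} {b : γ → β} {g : γ × (β × α) → β}
    (hf : Poly E f) (hb : Poly E b) (hg : Poly E g) (r : ℕ[X])
    (hr : ∀ c, ∀ a ∈ f c, ∀ b, esz E (g (c, (b, a))) ≤ esz E b + r.eval (esz E c)) :
    Poly E (fun c => (f c).foldl (fun b a => g (c, (b, a))) (b c)) := by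
  obtain ⟨pf, hpf⟩ := hf.bound
  obtain ⟨pb, hpb⟩ := hb.bound
  refine Poly.foldl hf hb hg (pb + pf * r) fun c k hk => ?_
  have h : ∀ (l : List α) (x : β), (∀ a ∈ l, a ∈ f c) →
      esz E (l.foldl (fun b a => g (c, (b, a))) x) ≤ esz E x + l.length * r.eval (esz E c) := by
    intro l
    induction l with
    | nil => intro x _; simp
    | cons a l ih =>
      intro x hx
      have h1 := ih (g (c, (x, a))) (fun a ha => hx a (List.mem_cons_of_mem _ ha))
      have h2 := hr c a (hx a (by simp)) x
      simp only [List.foldl_cons, List.length_cons]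
      have : (l.length + 1) * r.eval (esz E c) = l.length * r.eval (esz E c) + r.eval (esz E c) := by
        ring
      rw [this]
      omega
  have h1 := h ((f c).take k) (b c) (fun a ha => List.mem_of_mem_take ha)
  have h2 : ((f c).take k).length * r.eval (esz E c) ≤ pf.eval (esz E c) * r.eval (esz E c) := by
    refine Nat.mul_le_mul_right _ ?_
    have := length_le_esz (E := E) (f c)
    have := hpf c
    simp only [List.length_take]
    omega
  have h3 := hpb c
  simp only [eval_add, eval_mul]
  omega

theorem Poly.reverse {f : γ → List α} (hf : Poly E f) : Poly E (fun c => (f c).reverse) := by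
  obtain ⟨pf, hpf⟩ := hf.bound
  have h := Poly.foldlAdd (b := fun _ => ([] : List α))
    (g := fun x : γ × (List α × α) => x.2.2 :: x.2.1) hf (Poly.const [])
    (Poly.cons (Poly.snd.comp Poly.snd) (Poly.fst.comp Poly.snd)) (1 + pf) (by
      intro c a ha b
      have h1 := mem_esz_le (E := E) _ a ha
      have h2 := hpf c
      simp only [esz_cons, eval_add, eval_one]
      omega)
  refine h.congr fun c => ?_
  simp only
  rw [List.foldl_flip_cons_eq_append']
  simp

theorem Poly.append {f g : γ → List α} (hf : Poly E f) (hg : Poly E g) :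
    Poly E (fun c => f c ++ g c) := by
  obtain ⟨pf, hpf⟩ := hf.bound
  have h := Poly.foldlAdd (f := fun c => (f c).reverse) (b := g)
    (g := fun x : γ × (List α × α) => x.2.2 :: x.2.1) hf.reverse hg
    (Poly.cons (Poly.snd.comp Poly.snd) (Poly.fst.comp Poly.snd)) (1 + pf) (by
      intro c a ha b
      have h1 := mem_esz_le (E := E) _ a (List.mem_reverse.1 ha)
      have h2 := hpf c
      simp only [esz_cons, eval_add, eval_one]
      omega)
  refine h.congr fun c => ?_
  simp only
  rw [List.foldl_flip_cons_eq_append']
  simp

/-- Folding with an invariant bounding the accumulator. -/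
theorem Poly.foldlInv {f : γ → List α} {b : γ → β} {g : γ × (β × α) → β}
    (hf : Poly E f) (hb : Poly E b) (hg : Poly E g) (Inv : γ → ℕ → β → Prop) (q : ℕ[X])
    (h0 : ∀ c, Inv c 0 (b c))
    (h1 : ∀ c, ∀ k < (f c).length, ∀ b, Inv c k b → ∀ a ∈ f c, Inv c (k + 1) (g (c, (b, a))))
    (h2 : ∀ c, ∀ k ≤ (f c).length, ∀ b, Inv c k b → esz E b ≤ q.eval (esz E c)) :
    Poly E (fun c => (f c).foldl (fun b a => g (c, (b, a))) (b c)) := by
  refine Poly.foldl hf hb hg q fun c k hk => h2 c k hk _ ?_
  induction k with
  | zero => simpa using h0 c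
  | succ k ih =>
    rw [List.take_succ_eq_append_getElem (by omega), List.foldl_append]
    exact h1 c k (by omega) _ (ih (by omega)) _ (List.getElem_mem _)

theorem Poly.foldrAdd {f : γ → List α} {b : γ → β} {g : γ × (α × β) → β}
    (hf : Poly E f) (hb : Poly E b) (hg : Poly E g) (r : ℕ[X])
    (hr : ∀ c, ∀ a ∈ f c, ∀ b, esz E (g (c, (a, b))) ≤ esz E b + r.eval (esz E c)) :
    Poly E (fun c => (f c).foldr (fun a b => g (c, (a, b))) (b c)) := by
  have h := Poly.foldlAdd (f := fun c => (f c).reverse) (b := b)
    (g := fun x : γ × (β × α) => g (x.1, (x.2.2, x.2.1))) hf.reverse hb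
    (hg.comp (Poly.fst.pair ((Poly.snd.comp Poly.snd).pair (Poly.fst.comp Poly.snd)))) r
    (fun c a ha b => hr c a (List.mem_reverse.1 ha) b)
  refine h.congr fun c => ?_
  simp

theorem Poly.map {f : γ → List α} {g : γ × α → β} (hf : Poly E f) (hg : Poly E g) :
    Poly E (fun c => (f c).map (fun a => g (c, a))) := by
  obtain ⟨pf, hpf⟩ := hf.bound
  obtain ⟨pg, hpg⟩ := hg.bound
  have h := Poly.foldrAdd (b := fun _ => ([] : List β))
    (g := fun x : γ × (α × List β) => g (x.1, x.2.1) :: x.2.2) hf (Poly.const [])
    (Poly.cons (hg.comp (Poly.fst.pair (Poly.fst.comp Poly.snd))) (Poly.snd.comp Poly.snd))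
    (1 + pg.comp (1 + X + pf)) (by
      intro c a ha b
      have h1 := mem_esz_le (E := E) _ a ha
      have h2 := hpf c
      have h3 := hpg (c, a)
      have h4 : pg.eval (esz E (c, a)) ≤ pg.eval (1 + esz E c + pf.eval (esz E c)) :=
        pmono pg (by simp only [esz_prod]; omega)
      simp only [esz_cons, eval_add, eval_one, eval_comp, eval_X]
      omega)
  refine h.congr fun c => ?_
  induction f c with
  | nil => rfl
  | cons a l ih => simp only [List.foldr_cons, List.map_cons, ih]

theorem Poly.flatMap {f : γ → List α} {g : γ × α → List β} (hf : Poly E f) (hg : Poly E g) :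
    Poly E (fun c => (f c).flatMap (fun a => g (c, a))) := by
  obtain ⟨pf, hpf⟩ := hf.bound
  obtain ⟨pg, hpg⟩ := hg.bound
  have h := Poly.foldrAdd (b := fun _ => ([] : List β))
    (g := fun x : γ × (α × List β) => g (x.1, x.2.1) ++ x.2.2) hf (Poly.const [])
    (Poly.append (hg.comp (Poly.fst.pair (Poly.fst.comp Poly.snd))) (Poly.snd.comp Poly.snd))
    (1 + pg.comp (1 + X + pf)) (by
      intro c a ha b
      have h1 := mem_esz_le (E := E) _ a ha
      have h2 := hpf c
      have h3 := hpg (c, a)
      have h4 : pg.eval (esz E (c, a)) ≤ pg.eval (1 + esz E c + pf.eval (esz E c)) :=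
        pmono pg (by simp only [esz_prod]; omega)
      have h5 := esz_append (E := E) (g (c, a)) b
      simp only [eval_add, eval_one, eval_comp, eval_X]
      omega)
  refine h.congr fun c => ?_
  induction f c with
  | nil => rfl
  | cons a l ih => simp only [List.foldr_cons, List.flatMap_cons, ih]

theorem Poly.filter {f : γ → List α} {g : γ × α → Bool} (hf : Poly E f) (hg : Poly E g) :
    Poly E (fun c => (f c).filter (fun a => g (c, a))) := by
  refine (Poly.flatMap (g := fun x : γ × α => if g x then [x.2] else []) hf
    (Poly.ite hg (Poly.cons Poly.snd (Poly.const [])) (Poly.const []))).congr fun c => ?_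
  induction f c with
  | nil => rfl
  | cons a l ih =>
    simp only [List.flatMap_cons, ih, List.filter_cons]
    cases g (c, a) <;> simp

theorem Poly.filterMap {f : γ → List α} {g : γ × α → Option β} (hf : Poly E f) (hg : Poly E g) :
    Poly E (fun c => (f c).filterMap (fun a => g (c, a))) := by
  refine (Poly.flatMap (g := fun x : γ × α => match g x with
    | none => []
    | some b => [b]) hf
    (Poly.optCases hg (Poly.const []) (Poly.cons Poly.snd (Poly.const [])))).congr fun c => ?_
  induction f c with
  | nil => rfl
  | cons a l ih =>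
    simp only [List.flatMap_cons, ih, List.filterMap_cons]
    cases g (c, a) <;> simp

theorem Poly.all {f : γ → List α} {g : γ × α → Bool} (hf : Poly E f) (hg : Poly E g) :
    Poly E (fun c => (f c).all (fun a => g (c, a))) := by
  have h := Poly.foldrAdd (b := fun _ => true)
    (g := fun x : γ × (α × Bool) => g (x.1, x.2.1) && x.2.2) hf (Poly.const true)
    (Poly.and (hg.comp (Poly.fst.pair (Poly.fst.comp Poly.snd))) (Poly.snd.comp Poly.snd))
    3 (by
      intro c a ha b
      have := esz_bool (E := E) (g (c, a) && b)
      simp only [eval_ofNat]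
      omega)
  refine h.congr fun c => ?_
  induction f c with
  | nil => rfl
  | cons a l ih => simp only [List.foldr_cons, List.all_cons, ih]

theorem Poly.any {f : γ → List α} {g : γ × α → Bool} (hf : Poly E f) (hg : Poly E g) :
    Poly E (fun c => (f c).any (fun a => g (c, a))) := by
  have h := Poly.foldrAdd (b := fun _ => false)
    (g := fun x : γ × (α × Bool) => g (x.1, x.2.1) || x.2.2) hf (Poly.const false)
    (Poly.or (hg.comp (Poly.fst.pair (Poly.fst.comp Poly.snd))) (Poly.snd.comp Poly.snd))
    3 (by
      intro c a ha b
      have := esz_bool (E := E) (g (c, a) || b)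
      simp only [eval_ofNat]
      omega)
  refine h.congr fun c => ?_
  induction f c with
  | nil => rfl
  | cons a l ih => simp only [List.foldr_cons, List.any_cons, ih]

theorem Poly.length {f : γ → List α} (hf : Poly E f) : Poly E (fun c => (f c).length) := by
  have h := Poly.foldrAdd (b := fun _ => (0 : ℕ))
    (g := fun x : γ × (α × ℕ) => x.2.2 + 1) hf (Poly.const 0)
    (Poly.succ (Poly.snd.comp Poly.snd)) 2 (by
      intro c a ha b
      simp only [esz_nat, eval_ofNat]
      omega)
  refine h.congr fun c => ?_
  induction f c with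
  | nil => rfl
  | cons a l ih => simp only [List.foldr_cons, List.length_cons, ih]

/-- A list of units from a number. -/
theorem Poly.units {f : γ → ℕ} (hf : Poly E f) : Poly E (fun c => List.replicate (f c) ()) := by
  refine PT.recode hf fun c => ?_
  induction f c with
  | zero => rfl
  | succ n ih => rw [List.replicate_succ, en_cons, ih]; rfl

/-- Iteration a given number of times. -/
theorem Poly.natIter {f : γ → ℕ} {b : γ → β} {g : γ × β → β}
    (hf : Poly E f) (hb : Poly E b) (hg : Poly E g) (q : ℕ[X])
    (hq : ∀ c, ∀ k ≤ f c, esz E ((fun b => g (c, b))^[k] (b c)) ≤ q.eval (esz E c)) :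
    Poly E (fun c => (fun b => g (c, b))^[f c] (b c)) := by
  have key : ∀ c, ∀ k : ℕ, ∀ x, (List.replicate k ()).foldl (fun b _ => g (c, b)) x =
      (fun b => g (c, b))^[k] x := by
    intro c k
    induction k with
    | zero => intro x; rfl
    | succ k ih => intro x; rw [List.replicate_succ, List.foldl_cons, ih,
        Function.iterate_succ_apply]
  have h := Poly.foldl (f := fun c => List.replicate (f c) ()) (b := b)
    (g := fun x : γ × (β × Unit) => g (x.1, x.2.1)) hf.units hb
    (hg.comp (Poly.fst.pair (Poly.fst.comp Poly.snd))) q (by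
      intro c k hk
      have hk' : k ≤ f c := by simpa using hk
      rw [List.take_replicate, Nat.min_eq_left hk', key]
      exact hq c k hk')
  refine h.congr fun c => ?_
  exact key c _ _

theorem Poly.replicate {f : γ → ℕ} {g : γ → α} (hf : Poly E f) (hg : Poly E g) :
    Poly E (fun c => List.replicate (f c) (g c)) := by
  refine (Poly.map hf.units (hg.comp Poly.fst)).congr fun c => ?_
  simp

theorem Poly.add {f g : γ → ℕ} (hf : Poly E f) (hg : Poly E g) : Poly E (fun c => f c + g c) := by
  refine (Poly.length (Poly.append hf.units hg.units)).congr fun c => ?_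
  simp

theorem Poly.mul {f g : γ → ℕ} (hf : Poly E f) (hg : Poly E g) : Poly E (fun c => f c * g c) := by
  refine (Poly.length (Poly.flatMap (f := fun c => List.replicate (f c) ())
    (g := fun x : γ × Unit => List.replicate (g x.1) ()) hf.units
    (Poly.units (hg.comp Poly.fst)))).congr fun c => ?_
  simp

theorem Poly.polyEval (p : ℕ[X]) {f : γ → ℕ} (hf : Poly E f) : Poly E (fun c => p.eval (f c)) := by
  induction p using Polynomial.induction_on' with
  | add p q hp hq => exact (Poly.add hp hq).congr fun c => by simp
  | monomial n a =>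
    induction n with
    | zero => exact (Poly.const a).congr fun c => by simp
    | succ n ih =>
      refine (Poly.mul ih hf).congr fun c => ?_
      simp only [eval_monomial]
      ring

theorem Poly.range {f : γ → ℕ} (hf : Poly E f) : Poly E (fun c => List.range (f c)) := by
  obtain ⟨pf, hpf⟩ := hf.bound
  have h := Poly.foldlInv (f := fun c => List.replicate (f c) ())
    (b := fun _ => ((0 : ℕ), ([] : List ℕ)))
    (g := fun x : γ × ((ℕ × List ℕ) × Unit) => (x.2.1.1 + 1, x.2.1.1 :: x.2.1.2)) hf.units
    (Poly.const _) (Poly.pair (Poly.succ (Poly.fst.comp (Poly.fst.comp Poly.snd)))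
      (Poly.cons (Poly.fst.comp (Poly.fst.comp Poly.snd)) (Poly.snd.comp (Poly.fst.comp Poly.snd))))
    (fun c k b => b = (k, (List.range k).reverse)) (2 * pf + 3 + (2 * pf + 3) * pf) (by
      intro c
      rfl) (by
      intro c k hk b hb a ha
      subst hb
      simp [List.range_succ]) (by
      intro c k hk b hb
      subst hb
      have hk' : k ≤ f c := by simpa using hk
      have h1 : ∀ k, esz E (List.range k).reverse ≤ 1 + k * (2 * k + 2) := by
        intro k
        induction k with
        | zero => simp
        | succ k ih =>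
          rw [List.range_succ, List.reverse_append]
          simp only [List.reverse_cons, List.reverse_nil, List.nil_append, List.cons_append,
            esz_cons, esz_nat]
          nlinarith
      have h2 := h1 k
      have h3 := hpf c
      simp only [esz_nat] at h3
      have h4 : k ≤ pf.eval (esz E c) := by omega
      have h5 : k * (2 * k + 2) ≤ pf.eval (esz E c) * (2 * pf.eval (esz E c) + 3) :=
        Nat.mul_le_mul h4 (by omega)
      simp only [esz_prod, esz_nat, eval_add, eval_mul, eval_ofNat]
      rw [mul_comm (2 * eval (esz E c) pf + 3)]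
      omega)
  have h' := (Poly.reverse (Poly.snd.comp h))
  refine h'.congr fun c => ?_
  have key : ∀ n : ℕ, (List.replicate n ()).foldl (fun (b : ℕ × List ℕ) _ => (b.1 + 1, b.1 :: b.2))
      (0, []) = (n, (List.range n).reverse) := by
    intro n
    induction n with
    | zero => rfl
    | succ n ih =>
      rw [List.replicate_succ', List.foldl_append, ih]
      simp [List.range_succ]
  simp only
  rw [key]
  simp

/-- Case distinction over a finite type. -/
theorem Poly.finCase [Fintype α] {f : γ × α → β} (h : ∀ x, Poly E (fun c => f (c, x))) :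
    Poly E f := by
  classical
  by_cases hne : Nonempty α
  · obtain ⟨x₀⟩ := hne
    have key : ∀ l : List α, Poly E (fun p : γ × α => if p.2 ∈ l then f p else f (p.1, x₀)) := by
      intro l
      induction l with
      | nil => simpa using (h x₀).comp Poly.fst
      | cons x l ih =>
        have h1 : Poly E (fun p : γ × α => decide (p.2 = x)) := Poly.eq Poly.snd (Poly.const x)
        refine (Poly.ite h1 ((h x).comp Poly.fst) ih).congr fun p => ?_
        by_cases hp : p.2 = x
        · subst hp; simp
        · simp [hp]
    refine (key (Finset.univ : Finset α).toList).congr fun p => ?_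
    simp
  · have : IsEmpty α := not_nonempty_iff.1 hne
    refine ⟨cskip, 0, fun a => (this.false a.2).elim⟩

theorem Poly.ofFin [Fintype α] (f : α → β) : Poly E f := by
  have h : Poly E (fun x : Unit × α => f x.2) :=
    Poly.finCase fun x => (Poly.const (f x) : Poly E (fun _ : Unit => f x))
  exact h.comp (Poly.pair (Poly.const ()) Poly.id)

theorem Poly.comp₁ [Fintype α] (f : α → β) {g : γ → α} (hg : Poly E g) : Poly E (fun c => f (g c)) :=
  (Poly.ofFin f).comp hg

end

end Pool.Agent.PT81
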