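import Pool.Agent.Lib_MP_a1eae6_lc.Tableau

/-!
# Simulation of Mathlib's TM2 machines by simple machines
-/

set_option linter.unusedSectionVars false

namespace Pool.Agent.IsoImp

open Turing Function

noncomputable section

open Classical in
/-- All statements of a machine. -/
def stmtsOf (tm : FinTM2) : Finset (TM2.Stmt tm.Γ tm.Λ tm.σ) :=
  letI := tm.ΛFin
  Finset.univ.biUnion fun l : tm.Λ => TM2.stmts₁ (tm.m l)

theorem stmts_sub {tm : FinTM2} {q q' : TM2.Stmt tm.Γ tm.Λ tm.σ} (h : q ∈ stmtsOf tm)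
    (h' : q' ∈ TM2.stmts₁ q) : q' ∈ stmtsOf tm := by
  classical
  simp only [stmtsOf, Finset.mem_biUnion] at h ⊢
  obtain ⟨l, hl, hq⟩ := h
  exact ⟨l, hl, TM2.stmts₁_trans hq h'⟩

theorem main_mem (tm : FinTM2) (l : tm.Λ) : tm.m l ∈ stmtsOf tm := by
  classical
  let _ := tm.ΛFin
  simp only [stmtsOf, Finset.mem_biUnion]
  exact ⟨l, Finset.mem_univ l, TM2.stmts₁_self⟩

theorem mem_push {tm : FinTM2} {k : tm.K} {f : tm.σ → tm.Γ k}
    {q : TM2.Stmt tm.Γ tm.Λ tm.σ} (h : TM2.Stmt.push k f q ∈ stmtsOf tm) : q ∈ stmtsOf tm := by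
  classical
  exact stmts_sub h (by simp only [TM2.stmts₁]; exact Finset.mem_insert_of_mem TM2.stmts₁_self)

theorem mem_peek {tm : FinTM2} {k : tm.K} {f : tm.σ → Option (tm.Γ k) → tm.σ}
    {q : TM2.Stmt tm.Γ tm.Λ tm.σ} (h : TM2.Stmt.peek k f q ∈ stmtsOf tm) : q ∈ stmtsOf tm := by
  classical
  exact stmts_sub h (by simp only [TM2.stmts₁]; exact Finset.mem_insert_of_mem TM2.stmts₁_self)

theorem mem_pop {tm : FinTM2} {k : tm.K} {f : tm.σ → Option (tm.Γ k) → tm.σ}
    {q : TM2.Stmt tm.Γ tm.Λ tm.σ} (h : TM2.Stmt.pop k f q ∈ stmtsOf tm) : q ∈ stmtsOf tm := by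
  classical
  exact stmts_sub h (by simp only [TM2.stmts₁]; exact Finset.mem_insert_of_mem TM2.stmts₁_self)

theorem mem_load {tm : FinTM2} {f : tm.σ → tm.σ}
    {q : TM2.Stmt tm.Γ tm.Λ tm.σ} (h : TM2.Stmt.load f q ∈ stmtsOf tm) : q ∈ stmtsOf tm := by
  classical
  exact stmts_sub h (by simp only [TM2.stmts₁]; exact Finset.mem_insert_of_mem TM2.stmts₁_self)

theorem mem_brT {tm : FinTM2} {f : tm.σ → Bool}
    {q q' : TM2.Stmt tm.Γ tm.Λ tm.σ} (h : TM2.Stmt.branch f q q' ∈ stmtsOf tm) :
    q ∈ stmtsOf tm := by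
  classical
  exact stmts_sub h (by
    simp only [TM2.stmts₁]
    exact Finset.mem_insert_of_mem (Finset.mem_union_left _ TM2.stmts₁_self))

theorem mem_brF {tm : FinTM2} {f : tm.σ → Bool}
    {q q' : TM2.Stmt tm.Γ tm.Λ tm.σ} (h : TM2.Stmt.branch f q q' ∈ stmtsOf tm) :
    q' ∈ stmtsOf tm := by
  classical
  exact stmts_sub h (by
    simp only [TM2.stmts₁]
    exact Finset.mem_insert_of_mem (Finset.mem_union_right _ TM2.stmts₁_self))

open Classical in
/-- Symbols pushed by a statement. -/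
def pushed (tm : FinTM2) : TM2.Stmt tm.Γ tm.Λ tm.σ → Finset (Σ k, tm.Γ k)
  | .push k f _ =>
    letI := tm.σFin
    Finset.univ.image fun v : tm.σ => (⟨k, f v⟩ : Σ k, tm.Γ k)
  | _ => ∅

open Classical in
/-- All symbols used by a machine. -/
def symsOf (tm : FinTM2) (g : Σ k, tm.Γ k) : Finset (Σ k, tm.Γ k) :=
  letI := tm.Γk₀Fin
  insert g ((Finset.univ.image fun a : tm.Γ tm.k₀ => (⟨tm.k₀, a⟩ : Σ k, tm.Γ k)) ∪
    (stmtsOf tm).biUnion (pushed tm))

theorem mem_syms_push {tm : FinTM2} {g : Σ k, tm.Γ k} {k : tm.K} {f : tm.σ → tm.Γ k}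
    {q : TM2.Stmt tm.Γ tm.Λ tm.σ} (h : TM2.Stmt.push k f q ∈ stmtsOf tm) (v : tm.σ) :
    (⟨k, f v⟩ : Σ k, tm.Γ k) ∈ symsOf tm g := by
  classical
  let _ := tm.σFin
  refine Finset.mem_insert_of_mem (Finset.mem_union_right _ (Finset.mem_biUnion.2 ⟨_, h, ?_⟩))
  simp only [pushed]
  exact Finset.mem_image_of_mem _ (Finset.mem_univ v)

theorem mem_syms_in {tm : FinTM2} {g : Σ k, tm.Γ k} (a : tm.Γ tm.k₀) :
    (⟨tm.k₀, a⟩ : Σ k, tm.Γ k) ∈ symsOf tm g := by
  classical
  let _ := tm.Γk₀Fin
  exact Finset.mem_insert_of_mem (Finset.mem_union_left _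
    (Finset.mem_image_of_mem _ (Finset.mem_univ a)))

theorem mem_syms_self {tm : FinTM2} {g : Σ k, tm.Γ k} : g ∈ symsOf tm g := by
  classical
  exact Finset.mem_insert_self _ _

variable (tm : FinTM2) (g : Σ k, tm.Γ k)

/-- Controls. -/
abbrev CC : Type := Option {q // q ∈ stmtsOf tm} × tm.σ
/-- Symbols. -/
abbrev SS : Type := {a // a ∈ symsOf tm g}

/-- Read a symbol as a symbol of stack `k`. -/
def castO (k : tm.K) (a : Option (SS tm g)) : Option (tm.Γ k) :=
  open Classical in
  a.bind fun s => if h : s.1.1 = k then some (h ▸ s.1.2) else none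

/-- The stack acted upon. -/
def simK : CC tm → tm.K
  | (some ⟨.push k _ _, _⟩, _) => k
  | (some ⟨.peek k _ _, _⟩, _) => k
  | (some ⟨.pop k _ _, _⟩, _) => k
  | _ => tm.k₀

/-- The next control. -/
def simN : CC tm → Option (SS tm g) → CC tm
  | (some ⟨.push _ _ q, h⟩, v), _ => (some ⟨q, mem_push h⟩, v)
  | (some ⟨.peek k f q, h⟩, v), a => (some ⟨q, mem_peek h⟩, f v (castO tm g k a))
  | (some ⟨.pop k f q, h⟩, v), a => (some ⟨q, mem_pop h⟩, f v (castO tm g k a))
  | (some ⟨.load f q, h⟩, v), _ => (some ⟨q, mem_load h⟩, f v)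
  | (some ⟨.branch f q q', h⟩, v), _ =>
    (some (cond (f v) ⟨q, mem_brT h⟩ ⟨q', mem_brF h⟩), v)
  | (some ⟨.goto l, _⟩, v), _ => (some ⟨tm.m (l v), main_mem tm _⟩, v)
  | (some ⟨.halt, _⟩, v), _ => (none, v)
  | (none, v), _ => (none, v)

/-- The action. -/
def simA : CC tm → Act (SS tm g)
  | (some ⟨.push k f _, h⟩, v) => .push ⟨⟨k, f v⟩, mem_syms_push h v⟩
  | (some ⟨.pop _ _ _, _⟩, _) => .pop
  | _ => .keep

/-- The simulating machine. -/
def sim : UM (CC tm) tm.K (SS tm g) := ⟨simK tm, simN tm g, simA tm g⟩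

/-- Related stacks. -/
def RelS (S : ∀ k, List (tm.Γ k)) (S' : tm.K → List (SS tm g)) : Prop :=
  ∀ k, (S' k).map Subtype.val = (S k).map (Sigma.mk k)

/-- Related configurations. -/
def RelC (c : TM2.Cfg tm.Γ tm.Λ tm.σ) (x : CC tm × (tm.K → List (SS tm g))) : Prop :=
  x.1.1.map Subtype.val = c.l.map tm.m ∧ x.1.2 = c.var ∧ RelS tm g c.stk x.2

variable {tm g}

theorem castO_head {S : ∀ k, List (tm.Γ k)} {S' : tm.K → List (SS tm g)} (h : RelS tm g S S')
    (k : tm.K) : castO tm g k (S' k).head? = (S k).head? := by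
  classical
  have hk := h k
  cases hS : S k with
  | nil =>
    rw [hS] at hk
    have : S' k = [] := by
      cases hS' : S' k with
      | nil => rfl
      | cons b l => rw [hS'] at hk; simp at hk
    rw [this]
    rfl
  | cons a l =>
    rw [hS] at hk
    cases hS' : S' k with
    | nil => rw [hS'] at hk; simp at hk
    | cons b l' =>
      rw [hS'] at hk
      simp only [List.map_cons, List.cons.injEq] at hk
      obtain ⟨h1, _⟩ := hk
      simp only [List.head?_cons, castO, Option.bind_some]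
      rw [dif_pos (by rw [h1])]
      congr 1
      have : ∀ (x : Σ k, tm.Γ k) (h : x = ⟨k, a⟩) (e : x.1 = k), e ▸ x.2 = a := by
        intro x hx e
        subst hx
        rfl
      exact this b.1 h1 _

instance instDecK (tm : FinTM2) : DecidableEq tm.K := tm.kDecidableEq

theorem RelS.update {S : ∀ k, List (tm.Γ k)} {S' : tm.K → List (SS tm g)} (h : RelS tm g S S')
    (k : tm.K) (l : List (tm.Γ k)) (l' : List (SS tm g))
    (hl : l'.map Subtype.val = l.map (Sigma.mk k)) :
    RelS tm g (Function.update S k l) (Function.update S' k l') := by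
  intro j
  by_cases hj : j = k
  · subst hj
    simpa using hl
  · rw [Function.update_of_ne hj, Function.update_of_ne hj]
    exact h j

/-- The number of micro steps of a statement. -/
def dep : TM2.Stmt tm.Γ tm.Λ tm.σ → ℕ
  | .push _ _ q => dep q + 1
  | .peek _ _ q => dep q + 1
  | .pop _ _ q => dep q + 1
  | .load _ q => dep q + 1
  | .branch _ q q' => max (dep q) (dep q') + 1
  | .goto _ => 1
  | .halt => 1

theorem sim_aux (q : TM2.Stmt tm.Γ tm.Λ tm.σ) : ∀ (hq : q ∈ stmtsOf tm) (v : tm.σ)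
    (S : ∀ k, List (tm.Γ k)) (S' : tm.K → List (SS tm g)), RelS tm g S S' →
    ∃ n ≤ dep q, RelC tm g (TM2.stepAux q v S) ((sim tm g).step^[n] ((some ⟨q, hq⟩, v), S')) := by
  induction q with
  | push k f q ih =>
    intro hq v S S' h
    have h1 : (sim tm g).step ((some ⟨.push k f q, hq⟩, v), S') =
        ((some ⟨q, mem_push hq⟩, v), Function.update S' k (⟨⟨k, f v⟩, mem_syms_push hq v⟩ :: S' k)) :=
      rfl
    have h2 := h.update k (f v :: S k) (⟨⟨k, f v⟩, mem_syms_push hq v⟩ :: S' k)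
      (by simp only [List.map_cons]; rw [h k])
    obtain ⟨n, hn, hr⟩ := ih (mem_push hq) v _ _ h2
    refine ⟨n + 1, by simp [dep, hn], ?_⟩
    rw [Function.iterate_succ_apply, h1]
    exact hr
  | peek k f q ih =>
    intro hq v S S' h
    have h1 : (sim tm g).step ((some ⟨.peek k f q, hq⟩, v), S') =
        ((some ⟨q, mem_peek hq⟩, f v (castO tm g k (S' k).head?)), Function.update S' k (S' k)) :=
      rfl
    rw [Function.update_eq_self, castO_head h] at h1
    obtain ⟨n, hn, hr⟩ := ih (mem_peek hq) (f v (S k).head?) _ _ h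
    refine ⟨n + 1, by simp [dep, hn], ?_⟩
    rw [Function.iterate_succ_apply, h1]
    exact hr
  | pop k f q ih =>
    intro hq v S S' h
    have h1 : (sim tm g).step ((some ⟨.pop k f q, hq⟩, v), S') =
        ((some ⟨q, mem_pop hq⟩, f v (castO tm g k (S' k).head?)),
          Function.update S' k (S' k).tail) := rfl
    rw [castO_head h] at h1
    have h2 := h.update k (S k).tail (S' k).tail
      (by rw [List.map_tail, List.map_tail, h k])
    obtain ⟨n, hn, hr⟩ := ih (mem_pop hq) (f v (S k).head?) _ _ h2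
    refine ⟨n + 1, by simp [dep, hn], ?_⟩
    rw [Function.iterate_succ_apply, h1]
    exact hr
  | load f q ih =>
    intro hq v S S' h
    have h1 : (sim tm g).step ((some ⟨.load f q, hq⟩, v), S') =
        ((some ⟨q, mem_load hq⟩, f v), Function.update S' tm.k₀ (S' tm.k₀)) := rfl
    rw [Function.update_eq_self] at h1
    obtain ⟨n, hn, hr⟩ := ih (mem_load hq) (f v) _ _ h
    refine ⟨n + 1, by simp [dep, hn], ?_⟩
    rw [Function.iterate_succ_apply, h1]
    exact hr
  | branch f q q' ih ih' =>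
    intro hq v S S' h
    have h1 : (sim tm g).step ((some ⟨.branch f q q', hq⟩, v), S') =
        ((some (cond (f v) ⟨q, mem_brT hq⟩ ⟨q', mem_brF hq⟩), v),
          Function.update S' tm.k₀ (S' tm.k₀)) := rfl
    rw [Function.update_eq_self] at h1
    cases hf : f v with
    | true =>
      rw [hf] at h1
      obtain ⟨n, hn, hr⟩ := ih (mem_brT hq) v _ _ h
      refine ⟨n + 1, by simp only [dep]; omega, ?_⟩
      rw [Function.iterate_succ_apply, h1]
      simp only [TM2.stepAux, hf]
      exact hr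
    | false =>
      rw [hf] at h1
      obtain ⟨n, hn, hr⟩ := ih' (mem_brF hq) v _ _ h
      refine ⟨n + 1, by simp only [dep]; omega, ?_⟩
      rw [Function.iterate_succ_apply, h1]
      simp only [TM2.stepAux, hf]
      exact hr
  | goto l =>
    intro hq v S S' h
    have h1 : (sim tm g).step ((some ⟨.goto l, hq⟩, v), S') =
        ((some ⟨tm.m (l v), main_mem tm _⟩, v), Function.update S' tm.k₀ (S' tm.k₀)) := rfl
    rw [Function.update_eq_self] at h1
    refine ⟨1, le_rfl, ?_⟩
    rw [Function.iterate_one, h1]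
    exact ⟨rfl, rfl, h⟩
  | halt =>
    intro hq v S S' h
    have h1 : (sim tm g).step ((some ⟨.halt, hq⟩, v), S') =
        ((none, v), Function.update S' tm.k₀ (S' tm.k₀)) := rfl
    rw [Function.update_eq_self] at h1
    refine ⟨1, le_rfl, ?_⟩
    rw [Function.iterate_one, h1]
    exact ⟨rfl, rfl, h⟩

/-- Bound on the number of micro steps per step. -/
def depMax (tm : FinTM2) : ℕ := (stmtsOf tm).sup dep

theorem sim_step {c c' : TM2.Cfg tm.Γ tm.Λ tm.σ} {x : CC tm × (tm.K → List (SS tm g))}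
    (h : RelC tm g c x) (hc : TM2.step tm.m c = some c') :
    ∃ n ≤ depMax tm, RelC tm g c' ((sim tm g).step^[n] x) := by
  obtain ⟨l, v, S⟩ := c
  obtain ⟨⟨o, v'⟩, S'⟩ := x
  obtain ⟨h1, h2, h3⟩ := h
  simp only at h1 h2 h3
  subst h2
  cases l with
  | none => simp [TM2.step] at hc
  | some l =>
    simp only [Option.map_some] at h1
    cases o with
    | none => simp at h1
    | some q =>
      simp only [Option.map_some, Option.some.injEq] at h1
      simp only [TM2.step, Option.some.injEq] at hc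
      obtain ⟨q, hq⟩ := q
      simp only at h1
      subst h1
      obtain ⟨n, hn, hr⟩ := sim_aux (tm.m l) hq v' S S' h3
      rw [hc] at hr
      exact ⟨n, hn.trans (Finset.le_sup (f := dep) hq), hr⟩

theorem sim_steps (n : ℕ) : ∀ {c c' : TM2.Cfg tm.Γ tm.Λ tm.σ}
    {x : CC tm × (tm.K → List (SS tm g))} (_ : RelC tm g c x)
    (_ : (flip bind (TM2.step tm.m))^[n] (some c) = some c'),
    ∃ k ≤ depMax tm * n, RelC tm g c' ((sim tm g).step^[k] x) := by
  induction n with
  | zero =>
    intro c c' x h hc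
    simp only [Function.iterate_zero, id_eq, Option.some.injEq] at hc
    subst hc
    exact ⟨0, le_rfl, h⟩
  | succ n ih =>
    intro c c' x h hc
    rw [Function.iterate_succ_apply] at hc
    cases hs : TM2.step tm.m c with
    | none =>
      have : (flip bind (TM2.step tm.m)) (some c) = none := by simp [flip, hs]
      rw [this] at hc
      have hnone : ∀ n, (flip bind (TM2.step tm.m))^[n] (none : Option (TM2.Cfg tm.Γ tm.Λ tm.σ)) =
          none := by
        intro n
        induction n with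
        | zero => rfl
        | succ n ih => rw [Function.iterate_succ_apply]; exact ih
      rw [hnone] at hc
      exact absurd hc (by simp)
    | some c₁ =>
      have : (flip bind (TM2.step tm.m)) (some c) = some c₁ := by simp [flip, hs]
      rw [this] at hc
      obtain ⟨k₁, hk₁, h₁⟩ := sim_step h hs
      obtain ⟨k₂, hk₂, h₂⟩ := ih h₁ hc
      refine ⟨k₂ + k₁, ?_, ?_⟩
      · rw [Nat.mul_succ]; omega
      · rw [Function.iterate_add_apply]; exact h₂

theorem sim_halt {c : TM2.Cfg tm.Γ tm.Λ tm.σ} {x : CC tm × (tm.K → List (SS tm g))}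
    (h : RelC tm g c x) (hc : c.l = none) (n : ℕ) : (sim tm g).step^[n] x = x := by
  obtain ⟨l, v, S⟩ := c
  obtain ⟨⟨o, v'⟩, S'⟩ := x
  obtain ⟨h1, h2, h3⟩ := h
  simp only at h1 hc
  subst hc
  simp only [Option.map_none, Option.map_eq_none_iff] at h1
  subst h1
  have hst : (sim tm g).step ((none, v'), S') = ((none, v'), S') := by
    have : (sim tm g).step ((none, v'), S') =
      ((none, v'), Function.update S' tm.k₀ (S' tm.k₀)) := rfl
    rw [this, Function.update_eq_self]
  induction n with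
  | zero => rfl
  | succ n ih => rw [Function.iterate_succ_apply, hst, ih]

end

end Pool.Agent.IsoImp
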