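import Pool.Agent.Lib_MP_a1eae6_lc.Boundary
import Pool.Agent.Lib_MP_a1eae6_lc.Sim

/-!
# Generating formulas in polynomial time
-/

set_option linter.unusedSectionVars false
set_option linter.unusedVariables false

namespace Pool.Agent.IsoImp

open Pool.Agent.PT81 Turing Polynomial

noncomputable section

/-- Encoding of the elements of a finite type. -/
@[instance_reducible]
def finEnc (E : Env) (F : Type) [Fintype F] : Enc E F where
  enc x := nen E (Fintype.equivFin F x)
  inj := by
    intro a b h
    have h1 : en E ((Fintype.equivFin F a : Fin _) : ℕ) = en E ((Fintype.equivFin F b : Fin _) : ℕ) := h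
    have := en_inj h1
    exact (Fintype.equivFin F).injective (Fin.ext this)

/-- Raw input symbols. -/
structure RawI (G₀ : Type) : Type where
  val : G₀
/-- Raw output symbols. -/
structure RawO (G₁ : Type) : Type where
  val : G₁

section raw

variable {G₀ G₁ : Type} [Fintype G₀] [Fintype G₁] [DecidableEq G₀] [DecidableEq G₁]

instance : Fintype (RawI G₀) :=
  Fintype.ofEquiv G₀ ⟨RawI.mk, RawI.val, fun _ => rfl, fun _ => rfl⟩
instance : Fintype (RawO G₁) :=
  Fintype.ofEquiv G₁ ⟨RawO.mk, RawO.val, fun _ => rfl, fun _ => rfl⟩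

instance : Enc (io G₀ G₁) (RawI G₀) where
  enc x := inE G₀ G₁ x.val
  inj := by
    rintro ⟨a⟩ ⟨b⟩ h
    simp only [inE] at h
    injection h with h
    injection h with h
    injection h with h
    rw [h]

instance : Enc (io G₀ G₁) (RawO G₁) where
  enc x := outE G₀ G₁ x.val
  inj := by
    rintro ⟨a⟩ ⟨b⟩ h
    simp only [outE] at h
    injection h with h
    injection h with h
    injection h with h
    rw [h]

theorem poly_toTM2 [Inhabited G₁] [Enc (io G₀ G₁) G₀] [Enc (io G₀ G₁) G₁] {F : List G₀ → List G₁}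
    (hF : Poly (io G₀ G₁) F) {α β : Type} (ea : α → List G₀) (eb : β → List G₁) (f : α → β)
    (h : ∀ a, F (ea a) = eb (f a)) : Nonempty (TM2ComputableInPolyTime ea eb f) := by
  apply toTM2 (F := F) ?_ ea eb f h
  have h1 : Poly (io G₀ G₁) (fun l : List (RawI G₀) => l.map RawI.val) :=
    Poly.map (g := fun p : List (RawI G₀) × RawI G₀ => p.2.val) Poly.id
      (Poly.comp₁ RawI.val Poly.snd)
  have h2 : Poly (io G₀ G₁) (fun l : List G₁ => l.map RawO.mk) :=
    Poly.map (g := fun p : List G₁ × G₁ => RawO.mk p.2) Poly.id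
      (Poly.comp₁ RawO.mk Poly.snd)
  have h3 := h2.comp (hF.comp h1)
  have e1 : ∀ l : List G₀, le (inE G₀ G₁) l = en (io G₀ G₁) (l.map RawI.mk) := by
    intro l
    induction l with
    | nil => rfl
    | cons a l ih => simp only [le, ih]; rfl
  have e2 : ∀ l : List G₁, le (outE G₀ G₁) l = en (io G₀ G₁) (l.map RawO.mk) := by
    intro l
    induction l with
    | nil => rfl
    | cons a l ih => simp only [le, ih]; rfl
  have h4 := PT.precode h3 (fun l : List G₀ => l.map RawI.mk) e1
  refine PT.recode h4 fun l => ?_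
  rw [e2]
  have : (l.map RawI.mk).map RawI.val = l := by simp [Function.comp_def]
  rw [this]

end raw

variable {E : Env} {γ α ι : Type} [Enc E γ] [Enc E α]

instance : Enc E Sym := finEnc E Sym

/-- Formula-valued functions computed in polynomial time. -/
def PF (E : Env) [Enc E γ] (G : γ → Fml Name) : Prop := Poly E (fun c => (G c).code)

theorem PF.const (F : Fml Name) : PF E (fun _ : γ => F) := Poly.const _

theorem PF.var {f : γ → Name} (hf : Poly E f) : PF E (fun c => .var (f c)) :=
  Poly.cons (Poly.const Sym.var) (Poly.map (g := fun p : γ × Bool => Sym.bit p.2) hf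
    (Poly.comp₁ Sym.bit Poly.snd))

theorem PF.neg {F : γ → Fml Name} (hF : PF E F) : PF E (fun c => .neg (F c)) :=
  Poly.cons (Poly.const Sym.neg) hF

theorem PF.and {F G : γ → Fml Name} (hF : PF E F) (hG : PF E G) :
    PF E (fun c => .and (F c) (G c)) :=
  Poly.cons (Poly.const Sym.and) (Poly.append hF hG)

theorem PF.or {F G : γ → Fml Name} (hF : PF E F) (hG : PF E G) :
    PF E (fun c => .or (F c) (G c)) :=
  Poly.cons (Poly.const Sym.or) (Poly.append hF hG)

theorem PF.fiff {F G : γ → Fml Name} (hF : PF E F) (hG : PF E G) :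
    PF E (fun c => fiff (F c) (G c)) :=
  PF.or (PF.and hF hG) (PF.and hF.neg hG.neg)

theorem PF.fxor {F G : γ → Fml Name} (hF : PF E F) (hG : PF E G) :
    PF E (fun c => fxor (F c) (G c)) :=
  PF.or (PF.and hF hG.neg) (PF.and hF.neg hG)

theorem PF.bigAndConst (z : Name) (l : List ι) {G : ι → γ → Fml Name} (h : ∀ k, PF E (G k)) :
    PF E (fun c => bigAnd z (l.map fun k => G k c)) := by
  induction l with
  | nil => exact PF.const _
  | cons k l ih => exact PF.and (h k) ih

theorem PF.bigOrConst (z : Name) (l : List ι) {G : ι → γ → Fml Name} (h : ∀ k, PF E (G k)) :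
    PF E (fun c => bigOr z (l.map fun k => G k c)) := by
  induction l with
  | nil => exact PF.const _
  | cons k l ih => exact PF.or (h k) ih

theorem code_bigAnd (z : Name) (l : List (Fml Name)) :
    (bigAnd z l).code = l.flatMap (fun f => Sym.and :: f.code) ++ (tt z).code := by
  induction l with
  | nil => rfl
  | cons f l ih =>
    simp only [bigAnd, List.foldr_cons, Fml.code, List.flatMap_cons] at ih ⊢
    rw [ih]
    simp

theorem PF.bigAndOver (z : Name) {f : γ → List α} {G : γ × α → Fml Name} (hf : Poly E f)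
    (hG : PF E G) : PF E (fun c => bigAnd z ((f c).map fun a => G (c, a))) := by
  have h : Poly E (fun c => (f c).flatMap (fun a => Sym.and :: (G (c, a)).code) ++
      (tt z).code) :=
    Poly.append (Poly.flatMap (g := fun p : γ × α => Sym.and :: (G p).code) hf
      (Poly.cons (Poly.const Sym.and) hG)) (Poly.const _)
  refine h.congr fun c => ?_
  rw [code_bigAnd, List.flatMap_map]

theorem PF.finCase [Fintype α] {F : γ × α → Fml Name} (h : ∀ x, PF E (fun c => F (c, x))) :
    PF E F := Poly.finCase h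

theorem PF.comp {β : Type} [Enc E β] {F : β → Fml Name} {f : γ → β} (hF : PF E F)
    (hf : Poly E f) : PF E (fun c => F (f c)) :=
  Poly.comp (g := fun b => (F b).code) hF hf

/-! ### Names -/

/-- Names from three numbers. -/
def nm (j t i : ℕ) : Name :=
  List.replicate j true ++ false :: (List.replicate t true ++ false :: List.replicate i true)

theorem rep_inj {a b : ℕ} {l l' : List Bool}
    (h : List.replicate a true ++ false :: l = List.replicate b true ++ false :: l') :
    a = b ∧ l = l' := by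
  induction a generalizing b with
  | zero =>
    cases b with
    | zero => simpa using h
    | succ b => simp [List.replicate_succ] at h
  | succ a ih =>
    cases b with
    | zero => simp [List.replicate_succ] at h
    | succ b =>
      simp only [List.replicate_succ, List.cons_append, List.cons.injEq, true_and] at h
      obtain ⟨h1, h2⟩ := ih h
      exact ⟨by rw [h1], h2⟩

theorem nm_inj {j t i j' t' i' : ℕ} (h : nm j t i = nm j' t' i') : j = j' ∧ t = t' ∧ i = i' := by
  obtain ⟨h1, h2⟩ := rep_inj h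
  obtain ⟨h3, h4⟩ := rep_inj h2
  refine ⟨h1, h3, ?_⟩
  have := congrArg List.length h4
  simpa using this

theorem poly_nm (j : ℕ) {t i : γ → ℕ} (ht : Poly E t) (hi : Poly E i) :
    Poly E (fun c => nm j (t c) (i c)) :=
  Poly.append (Poly.const _) (Poly.cons (Poly.const false) (Poly.append
    (Poly.replicate ht (Poly.const true)) (Poly.cons (Poly.const false)
      (Poly.replicate hi (Poly.const true)))))

section

variable {C K Sg : Type} [Fintype C] [DecidableEq C] [Fintype K] [DecidableEq K]
  [Fintype Sg] [DecidableEq Sg]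

/-- The names used in the tableau. -/
def NN (κ : Kd C K Sg) (t i : ℕ) : Name := nm (Fintype.equivFin (Kd C K Sg) κ) t i

theorem NN_inj {κ κ' : Kd C K Sg} {t t' i i' : ℕ} (h : NN κ t i = NN κ' t' i') :
    κ = κ' ∧ t = t' ∧ i = i' := by
  obtain ⟨h1, h2, h3⟩ := nm_inj h
  exact ⟨(Fintype.equivFin (Kd C K Sg)).injective (Fin.ext h1), h2, h3⟩

theorem exists_assignment (val : Kd C K Sg → ℕ → ℕ → Bool) :
    ∃ A : Name → Bool, ∀ κ t i, A (NN κ t i) = val κ t i := by
  classical
  refine ⟨fun y => if h : ∃ p : Kd C K Sg × ℕ × ℕ, y = NN p.1 p.2.1 p.2.2 then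
    val h.choose.1 h.choose.2.1 h.choose.2.2 else false, fun κ t i => ?_⟩
  have h : ∃ p : Kd C K Sg × ℕ × ℕ, NN κ t i = NN p.1 p.2.1 p.2.2 := ⟨(κ, t, i), rfl⟩
  simp only [dif_pos h]
  obtain ⟨h1, h2, h3⟩ := NN_inj h.choose_spec
  rw [← h1, ← h2, ← h3]

variable (M : UM C K Sg) {t i : γ → ℕ}

theorem pf_vc (c : C) (ht : Poly E t) : PF E (fun x => vc (Sg := Sg) (K := K) NN c (t x)) :=
  PF.var (poly_nm _ ht (Poly.const 0))

theorem pf_vs (k : K) (a : Option Sg) (ht : Poly E t) (hi : Poly E i) :
    PF E (fun x => vs (C := C) NN k a (t x) (i x)) :=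
  PF.var (poly_nm _ ht hi)

theorem pf_ctlF (c : C) (ht : Poly E t) : PF E (fun x => ctlF M NN (t x) c) :=
  PF.fiff (pf_vc c ht.succ) (PF.bigOrConst _ _ fun p => PF.and (PF.const _)
    (PF.and (pf_vc _ ht) (pf_vs _ _ ht (Poly.const 0))))

theorem pf_g0 (k : K) (a : Option Sg) (c : C) (ht : Poly E t) :
    PF E (fun x => g0 M NN (t x) k a c) := by
  unfold g0
  by_cases h : M.kk c = k
  · simp only [if_pos h]
    cases M.ac c with
    | keep => exact pf_vs _ _ ht (Poly.const 0)
    | push b => exact PF.const _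
    | pop => exact pf_vs _ _ ht (Poly.const 1)
  · simp only [if_neg h]
    exact pf_vs _ _ ht (Poly.const 0)

theorem pf_g1 (k : K) (a : Option Sg) (c : C) (ht : Poly E t) (hi : Poly E i) :
    PF E (fun x => g1 M NN (t x) (i x) k a c) := by
  unfold g1
  by_cases h : M.kk c = k
  · simp only [if_pos h]
    cases M.ac c with
    | keep => exact pf_vs _ _ ht hi.succ
    | push b => exact pf_vs _ _ ht hi
    | pop => exact pf_vs _ _ ht hi.succ.succ
  · simp only [if_neg h]
    exact pf_vs _ _ ht hi.succ

theorem pf_stepT (ht : Poly E t) : PF E (fun x => stepT M NN (t x)) :=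
  PF.and (PF.bigAndConst _ _ fun c => pf_ctlF M c ht)
    (PF.bigAndConst _ _ fun p => PF.fiff (pf_vs _ _ ht.succ (Poly.const 0))
      (PF.bigOrConst _ _ fun c => PF.and (pf_vc _ ht) (pf_g0 M _ _ _ ht)))

theorem pf_stepTI (ht : Poly E t) (hi : Poly E i) : PF E (fun x => stepTI M NN (t x) (i x)) :=
  PF.bigAndConst _ _ fun p => PF.fiff (pf_vs _ _ ht.succ hi.succ)
    (PF.bigOrConst _ _ fun c => PF.and (pf_vc _ ht) (pf_g1 M _ _ _ ht hi))

theorem pf_stepsF {T W : γ → ℕ} (hT : Poly E T) (hW : Poly E W) :
    PF E (fun x => stepsF M NN (T x) (W x)) := by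
  refine PF.bigAndOver (G := fun p : γ × ℕ => Fml.and (stepT M NN p.2)
    (bigAnd (nz NN) ((List.range (W p.1)).map fun i => stepTI M NN p.2 i))) _ hT.range ?_
  refine PF.and (pf_stepT M Poly.snd) ?_
  exact PF.bigAndOver (G := fun p : (γ × ℕ) × ℕ => stepTI M NN p.1.2 p.2) _
    (hW.comp Poly.fst).range (pf_stepTI M (Poly.snd.comp Poly.fst) Poly.snd)

theorem pf_posF (k : K) (o : Option Sg) (hi : Poly E i) :
    PF E (fun x => posF (C := C) NN k (i x) o) :=
  PF.bigAndConst _ _ fun a => PF.fiff (pf_vs _ _ (Poly.const 0) hi) (PF.const _)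

theorem pf_posB (k : K) {w : γ → Name} (f : Bool → Sg) (hi : Poly E i) (hw : Poly E w) :
    PF E (fun x => posB (C := C) NN k (i x) (w x) f) :=
  PF.bigAndConst _ _ fun a => PF.fiff (pf_vs _ _ (Poly.const 0) hi)
    (PF.or (PF.and (PF.var hw) (PF.const _)) (PF.and (PF.neg (PF.var hw)) (PF.const _)))

theorem Poly.getElem? {f : γ → List α} (hf : Poly E f) (hi : Poly E i) :
    Poly E (fun c => (f c)[i c]?) := by
  obtain ⟨pf, hpf⟩ := hf.bound
  have h := Poly.natIter (f := i) (b := f) (g := fun p : γ × List α => p.2.tail) hi hf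
    (Poly.tail Poly.snd) pf (by
      intro c k hk
      have : (fun b : List α => b.tail)^[k] (f c) = (f c).drop k := by
        clear hk
        induction k with
        | zero => rfl
        | succ k ih => rw [Function.iterate_succ_apply', ih]; simp
      simp only
      rw [this]
      exact (esz_drop_le _ _).trans (hpf c))
  refine (Poly.head? h).congr fun c => ?_
  have : ∀ k, (fun b : List α => b.tail)^[k] (f c) = (f c).drop k := by
    intro k
    induction k with
    | zero => rfl
    | succ k ih => rw [Function.iterate_succ_apply', ih]; simp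
  simp only
  rw [this, List.head?_drop]

variable {Γ : Type} [Fintype Γ] [Enc E Γ] (k₀ : K) (inX : Γ → Sg) (inU inV : Bool → Sg) (c0 : C)

theorem pf_initF {x : γ → List Γ} {m W : γ → ℕ} (hx : Poly E x) (hm : Poly E m)
    (hW : Poly E W) : PF E (fun c => initF NN k₀ inX inU inV c0 (x c) (m c) (W c)) := by
  unfold initF
  have hl := hx.length
  refine PF.and ?_ (PF.and ?_ (PF.and ?_ (PF.and ?_ (PF.and ?_ ?_))))
  · exact PF.bigAndConst _ _ fun c => PF.fiff (pf_vc c (Poly.const 0)) (PF.const _)
  · refine PF.bigAndConst _ _ fun k => ?_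
    by_cases h : k = k₀
    · simp only [if_pos h]; exact PF.const _
    · simp only [if_neg h]
      exact PF.bigAndOver (G := fun p : γ × ℕ => posF NN k p.2 none) _
        (Poly.add (Poly.add (Poly.add hl hm) hm) hW).range (pf_posF k none Poly.snd)
  · refine PF.bigAndOver (G := fun p : γ × ℕ => posF NN k₀ p.2 ((x p.1)[p.2]?.map inX)) _
      hl.range ?_
    have h1 : Poly E (fun p : γ × ℕ => (x p.1)[p.2]?) :=
      Poly.getElem? (hx.comp Poly.fst) Poly.snd
    have h2 : PF E (fun p : γ × ℕ => posF (C := C) (Sg := Sg) NN k₀ p.2 none) :=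
      pf_posF k₀ none Poly.snd
    have h3 : PF E (fun p : (γ × ℕ) × Γ => posF (C := C) NN k₀ p.1.2 (some (inX p.2))) :=
      PF.finCase (α := Γ) (F := fun p : (γ × ℕ) × Γ => posF (C := C) NN k₀ p.1.2 (some (inX p.2)))
        fun g => pf_posF k₀ (some (inX g)) Poly.snd
    refine (Poly.optCases h1 h2 h3).congr fun p => ?_
    beta_reduce
    cases (x p.1)[p.2]? <;> rfl
  · exact PF.bigAndOver (G := fun p : γ × ℕ => posB NN k₀ ((x p.1).length + p.2) (nU NN p.2) inU) _
      hm.range (pf_posB k₀ inU (Poly.add (hl.comp Poly.fst) Poly.snd)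
        (poly_nm _ (Poly.const 0) Poly.snd))
  · exact PF.bigAndOver (G := fun p : γ × ℕ => posB NN k₀ ((x p.1).length + m p.1 + p.2)
      (nV NN p.2) inV) _
      hm.range (pf_posB k₀ inV (Poly.add (Poly.add (hl.comp Poly.fst) (hm.comp Poly.fst)) Poly.snd)
        (poly_nm _ (Poly.const 0) Poly.snd))
  · exact PF.bigAndOver (G := fun p : γ × ℕ => posF NN k₀ ((x p.1).length + m p.1 + m p.1 + p.2)
      none) _ hW.range (pf_posF k₀ none (Poly.add (Poly.add (Poly.add (hl.comp Poly.fst)
        (hm.comp Poly.fst)) (hm.comp Poly.fst)) Poly.snd))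

theorem pf_validF {x : γ → List Γ} {m T : γ → ℕ} (hx : Poly E x) (hm : Poly E m)
    (hT : Poly E T) : PF E (fun c => validF M NN k₀ inX inU inV c0 (x c) (m c) (T c)) :=
  PF.and (pf_initF k₀ inX inU inV c0 hx hm hT.succ)
    (pf_stepsF M hT (Poly.add (Poly.add (Poly.add hx.length hm) hm) hT))

end

end

end Pool.Agent.IsoImp
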