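import Mathlib.Computability.TuringMachine.Computable
import Mathlib.Data.Fintype.Option
import Mathlib.Data.Fintype.Sum

/-!
# A small structured language on stacks and its compilation to Mathlib's TM2 machines
-/

namespace Pool.Agent.PT81

open Turing

/-- Structured commands over a family of stacks `Γ` with local variable type `σ`. -/
inductive Cmd {K : Type} (Γ : K → Type) (σ : Type) : Type
  | push (k : K) (f : σ → Γ k) : Cmd Γ σ
  | pop (k : K) (f : σ → Option (Γ k) → σ) : Cmd Γ σ
  | peek (k : K) (f : σ → Option (Γ k) → σ) : Cmd Γ σ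
  | load (f : σ → σ) : Cmd Γ σ
  | seq (c₁ c₂ : Cmd Γ σ) : Cmd Γ σ
  | ite (p : σ → Bool) (c₁ c₂ : Cmd Γ σ) : Cmd Γ σ
  | loop (p : σ → Bool) (c : Cmd Γ σ) : Cmd Γ σ

section

variable {K : Type} [DecidableEq K] {Γ : K → Type} {σ : Type}

open Function (update)

/-- Big-step semantics with exact time (number of TM2 steps of the compiled code). -/
inductive Exec : Cmd Γ σ → σ → (∀ k, List (Γ k)) → σ → (∀ k, List (Γ k)) → ℕ → Prop
  | push (k : K) (f : σ → Γ k) (v : σ) (S : ∀ k, List (Γ k)) :
      Exec (.push k f) v S v (update S k (f v :: S k)) 1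
  | pop (k : K) (f : σ → Option (Γ k) → σ) (v : σ) (S : ∀ k, List (Γ k)) :
      Exec (.pop k f) v S (f v (S k).head?) (update S k (S k).tail) 1
  | peek (k : K) (f : σ → Option (Γ k) → σ) (v : σ) (S : ∀ k, List (Γ k)) :
      Exec (.peek k f) v S (f v (S k).head?) S 1
  | load (f : σ → σ) (v : σ) (S : ∀ k, List (Γ k)) :
      Exec (.load f) v S (f v) S 1
  | seq {c₁ c₂ : Cmd Γ σ} {v₀ v₁ v₂ : σ} {S₀ S₁ S₂ : ∀ k, List (Γ k)} {t₁ t₂ : ℕ} :
      Exec c₁ v₀ S₀ v₁ S₁ t₁ → Exec c₂ v₁ S₁ v₂ S₂ t₂ → Exec (.seq c₁ c₂) v₀ S₀ v₂ S₂ (t₁ + t₂)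
  | iteT {p : σ → Bool} {c₁ c₂ : Cmd Γ σ} {v v' : σ} {S S' : ∀ k, List (Γ k)} {t : ℕ} :
      p v = true → Exec c₁ v S v' S' t → Exec (.ite p c₁ c₂) v S v' S' (1 + t)
  | iteF {p : σ → Bool} {c₁ c₂ : Cmd Γ σ} {v v' : σ} {S S' : ∀ k, List (Γ k)} {t : ℕ} :
      p v = false → Exec c₂ v S v' S' t → Exec (.ite p c₁ c₂) v S v' S' (1 + t)
  | loopDone {p : σ → Bool} {c : Cmd Γ σ} {v : σ} {S : ∀ k, List (Γ k)} :
      p v = false → Exec (.loop p c) v S v S 1
  | loopStep {p : σ → Bool} {c : Cmd Γ σ} {v v' v'' : σ} {S S' S'' : ∀ k, List (Γ k)}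
      {t t' : ℕ} :
      p v = true → Exec c v S v' S' t → Exec (.loop p c) v' S' v'' S'' t' →
        Exec (.loop p c) v S v'' S'' (1 + t + t')

/-- Labels of the compiled code of a command. -/
def Lab : Cmd Γ σ → Type
  | .push _ _ => Unit
  | .pop _ _ => Unit
  | .peek _ _ => Unit
  | .load _ => Unit
  | .seq a b => Lab a ⊕ Lab b
  | .ite _ a b => Option (Lab a ⊕ Lab b)
  | .loop _ a => Option (Lab a)

/-- Labels are finite. -/
@[instance_reducible]
def labFintype : ∀ c : Cmd Γ σ, Fintype (Lab c)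
  | .push _ _ => inferInstanceAs (Fintype Unit)
  | .pop _ _ => inferInstanceAs (Fintype Unit)
  | .peek _ _ => inferInstanceAs (Fintype Unit)
  | .load _ => inferInstanceAs (Fintype Unit)
  | .seq a b =>
    let _ := labFintype a
    let _ := labFintype b
    inferInstanceAs (Fintype (Lab a ⊕ Lab b))
  | .ite _ a b =>
    let _ := labFintype a
    let _ := labFintype b
    inferInstanceAs (Fintype (Option (Lab a ⊕ Lab b)))
  | .loop _ a =>
    let _ := labFintype a
    inferInstanceAs (Fintype (Option (Lab a)))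

/-- Entry label. -/
def entry : ∀ c : Cmd Γ σ, Lab c
  | .push _ _ => ()
  | .pop _ _ => ()
  | .peek _ _ => ()
  | .load _ => ()
  | .seq a _ => Sum.inl (entry a)
  | .ite _ _ _ => none
  | .loop _ _ => none

/-- Compiled code, with `emb` placing the labels in the global label type and `exit` the
label to go to at the end. -/
def code {Λ : Type} : ∀ (c : Cmd Γ σ) (_ : Lab c → Λ) (_ : Λ), Lab c → TM2.Stmt Γ Λ σ
  | .push k f, _, exit, _ => .push k f (.goto fun _ => exit)
  | .pop k f, _, exit, _ => .pop k f (.goto fun _ => exit)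
  | .peek k f, _, exit, _ => .peek k f (.goto fun _ => exit)
  | .load f, _, exit, _ => .load f (.goto fun _ => exit)
  | .seq a b, emb, exit, l =>
    match l with
    | Sum.inl l => code a (fun l => emb (Sum.inl l)) (emb (Sum.inr (entry b))) l
    | Sum.inr l => code b (fun l => emb (Sum.inr l)) exit l
  | .ite p a b, emb, exit, l =>
    match l with
    | none => .branch p (.goto fun _ => emb (some (Sum.inl (entry a))))
        (.goto fun _ => emb (some (Sum.inr (entry b))))
    | some (Sum.inl l) => code a (fun l => emb (some (Sum.inl l))) exit l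
    | some (Sum.inr l) => code b (fun l => emb (some (Sum.inr l))) exit l
  | .loop p a, emb, exit, l =>
    match l with
    | none => .branch p (.goto fun _ => emb (some (entry a))) (.goto fun _ => exit)
    | some l => code a (fun l => emb (some l)) (emb none) l

/-- Exactly `t` steps of the machine `M`. -/
def Steps {Λ : Type} (M : Λ → TM2.Stmt Γ Λ σ) (t : ℕ) (a b : TM2.Cfg Γ Λ σ) : Prop :=
  (flip bind (TM2.step M))^[t] (some a) = some b

theorem Steps.trans {Λ : Type} {M : Λ → TM2.Stmt Γ Λ σ} {t₁ t₂ : ℕ} {a b c : TM2.Cfg Γ Λ σ}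
    (h₁ : Steps M t₁ a b) (h₂ : Steps M t₂ b c) : Steps M (t₁ + t₂) a c := by
  unfold Steps at *
  rw [Nat.add_comm, Function.iterate_add_apply, h₁, h₂]

theorem Steps.one {Λ : Type} {M : Λ → TM2.Stmt Γ Λ σ} {a b : TM2.Cfg Γ Λ σ}
    (h : TM2.step M a = some b) : Steps M 1 a b := by
  unfold Steps
  simpa [flip] using h

/-- Correctness of the compilation. -/
theorem code_correct {Λ : Type} (M : Λ → TM2.Stmt Γ Λ σ) {c : Cmd Γ σ} {v v' : σ}
    {S S' : ∀ k, List (Γ k)} {t : ℕ} (h : Exec c v S v' S' t) :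
    ∀ (emb : Lab c → Λ) (exit : Λ), (∀ l, M (emb l) = code c emb exit l) →
      Steps M t ⟨some (emb (entry c)), v, S⟩ ⟨some exit, v', S'⟩ := by
  induction h with
  | push k f v S =>
    intro emb exit hM
    apply Steps.one
    simp only [TM2.step]
    rw [hM]
    rfl
  | pop k f v S =>
    intro emb exit hM
    apply Steps.one
    simp only [TM2.step]
    rw [hM]
    rfl
  | peek k f v S =>
    intro emb exit hM
    apply Steps.one
    simp only [TM2.step]
    rw [hM]
    rfl
  | load f v S =>
    intro emb exit hM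
    apply Steps.one
    simp only [TM2.step]
    rw [hM]
    rfl
  | seq h₁ h₂ ih₁ ih₂ =>
    intro emb exit hM
    exact Steps.trans
      (ih₁ (fun l => emb (Sum.inl l)) (emb (Sum.inr (entry _))) (fun l => hM (Sum.inl l)))
      (ih₂ (fun l => emb (Sum.inr l)) exit (fun l => hM (Sum.inr l)))
  | iteT hp h ih =>
    intro emb exit hM
    refine Steps.trans (Steps.one ?_) (ih (fun l => emb (some (Sum.inl l))) exit
      (fun l => hM (some (Sum.inl l))))
    simp only [TM2.step]
    rw [hM]
    show some (cond _ _ _) = _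
    rw [hp]
    rfl
  | iteF hp h ih =>
    intro emb exit hM
    refine Steps.trans (Steps.one ?_) (ih (fun l => emb (some (Sum.inr l))) exit
      (fun l => hM (some (Sum.inr l))))
    simp only [TM2.step]
    rw [hM]
    show some (cond _ _ _) = _
    rw [hp]
    rfl
  | loopDone hp =>
    intro emb exit hM
    apply Steps.one
    simp only [TM2.step]
    rw [hM]
    show some (cond _ _ _) = _
    rw [hp]
    rfl
  | loopStep hp h₁ h₂ ih₁ ih₂ =>
    intro emb exit hM
    refine Steps.trans (Steps.trans (Steps.one ?_) (ih₁ (fun l => emb (some l)) (emb none)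
      (fun l => hM (some l)))) (ih₂ emb exit hM)
    simp only [TM2.step]
    rw [hM]
    show some (cond _ _ _) = _
    rw [hp]
    rfl

/-- The global machine of a command: labels are those of the command plus a halting label. -/
def prog (c : Cmd Γ σ) : Option (Lab c) → TM2.Stmt Γ (Option (Lab c)) σ
  | none => .halt
  | some l => code c some none l

theorem prog_correct {c : Cmd Γ σ} {v v' : σ} {S S' : ∀ k, List (Γ k)} {t : ℕ}
    (h : Exec c v S v' S' t) :
    Steps (prog c) (t + 1) ⟨some (some (entry c)), v, S⟩ ⟨none, v', S'⟩ := by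
  refine Steps.trans (code_correct (prog c) h some none (fun l => rfl)) (Steps.one ?_)
  simp [TM2.step, prog]

end

end Pool.Agent.PT81
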