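import Pool.Agent.Lib_MP_a1eae6_lc.PT

/-!
# Typed library of polynomial-time functions
-/

set_option linter.unusedSectionVars false

namespace Pool.Agent.PT81

open Polynomial

/-! ### Encodings -/

/-- Types with an injective encoding by trees. -/
class Enc (E : Env) (α : Type) where
  enc : α → Tr E.A
  inj : Function.Injective enc

variable {E : Env} {α β γ δ ε : Type}

/-- The encoding. -/
def en (E : Env) [Enc E α] (a : α) : Tr E.A := Enc.enc a

theorem en_inj [Enc E α] : Function.Injective (en E : α → Tr E.A) := Enc.inj

/-- The size of the encoding. -/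
def esz (E : Env) [Enc E α] (a : α) : ℕ := (en E a).sz

instance : Enc E Bool where
  enc := be E
  inj := by
    intro a b h
    cases a <;> cases b <;> simp_all [be, bstr]

instance : Enc E Unit where
  enc _ := .leaf E.nil
  inj := fun _ _ _ => rfl

instance [Enc E α] [Enc E β] : Enc E (α × β) where
  enc := pe (en E) (en E)
  inj := by
    rintro ⟨a, b⟩ ⟨c, d⟩ h
    simp only [pe, Tr.node.injEq] at h
    exact Prod.ext (en_inj h.1) (en_inj h.2)

/-- List encoding. -/
def le (e : α → Tr E.A) : List α → Tr E.A
  | [] => .leaf E.nil
  | a :: l => .node (e a) (le e l)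

instance [Enc E α] : Enc E (List α) where
  enc := le (en E)
  inj := by
    intro a
    induction a with
    | nil => intro b h; cases b with
      | nil => rfl
      | cons x b => simp [le] at h
    | cons x a ih => intro b h; cases b with
      | nil => simp [le] at h
      | cons y b =>
        simp only [le, Tr.node.injEq] at h
        rw [en_inj h.1, ih h.2]

/-- Encoding of natural numbers (unary). -/
def nen (E : Env) : ℕ → Tr E.A
  | 0 => .leaf E.nil
  | n + 1 => .node (.leaf E.nil) (nen E n)

instance : Enc E ℕ where
  enc := nen E
  inj := by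
    intro a
    induction a with
    | zero => intro b h; cases b with
      | zero => rfl
      | succ b => simp [nen] at h
    | succ a ih => intro b h; cases b with
      | zero => simp [nen] at h
      | succ b =>
        simp only [nen, Tr.node.injEq, true_and] at h
        rw [ih h]

/-- Encoding of options. -/
def oe (e : α → Tr E.A) : Option α → Tr E.A
  | none => .leaf E.nil
  | some a => .node (.leaf E.nil) (e a)

instance [Enc E α] : Enc E (Option α) where
  enc := oe (en E)
  inj := by
    intro a b h
    cases a <;> cases b <;> simp_all [oe]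
    exact en_inj h

@[simp] theorem en_prod [Enc E α] [Enc E β] (a : α) (b : β) :
    en E (a, b) = .node (en E a) (en E b) := rfl
@[simp] theorem en_nil [Enc E α] : en E ([] : List α) = .leaf E.nil := rfl
@[simp] theorem en_cons [Enc E α] (a : α) (l : List α) :
    en E (a :: l) = .node (en E a) (en E l) := rfl
@[simp] theorem en_zero : en E (0 : ℕ) = .leaf E.nil := rfl
@[simp] theorem en_succ (n : ℕ) : en E (n + 1) = .node (.leaf E.nil) (en E n) := rfl
@[simp] theorem en_unit (u : Unit) : en E u = .leaf E.nil := rfl
@[simp] theorem en_none [Enc E α] : en E (none : Option α) = .leaf E.nil := rfl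
@[simp] theorem en_some [Enc E α] (a : α) : en E (some a) = .node (.leaf E.nil) (en E a) := rfl

@[simp] theorem esz_prod [Enc E α] [Enc E β] (a : α) (b : β) :
    esz E (a, b) = 1 + esz E a + esz E b := by simp [esz]
@[simp] theorem esz_nil [Enc E α] : esz E ([] : List α) = 1 := rfl
@[simp] theorem esz_cons [Enc E α] (a : α) (l : List α) :
    esz E (a :: l) = 1 + esz E a + esz E l := by simp [esz]
@[simp] theorem esz_nat (n : ℕ) : esz E n = 2 * n + 1 := by
  induction n with
  | zero => rfl
  | succ n ih =>
    have : esz E (n + 1) = 1 + 1 + esz E n := by simp [esz]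
    rw [this, ih]; ring
@[simp] theorem esz_unit (u : Unit) : esz E u = 1 := rfl
@[simp] theorem esz_none [Enc E α] : esz E (none : Option α) = 1 := rfl
@[simp] theorem esz_some [Enc E α] (a : α) : esz E (some a) = 2 + esz E a := by
  simp [esz]
theorem esz_bool (b : Bool) : esz E b ≤ 3 := by
  cases b <;> simp [esz, en, Enc.enc, be, bstr]

theorem esz_pos [Enc E α] (a : α) : 0 < esz E a := Tr.sz_pos _

theorem length_le_esz [Enc E α] (l : List α) : l.length < esz E l := by
  induction l with
  | nil => simp
  | cons a l ih => simp; omega

theorem mem_esz_le [Enc E α] (l : List α) (a : α) (h : a ∈ l) : esz E a ≤ esz E l := by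
  induction l with
  | nil => simp at h
  | cons b l ih =>
    rcases List.mem_cons.1 h with h | h
    · subst h; simp; omega
    · have := ih h; simp; omega

theorem esz_append [Enc E α] (l m : List α) : esz E (l ++ m) + 1 = esz E l + esz E m := by
  induction l with
  | nil => simp; ring
  | cons a l ih => simp; omega

theorem esz_reverse [Enc E α] (l : List α) : esz E l.reverse = esz E l := by
  induction l with
  | nil => rfl
  | cons a l ih =>
    have := esz_append (E := E) l.reverse [a]
    simp at this ⊢
    omega

theorem esz_drop_le [Enc E α] (l : List α) (k : ℕ) : esz E (l.drop k) ≤ esz E l := by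
  induction l generalizing k with
  | nil => simp
  | cons a l ih =>
    cases k with
    | zero => simp
    | succ k => have := ih k; simp; omega

/-! ### Basic functions -/

/-- Polynomial-time computable function between encoded types. -/
def Poly (E : Env) [Enc E α] [Enc E β] (f : α → β) : Prop := PT E (en E) (en E) f

theorem PT.recode {α β β' : Type} {e₁ : α → Tr E.A} {e₂ : β → Tr E.A} {e₂' : β' → Tr E.A}
    {f : α → β} {f' : α → β'} (hf : PT E e₁ e₂ f) (h : ∀ a, e₂' (f' a) = e₂ (f a)) :
    PT E e₁ e₂' f' := by
  obtain ⟨c, p, hf⟩ := hf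
  refine ⟨c, p, fun a => ?_⟩
  rw [h]
  exact hf a

theorem PT.precode {α α' β : Type} {e₁ : α → Tr E.A} {e₂ : β → Tr E.A} {f : α → β}
    (hf : PT E e₁ e₂ f) (i : α' → α) {e₁' : α' → Tr E.A} (h : ∀ a, e₁' a = e₁ (i a)) :
    PT E e₁' e₂ (fun a => f (i a)) := by
  obtain ⟨c, p, hf⟩ := hf
  refine ⟨c, p, fun a => ?_⟩
  rw [h]
  exact hf (i a)

section basic

variable [Enc E α] [Enc E β] [Enc E γ] [Enc E δ] [Enc E ε]

/-- A polynomial bound on the output size. -/
theorem Poly.bound {f : α → β} (hf : Poly E f) : ∃ p : ℕ[X], ∀ a, esz E (f a) ≤ p.eval (esz E a) := by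
  obtain ⟨c, p, h⟩ := hf
  exact ⟨p, fun a => (h a).1⟩

theorem Poly.congr {f g : α → β} (hf : Poly E f) (h : ∀ a, f a = g a) : Poly E g :=
  PT.congr hf h

theorem Poly.id : Poly E (fun a : α => a) := PT.id _

theorem Poly.const (b : β) : Poly E (fun _ : α => b) := PT.const _ _ b

theorem Poly.comp {g : β → γ} {f : α → β} (hg : Poly E g) (hf : Poly E f) :
    Poly E (fun a => g (f a)) := PT.comp hg hf

theorem Poly.pair {f : α → β} {g : α → γ} (hf : Poly E f) (hg : Poly E g) :
    Poly E (fun a => (f a, g a)) := PT.pair hf hg

theorem Poly.fst : Poly E (fun x : α × β => x.1) := PT.fst _ _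
theorem Poly.snd : Poly E (fun x : α × β => x.2) := PT.snd _ _

theorem Poly.comp2 {g : β × γ → δ} {f₁ : α → β} {f₂ : α → γ} (hg : Poly E g)
    (h₁ : Poly E f₁) (h₂ : Poly E f₂) : Poly E (fun a => g (f₁ a, f₂ a)) := hg.comp (h₁.pair h₂)

theorem Poly.ite {k : α → Bool} {f g : α → β} (hk : Poly E k) (hf : Poly E f) (hg : Poly E g) :
    Poly E (fun a => if k a then f a else g a) := PT.ite hk hf hg

theorem Poly.cond {k : α → Bool} {f g : α → β} (hk : Poly E k) (hf : Poly E f) (hg : Poly E g) :
    Poly E (fun a => bif k a then f a else g a) :=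
  (PT.ite hk hf hg).congr fun a => by cases k a <;> rfl

theorem Poly.eq [DecidableEq β] {f g : α → β} (hf : Poly E f) (hg : Poly E g) :
    Poly E (fun a => decide (f a = g a)) :=
  PT.comp (PT.eqTest (e := (en E : β → Tr E.A)) en_inj) (hf.pair hg)

theorem Poly.not {k : α → Bool} (hk : Poly E k) : Poly E (fun a => !(k a)) :=
  (Poly.ite hk (Poly.const false) (Poly.const true)).congr fun a => by cases k a <;> rfl

theorem Poly.and {k l : α → Bool} (hk : Poly E k) (hl : Poly E l) :
    Poly E (fun a => k a && l a) :=
  (Poly.ite hk hl (Poly.const false)).congr fun a => by cases k a <;> rfl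

theorem Poly.or {k l : α → Bool} (hk : Poly E k) (hl : Poly E l) :
    Poly E (fun a => k a || l a) :=
  (Poly.ite hk (Poly.const true) hl).congr fun a => by cases k a <;> rfl

theorem Poly.cons {f : α → β} {g : α → List β} (hf : Poly E f) (hg : Poly E g) :
    Poly E (fun a => f a :: g a) :=
  PT.recode (hf.pair hg) fun _ => rfl

theorem Poly.osome {f : α → β} (hf : Poly E f) : Poly E (fun a => some (f a)) :=
  PT.recode ((Poly.const ()).pair hf) fun _ => rfl

theorem Poly.succ {f : α → ℕ} (hf : Poly E f) : Poly E (fun a => f a + 1) :=
  PT.recode ((Poly.const ()).pair hf) fun _ => rfl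

/-- Case analysis on a list. -/
theorem Poly.listCases {f : γ → List α} {g : γ → β} {h : γ × (α × List α) → β}
    (hf : Poly E f) (hg : Poly E g) (hh : Poly E h) :
    Poly E (fun c => match f c with
      | [] => g c
      | a :: l => h (c, (a, l))) := by
  classical
  have hk : PT E (en E) (fun t => t) (fun c => en E (f c)) :=
    PT.recode hf (e₂' := fun t => t) (f' := fun c => en E (f c)) fun _ => rfl
  have hne : ∀ c : {c // (en E (f c)).isNode = true}, f c ≠ [] := by
    intro c hc
    have := c.2
    rw [hc] at this
    simp [Tr.isNode] at this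
  have h1 : PT E (fun c : {c // (en E (f c)).isNode = true} => en E c.1) (en E)
      (fun c => (c.1, ((f c).head (hne c), (f c).tail))) := by
    refine PT.recode ((Poly.pair Poly.id hf).sub _) fun c => ?_
    have : (f c).head (hne c) :: (f c).tail = f c := List.cons_head_tail _
    conv_rhs => rw [← this]
    rfl
  have h2 := PT.comp hh h1
  set F : γ → β := fun c => match f c with
      | [] => g c
      | a :: l => h (c, (a, l)) with hF
  have h3 : PT E (fun c : {c // (en E (f c)).isNode = true} => en E c.1) (en E)
      (fun c => F c.1) := by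
    refine h2.congr fun c => ?_
    rw [hF]
    have : (f c).head (hne c) :: (f c).tail = f c := List.cons_head_tail _
    simp only
    generalize hx : (f c).head (hne c) = x at this
    generalize hy : (f c).tail = y at this
    rw [← this]
  refine (PT.iteNode (f := F) hk h3 (hg.sub _)).congr fun c => ?_
  rw [hF]
  cases hfc : f c with
  | nil => simp [Tr.isNode, hfc]
  | cons a l => simp [Tr.isNode, hfc]

/-- Case analysis on a natural number. -/
theorem Poly.natCases {f : γ → ℕ} {g : γ → β} {h : γ × ℕ → β}
    (hf : Poly E f) (hg : Poly E g) (hh : Poly E h) :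
    Poly E (fun c => match f c with
      | 0 => g c
      | n + 1 => h (c, n)) := by
  have hf' : Poly E (fun c => List.replicate (f c) ()) := by
    refine PT.recode hf fun c => ?_
    induction f c with
    | zero => rfl
    | succ n ih => rw [List.replicate_succ, en_cons, ih]; rfl
  have hh' : Poly E (fun c : γ × (Unit × List Unit) => h (c.1, c.2.2.length)) := by
    have : Poly E (fun l : List Unit => l.length) := by
      refine PT.of_eq fun l => ?_
      induction l with
      | nil => rfl
      | cons a l ih => rw [List.length_cons, en_succ, ih]; rfl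
    exact hh.comp (Poly.fst.pair (this.comp (Poly.snd.comp Poly.snd)))
  refine (Poly.listCases hf' hg hh').congr fun c => ?_
  cases f c with
  | zero => rfl
  | succ n => simp [List.replicate_succ]

/-- Case analysis on an option. -/
theorem Poly.optCases {f : γ → Option α} {g : γ → β} {h : γ × α → β}
    (hf : Poly E f) (hg : Poly E g) (hh : Poly E h) :
    Poly E (fun c => match f c with
      | none => g c
      | Option.some a => h (c, a)) := by
  classical
  have hk : PT E (en E) (fun t => t) (fun c => en E (f c)) :=
    PT.recode hf (e₂' := fun t => t) (f' := fun c => en E (f c)) fun _ => rfl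
  have hne : ∀ c : {c // (en E (f c)).isNode = true}, (f c).isSome := by
    intro c
    have := c.2
    cases hc : f c.1 with
    | none => rw [hc] at this; simp [Tr.isNode] at this
    | some x => rfl
  have h1 : PT E (fun c : {c // (en E (f c)).isNode = true} => en E c.1) (en E)
      (fun c => (c.1, ((), (f c).get (hne c)))) := by
    refine PT.recode ((Poly.pair Poly.id hf).sub _) fun c => ?_
    have : Option.some ((f c).get (hne c)) = f c := Option.some_get _
    conv_rhs => rw [← this]
    rfl
  have hh' : Poly E (fun c : γ × (Unit × α) => h (c.1, c.2.2)) :=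
    hh.comp (Poly.fst.pair (Poly.snd.comp Poly.snd))
  have h2 := PT.comp hh' h1
  set F : γ → β := fun c => match f c with
      | none => g c
      | Option.some a => h (c, a) with hF
  have h3 : PT E (fun c : {c // (en E (f c)).isNode = true} => en E c.1) (en E)
      (fun c => F c.1) := by
    refine h2.congr fun c => ?_
    rw [hF]
    have : Option.some ((f c).get (hne c)) = f c := Option.some_get _
    simp only
    generalize hx : (f c).get (hne c) = x at this
    rw [← this]
  refine (PT.iteNode (f := F) hk h3 (hg.sub _)).congr fun c => ?_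
  rw [hF]
  cases hfc : f c with
  | none => simp [Tr.isNode, hfc]
  | some a => simp [Tr.isNode, hfc]

end basic

end Pool.Agent.PT81
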