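import Pool.Agent.Lib_MP_a1eae6_lc.Defs
import Mathlib.Tactic
import Mathlib.Data.Finset.Card
import Mathlib.Logic.Equiv.Fintype

/-!
# The logical core of the reduction
-/

namespace Pool.Agent.IsoImp

open Fml

section basic

variable {ν μ : Type}

theorem Fml.eval_rename (π : ν → μ) (a : μ → Bool) (f : Fml ν) :
    (f.rename π).eval a = f.eval (fun x => a (π x)) := by
  induction f with
  | var x => rfl
  | neg f ih => simp [rename, eval, ih]
  | and f g ihf ihg => simp [rename, eval, ihf, ihg]
  | or f g ihf ihg => simp [rename, eval, ihf, ihg]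

theorem Fml.eval_congr {a b : ν → Bool} (f : Fml ν) (h : ∀ x ∈ f.vars, a x = b x) :
    f.eval a = f.eval b := by
  induction f with
  | var x => exact h x rfl
  | neg f ih => simp [eval, ih h]
  | and f g ihf ihg =>
    simp [eval, ihf fun x hx => h x (Or.inl hx), ihg fun x hx => h x (Or.inr hx)]
  | or f g ihf ihg =>
    simp [eval, ihf fun x hx => h x (Or.inl hx), ihg fun x hx => h x (Or.inr hx)]

/-- A tautology. -/
def tt (z : ν) : Fml ν := .or (.var z) (.neg (.var z))
/-- A contradiction. -/
def ff (z : ν) : Fml ν := .and (.var z) (.neg (.var z))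

@[simp] theorem eval_tt (z : ν) (a : ν → Bool) : (tt z).eval a = true := by
  simp [tt, eval]
@[simp] theorem eval_ff (z : ν) (a : ν → Bool) : (ff z).eval a = false := by
  simp [ff, eval]

/-- Conjunction of a list. -/
def bigAnd (z : ν) (l : List (Fml ν)) : Fml ν := l.foldr .and (tt z)
/-- Disjunction of a list. -/
def bigOr (z : ν) (l : List (Fml ν)) : Fml ν := l.foldr .or (ff z)

theorem eval_bigAnd (z : ν) (l : List (Fml ν)) (a : ν → Bool) :
    (bigAnd z l).eval a = true ↔ ∀ f ∈ l, f.eval a = true := by
  induction l with
  | nil => simp [bigAnd]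
  | cons f l ih =>
    simp only [bigAnd, List.foldr_cons, eval, Bool.and_eq_true, List.forall_mem_cons] at ih ⊢
    rw [ih]

theorem eval_bigOr (z : ν) (l : List (Fml ν)) (a : ν → Bool) :
    (bigOr z l).eval a = true ↔ ∃ f ∈ l, f.eval a = true := by
  induction l with
  | nil => simp [bigOr]
  | cons f l ih =>
    simp only [bigOr, List.foldr_cons, eval, Bool.or_eq_true, List.exists_mem_cons_iff] at ih ⊢
    rw [ih]

/-- Exclusive or. -/
def fxor (f g : Fml ν) : Fml ν := .or (.and f (.neg g)) (.and (.neg f) g)
/-- Equivalence. -/
def fiff (f g : Fml ν) : Fml ν := .or (.and f g) (.and (.neg f) (.neg g))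

theorem eval_fxor (f g : Fml ν) (a : ν → Bool) :
    (fxor f g).eval a = true ↔ f.eval a = !(g.eval a) := by
  simp only [fxor, eval]
  cases f.eval a <;> cases g.eval a <;> simp

theorem eval_fiff (f g : Fml ν) (a : ν → Bool) :
    (fiff f g).eval a = true ↔ f.eval a = g.eval a := by
  simp only [fiff, eval]
  cases f.eval a <;> cases g.eval a <;> simp

end basic

section core

variable (m : ℕ) (z : Name) (U U' : ℕ → Name) (θ : Fml Name)

/-- First formula of the reduction. -/
def redPhi : Fml Name := bigAnd z ((List.range m).map fun i => .and (.var (U i)) (.neg (.var (U' i))))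

/-- Second formula of the reduction. -/
def redPsi : Fml Name :=
  .and (bigAnd z ((List.range m).map fun i => fxor (.var (U i)) (.var (U' i)))) θ

theorem eval_redPhi (a : Name → Bool) :
    (redPhi m z U U').eval a = true ↔ ∀ i < m, a (U i) = true ∧ a (U' i) = false := by
  simp [redPhi, eval_bigAnd, eval]

theorem eval_redPsi (a : Name → Bool) :
    (redPsi m z U U' θ).eval a = true ↔ (∀ i < m, a (U i) = !a (U' i)) ∧ θ.eval a = true := by
  simp [redPsi, eval_bigAnd, eval_fxor, eval]

variable {m z U U' θ}

theorem mem_vars_bigAnd {ν : Type} (z : ν) (l : List (Fml ν)) (f : Fml ν) (hf : f ∈ l) (x : ν)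
    (hx : x ∈ f.vars) : x ∈ (bigAnd z l).vars := by
  induction l with
  | nil => simp at hf
  | cons g l ih =>
    simp only [bigAnd, List.foldr_cons, vars] at ih ⊢
    rcases List.mem_cons.1 hf with h | h
    · subst h; exact Or.inl hx
    · exact Or.inr (ih h)

theorem U_mem (i : ℕ) (hi : i < m) : U i ∈ (redPhi m z U U').vars :=
  mem_vars_bigAnd z _ (.and (.var (U i)) (.neg (.var (U' i)))) (List.mem_map.2 ⟨i, by simpa using hi, rfl⟩)
    _ (Or.inl rfl)

theorem U'_mem (i : ℕ) (hi : i < m) : U' i ∈ (redPhi m z U U').vars :=
  mem_vars_bigAnd z _ (.and (.var (U i)) (.neg (.var (U' i)))) (List.mem_map.2 ⟨i, by simpa using hi, rfl⟩)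
    _ (Or.inr rfl)

/-- The logical core: `redPhi` isomorphically implies `redPsi` iff some truth assignment to the
variables `U i`, complemented on `U' i`, makes `θ` valid. -/
theorem core (hU : ∀ i j, U i = U j → i = j) (hU' : ∀ i j, U' i = U' j → i = j)
    (hd : ∀ i j, U i ≠ U' j) :
    IsoImplies (redPhi m z U U') (redPsi m z U U' θ) ↔
      ∃ b : ℕ → Bool, ∀ a : Name → Bool, (∀ i < m, a (U i) = b i ∧ a (U' i) = !(b i)) →
        θ.eval a = true := by
  classical
  constructor
  · rintro ⟨π, _, hπ⟩
    -- the images
    set P : Finset Name := (Finset.range m).image U with hP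
    set Q : Finset Name := (Finset.range m).image U' with hQ
    have hPQ : Disjoint P Q := by
      rw [Finset.disjoint_left]
      intro x hx hx'
      simp only [hP, hQ, Finset.mem_image] at hx hx'
      obtain ⟨i, _, rfl⟩ := hx
      obtain ⟨j, _, h⟩ := hx'
      exact hd i j h.symm
    have hphi : ∀ a : Name → Bool, ((redPhi m z U U').rename π).eval a = true ↔
        ∀ i < m, a (π (U i)) = true ∧ a (π (U' i)) = false := by
      intro a
      rw [eval_rename, eval_redPhi]
    -- the standard assignment
    let a₀ : Name → Bool := fun y => decide (y ∈ P.image π)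
    have ha₀ : ∀ i < m, a₀ (π (U i)) = true ∧ a₀ (π (U' i)) = false := by
      intro i hi
      constructor
      · simp only [a₀, decide_eq_true_eq]
        exact Finset.mem_image_of_mem _ (Finset.mem_image_of_mem _ (Finset.mem_range.2 hi))
      · simp only [a₀, decide_eq_false_iff_not]
        intro h
        obtain ⟨x, hx, hx'⟩ := Finset.mem_image.1 h
        have := π.injective hx'
        subst this
        obtain ⟨j, _, hj⟩ := Finset.mem_image.1 hx
        exact hd j i hj
    -- every `U i`, `U' i` is in the image of `P ∪ Q`
    have hkey : ∀ y, (∃ i < m, y = U i ∨ y = U' i) → y ∈ (P ∪ Q).image π := by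
      rintro y ⟨i, hi, hy⟩
      by_contra hcon
      have h1 : ∀ c : Bool, (redPsi m z U U' θ).eval (Function.update a₀ y c) = true := by
        intro c
        apply hπ
        rw [hphi]
        intro j hj
        have e1 : π (U j) ≠ y := by
          intro h
          apply hcon
          rw [← h]
          exact Finset.mem_image_of_mem _ (Finset.mem_union_left _
            (Finset.mem_image_of_mem _ (Finset.mem_range.2 hj)))
        have e2 : π (U' j) ≠ y := by
          intro h
          apply hcon
          rw [← h]
          exact Finset.mem_image_of_mem _ (Finset.mem_union_right _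
            (Finset.mem_image_of_mem _ (Finset.mem_range.2 hj)))
        rw [Function.update_of_ne e1, Function.update_of_ne e2]
        exact ha₀ j hj
      have h2 := fun c => ((eval_redPsi m z U U' θ _).1 (h1 c)).1 i hi
      rcases hy with hy | hy
      · have ht := h2 true
        have hf := h2 false
        have hne : U' i ≠ y := by rw [hy]; exact fun h => hd i i h.symm
        rw [Function.update_of_ne hne] at ht hf
        subst hy
        rw [Function.update_self] at ht hf
        rw [← hf] at ht
        exact absurd ht (by simp)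
      · have ht := h2 true
        have hf := h2 false
        have hne : U i ≠ y := by rw [hy]; exact hd i i
        rw [Function.update_of_ne hne] at ht hf
        subst hy
        rw [Function.update_self] at ht hf
        rw [hf] at ht
        exact absurd ht (by simp)
    have hsub : P ∪ Q ⊆ (P ∪ Q).image π := by
      intro y hy
      apply hkey
      rcases Finset.mem_union.1 hy with h | h
      · obtain ⟨i, hi, rfl⟩ := Finset.mem_image.1 h
        exact ⟨i, Finset.mem_range.1 hi, Or.inl rfl⟩
      · obtain ⟨i, hi, rfl⟩ := Finset.mem_image.1 h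
        exact ⟨i, Finset.mem_range.1 hi, Or.inr rfl⟩
    have heq : P ∪ Q = (P ∪ Q).image π := by
      apply Finset.eq_of_subset_of_card_le hsub
      exact Finset.card_image_le
    refine ⟨fun i => a₀ (U i), fun a ha => ?_⟩
    have h0 : (redPsi m z U U' θ).eval a₀ = true := hπ _ ((hphi a₀).2 ha₀)
    have h0' := ((eval_redPsi m z U U' θ _).1 h0).1
    have hagree : ∀ y ∈ P ∪ Q, a y = a₀ y := by
      intro y hy
      rcases Finset.mem_union.1 hy with h | h
      · obtain ⟨i, hi, rfl⟩ := Finset.mem_image.1 h
        exact (ha i (Finset.mem_range.1 hi)).1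
      · obtain ⟨i, hi, rfl⟩ := Finset.mem_image.1 h
        rw [(ha i (Finset.mem_range.1 hi)).2]
        show (!(a₀ (U i))) = a₀ (U' i)
        rw [h0' i (Finset.mem_range.1 hi)]
        simp
    have h3 : (redPsi m z U U' θ).eval a = true := by
      apply hπ
      rw [hphi]
      intro j hj
      have e1 : π (U j) ∈ P ∪ Q := by
        rw [heq]
        exact Finset.mem_image_of_mem _ (Finset.mem_union_left _
          (Finset.mem_image_of_mem _ (Finset.mem_range.2 hj)))
      have e2 : π (U' j) ∈ P ∪ Q := by
        rw [heq]
        exact Finset.mem_image_of_mem _ (Finset.mem_union_right _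
          (Finset.mem_image_of_mem _ (Finset.mem_range.2 hj)))
      rw [hagree _ e1, hagree _ e2]
      exact ha₀ j hj
    exact ((eval_redPsi m z U U' θ _).1 h3).2
  · rintro ⟨b, hb⟩
    -- the permutation swapping `U i` and `U' i` when `b i = false`
    let f : Name → Name := fun y =>
      if h : ∃ i, i < m ∧ b i = false ∧ y = U i then U' h.choose
      else if h : ∃ i, i < m ∧ b i = false ∧ y = U' i then U h.choose
      else y
    have f1 : ∀ i, i < m → b i = false → f (U i) = U' i := by
      intro i hi hbi
      have h : ∃ j, j < m ∧ b j = false ∧ U i = U j := ⟨i, hi, hbi, rfl⟩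
      simp only [f, dif_pos h]
      have := h.choose_spec.2.2
      rw [← hU _ _ this]
    have f2 : ∀ i, i < m → b i = false → f (U' i) = U i := by
      intro i hi hbi
      have h : ∃ j, j < m ∧ b j = false ∧ U' i = U' j := ⟨i, hi, hbi, rfl⟩
      have h' : ¬ ∃ j, j < m ∧ b j = false ∧ U' i = U j := by
        rintro ⟨j, _, _, h⟩
        exact hd j i h.symm
      simp only [f, dif_neg h', dif_pos h]
      have := h.choose_spec.2.2
      rw [← hU' _ _ this]
    have f3 : ∀ y, (∀ i, i < m → b i = false → y ≠ U i ∧ y ≠ U' i) → f y = y := by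
      intro y hy
      have h1 : ¬ ∃ i, i < m ∧ b i = false ∧ y = U i := by
        rintro ⟨i, hi, hbi, h⟩
        exact (hy i hi hbi).1 h
      have h2 : ¬ ∃ i, i < m ∧ b i = false ∧ y = U' i := by
        rintro ⟨i, hi, hbi, h⟩
        exact (hy i hi hbi).2 h
      simp only [f, dif_neg h1, dif_neg h2]
    have hinv : ∀ y, f (f y) = y := by
      intro y
      by_cases h1 : ∃ i, i < m ∧ b i = false ∧ y = U i
      · obtain ⟨i, hi, hbi, rfl⟩ := h1
        rw [f1 i hi hbi, f2 i hi hbi]
      · by_cases h2 : ∃ i, i < m ∧ b i = false ∧ y = U' i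
        · obtain ⟨i, hi, hbi, rfl⟩ := h2
          rw [f2 i hi hbi, f1 i hi hbi]
        · have h3 : ∀ i, i < m → b i = false → y ≠ U i ∧ y ≠ U' i := by
            intro i hi hbi
            exact ⟨fun h => h1 ⟨i, hi, hbi, h⟩, fun h => h2 ⟨i, hi, hbi, h⟩⟩
          rw [f3 y h3, f3 y h3]
    let π : Equiv.Perm Name := ⟨f, f, hinv, hinv⟩
    refine ⟨π, ?_, ?_⟩
    · intro x hx
      apply f3
      intro i hi _
      constructor
      · rintro rfl; exact hx (Or.inl (U_mem i hi))
      · rintro rfl; exact hx (Or.inl (U'_mem i hi))
    · intro a ha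
      rw [eval_rename, eval_redPhi] at ha
      have hab : ∀ i < m, a (U i) = b i ∧ a (U' i) = !(b i) := by
        intro i hi
        have h := ha i hi
        cases hbi : b i with
        | false =>
          have e1 : π (U i) = U' i := f1 i hi hbi
          have e2 : π (U' i) = U i := f2 i hi hbi
          rw [e1, e2] at h
          exact ⟨h.2, by simpa using h.1⟩
        | true =>
          have e1 : π (U i) = U i := by
            apply f3
            intro j hj hbj
            refine ⟨fun h => ?_, fun h => hd i j h⟩
            rw [hU _ _ h, hbj] at hbi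
            exact absurd hbi (by simp)
          have e2 : π (U' i) = U' i := by
            apply f3
            intro j hj hbj
            refine ⟨fun h => hd j i h.symm, fun h => ?_⟩
            rw [hU' _ _ h, hbj] at hbi
            exact absurd hbi (by simp)
          rw [e1, e2] at h
          exact ⟨h.1, by simpa using h.2⟩
      rw [eval_redPsi]
      exact ⟨fun i hi => by rw [(hab i hi).1, (hab i hi).2]; simp, hb a hab⟩

end core

end Pool.Agent.IsoImp
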