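import Pool.Agent.Lib_MP_a1eae6_lc.Lang
import Mathlib.Tactic

/-!
# Programs on four work stacks
-/

set_option linter.unusedSectionVars false

namespace Pool.Agent.PT81

open Function (update)

/-- Stack names: input, output and four work stacks. -/
inductive RK : Type
  | inp
  | out
  | r (i : Fin 4)
  deriving DecidableEq, Fintype

/-- Symbols of the work stacks: `none` is a delimiter, `some none` marks a node, `some (some a)`
is a leaf. -/
abbrev Sy (A : Type) := Option (Option A)

/-- The alphabets of the stacks. -/
@[reducible]
def Gam (G₀ G₁ A : Type) : RK → Type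
  | .inp => G₀
  | .out => G₁
  | .r _ => Sy A

/-- Local variables: last read symbol and a flag. -/
abbrev Va (A : Type) := Option (Sy A) × Bool

section

variable {G₀ G₁ A : Type} [DecidableEq A]

/-- The state with input stack `I`, output stack `O` and work stacks `R`. -/
def st (I : List G₀) (O : List G₁) (R : Fin 4 → List (Sy A)) : ∀ k, List (Gam G₀ G₁ A k)
  | .inp => I
  | .out => O
  | .r i => R i

@[simp] theorem st_r (I : List G₀) (O : List G₁) (R : Fin 4 → List (Sy A)) (i : Fin 4) :
    st I O R (.r i) = R i := rfl

@[simp] theorem st_inp (I : List G₀) (O : List G₁) (R : Fin 4 → List (Sy A)) :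
    st I O R .inp = I := rfl

@[simp] theorem st_out (I : List G₀) (O : List G₁) (R : Fin 4 → List (Sy A)) :
    st I O R .out = O := rfl

theorem update_st_r (I : List G₀) (O : List G₁) (R : Fin 4 → List (Sy A)) (i : Fin 4)
    (l : List (Sy A)) :
    update (st I O R) (.r i) l = st I O (update R i l) := by
  funext k
  cases k with
  | inp => simp [st]
  | out => simp [st]
  | r j =>
    by_cases h : j = i
    · subst h; simp [st]
    · have : (RK.r j) ≠ RK.r i := by simpa using h
      rw [Function.update_of_ne this]
      simp [st, Function.update_of_ne h]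

theorem update_st_inp (I : List G₀) (O : List G₁) (R : Fin 4 → List (Sy A))
    (l : List G₀) :
    update (st I O R) .inp l = st l O R := by
  funext k
  cases k <;> simp [st]

theorem update_st_out (I : List G₀) (O : List G₁) (R : Fin 4 → List (Sy A))
    (l : List G₁) :
    update (st I O R) .out l = st I l R := by
  funext k
  cases k <;> simp [st]

abbrev Cm (G₀ G₁ A : Type) := Cmd (Gam G₀ G₁ A) (Va A)

/-- Execution on a state of the given form. -/
def Ex (c : Cm G₀ G₁ A) (v : Va A) (I : List G₀) (O : List G₁) (R : Fin 4 → List (Sy A))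
    (v' : Va A) (I' : List G₀) (O' : List G₁) (R' : Fin 4 → List (Sy A)) (t : ℕ) : Prop :=
  Exec c v (st I O R) v' (st I' O' R') t

def cpop (i : Fin 4) : Cm G₀ G₁ A := .pop (.r i) (fun v t => (t, v.2))
def cpeek (i : Fin 4) : Cm G₀ G₁ A := .peek (.r i) (fun v t => (t, v.2))
def cpush (i : Fin 4) (z : Sy A) : Cm G₀ G₁ A := .push (.r i) (fun _ => z)
def cput (i : Fin 4) : Cm G₀ G₁ A := .push (.r i) (fun v => v.1.getD none)
def cskip : Cm G₀ G₁ A := .load id

variable {I : List G₀} {O : List G₁} {R : Fin 4 → List (Sy A)} {v : Va A}

theorem ex_pop (i : Fin 4) :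
    Ex (cpop i) v I O R ((R i).head?, v.2) I O (update R i (R i).tail) 1 := by
  have := Exec.pop (Γ := Gam G₀ G₁ A) (.r i) (fun v t => (t, v.2)) v (st I O R)
  rw [update_st_r] at this
  exact this

theorem ex_peek (i : Fin 4) :
    Ex (cpeek i) v I O R ((R i).head?, v.2) I O R 1 :=
  Exec.peek (Γ := Gam G₀ G₁ A) (.r i) (fun v t => (t, v.2)) v (st I O R)

theorem ex_push (i : Fin 4) (z : Sy A) :
    Ex (cpush i z) v I O R v I O (update R i (z :: R i)) 1 := by
  have := Exec.push (Γ := Gam G₀ G₁ A) (.r i) (fun _ => z) v (st I O R)
  rw [update_st_r] at this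
  exact this

theorem ex_put (i : Fin 4) :
    Ex (cput i) v I O R v I O (update R i (v.1.getD none :: R i)) 1 := by
  have := Exec.push (Γ := Gam G₀ G₁ A) (.r i) (fun v : Va A => v.1.getD none) v (st I O R)
  rw [update_st_r] at this
  exact this

theorem ex_skip : Ex cskip v I O R v I O R 1 :=
  Exec.load (Γ := Gam G₀ G₁ A) id v (st I O R)

theorem Ex.seq {c₁ c₂ : Cm G₀ G₁ A} {v₀ v₁ v₂ : Va A} {I₀ I₁ I₂ : List G₀}
    {O₀ O₁ O₂ : List G₁} {R₀ R₁ R₂ : Fin 4 → List (Sy A)} {t₁ t₂ : ℕ}
    (h₁ : Ex c₁ v₀ I₀ O₀ R₀ v₁ I₁ O₁ R₁ t₁) (h₂ : Ex c₂ v₁ I₁ O₁ R₁ v₂ I₂ O₂ R₂ t₂) :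
    Ex (.seq c₁ c₂) v₀ I₀ O₀ R₀ v₂ I₂ O₂ R₂ (t₁ + t₂) :=
  Exec.seq h₁ h₂

/-- Vector of four stacks. -/
abbrev vec (m s x y : List (Sy A)) : Fin 4 → List (Sy A) := ![m, s, x, y]

theorem upd0 (m s x y l : List (Sy A)) : update (vec m s x y) 0 l = vec l s x y := by
  funext i; fin_cases i <;> simp [vec, Function.update]
theorem upd1 (m s x y l : List (Sy A)) : update (vec m s x y) 1 l = vec m l x y := by
  funext i; fin_cases i <;> simp [vec, Function.update]
theorem upd2 (m s x y l : List (Sy A)) : update (vec m s x y) 2 l = vec m s l y := by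
  funext i; fin_cases i <;> simp [vec, Function.update]
theorem upd3 (m s x y l : List (Sy A)) : update (vec m s x y) 3 l = vec m s x l := by
  funext i; fin_cases i <;> simp [vec, Function.update]

/-- While the top of `i` satisfies `p`, move it to `j`. -/
def mvW (i j : Fin 4) (p : Option (Sy A) → Bool) : Cm G₀ G₁ A :=
  .seq (cpeek i) (.loop (fun v => p v.1) (.seq (cpop i) (.seq (cput j) (cpeek i))))

theorem ex_mvW_loop (i j : Fin 4) (hij : i ≠ j) (p : Option (Sy A) → Bool) (l r : List (Sy A))
    (hl : ∀ z ∈ l, p (some z) = true) (hr : p r.head? = false) (v : Va A)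
    (R : Fin 4 → List (Sy A)) (hR : R i = l ++ r) (hv : v.1 = (l ++ r).head?) :
    Ex (.loop (fun v => p v.1) (.seq (cpop i) (.seq (cput j) (cpeek i)))) v I O R
      (r.head?, v.2) I O (update (update R i r) j (l.reverse ++ R j)) (4 * l.length + 1) := by
  induction l generalizing v R with
  | nil =>
    have h1 : update (update R i r) j (([] : List (Sy A)).reverse ++ R j) = R := by
      have : update R i r = R := by
        rw [Function.update_eq_self_iff]; simpa using hR.symm
      simp [this]
    rw [h1]
    have h2 : v = (r.head?, v.2) := by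
      ext1
      · simpa using hv
      · rfl
    rw [← h2]
    exact Exec.loopDone (by simpa [hv] using hr)
  | cons z l ih =>
    have hz : p (some z) = true := hl z (by simp)
    have hv1 : v.1 = some z := by simpa using hv
    have hloop : Ex (.seq (cpop i) (.seq (cput j) (cpeek i))) v I O R ((l ++ r).head?, v.2) I O
        (update (update R i (l ++ r)) j (z :: R j)) (1 + (1 + 1)) := by
      refine Ex.seq (ex_pop i) (Ex.seq (ex_put j) ?_)
      have e1 : (R i).head? = some z := by rw [hR]; rfl
      have e2 : (R i).tail = l ++ r := by rw [hR]; rfl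
      rw [e1, e2]
      simp only [Option.getD_some]
      rw [Function.update_of_ne (Ne.symm hij)]
      have := ex_peek (I := I) (O := O) (R := update (update R i (l ++ r)) j (z :: R j))
        (v := (some z, v.2)) i
      rw [Function.update_of_ne hij, Function.update_self] at this
      exact this
    have ih' := ih (fun z hz => hl z (List.mem_cons_of_mem _ hz)) ((l ++ r).head?, v.2)
      (update (update R i (l ++ r)) j (z :: R j))
      (by rw [Function.update_of_ne hij, Function.update_self]) rfl
    have hfin : update (update (update (update R i (l ++ r)) j (z :: R j)) i r) j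
        (l.reverse ++ (update (update R i (l ++ r)) j (z :: R j)) j)
        = update (update R i r) j ((z :: l).reverse ++ R j) := by
      funext k
      by_cases hk : k = j
      · subst hk; simp
      · rw [Function.update_of_ne hk, Function.update_of_ne hk]
        by_cases hk' : k = i
        · subst hk'; simp
        · rw [Function.update_of_ne hk', Function.update_of_ne hk', Function.update_of_ne hk,
            Function.update_of_ne hk']
    rw [hfin] at ih'
    have := Exec.loopStep (p := fun v : Va A => p v.1) (by simpa [hv1] using hz) hloop ih'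
    have ht : 1 + (1 + (1 + 1)) + (4 * l.length + 1) = 4 * (z :: l).length + 1 := by
      simp; ring
    rw [ht] at this
    exact this

theorem ex_mvW (i j : Fin 4) (hij : i ≠ j) (p : Option (Sy A) → Bool) (l r : List (Sy A))
    (hl : ∀ z ∈ l, p (some z) = true) (hr : p r.head? = false) (v : Va A)
    (R : Fin 4 → List (Sy A)) (hR : R i = l ++ r) :
    Ex (mvW i j p) v I O R
      (r.head?, v.2) I O (update (update R i r) j (l.reverse ++ R j)) (4 * l.length + 2) := by
  have h := ex_mvW_loop (I := I) (O := O) i j hij p l r hl hr ((R i).head?, v.2) R hR (by rw [hR])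
  have := Ex.seq (ex_peek (I := I) (O := O) (R := R) (v := v) i) h
  have ht : 1 + (4 * l.length + 1) = 4 * l.length + 2 := by ring
  rw [ht] at this
  exact this

/-- While the top of `i` satisfies `p`, move it to both `j` and `k`. -/
def mvW2 (i j k : Fin 4) (p : Option (Sy A) → Bool) : Cm G₀ G₁ A :=
  .seq (cpeek i) (.loop (fun v => p v.1)
    (.seq (cpop i) (.seq (cput j) (.seq (cput k) (cpeek i)))))

theorem ex_mvW2_loop (i j k : Fin 4) (hij : i ≠ j) (hik : i ≠ k) (hjk : j ≠ k)
    (p : Option (Sy A) → Bool) (l r : List (Sy A))
    (hl : ∀ z ∈ l, p (some z) = true) (hr : p r.head? = false) (v : Va A)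
    (R : Fin 4 → List (Sy A)) (hR : R i = l ++ r) (hv : v.1 = (l ++ r).head?) :
    Ex (.loop (fun v => p v.1)
      (.seq (cpop i) (.seq (cput j) (.seq (cput k) (cpeek i))))) v I O R
      (r.head?, v.2) I O (update (update (update R i r) j (l.reverse ++ R j)) k
        (l.reverse ++ R k)) (5 * l.length + 1) := by
  induction l generalizing v R with
  | nil =>
    have h1 : update (update (update R i r) j (([] : List (Sy A)).reverse ++ R j)) k
        (([] : List (Sy A)).reverse ++ R k) = R := by
      have : update R i r = R := by
        rw [Function.update_eq_self_iff]; simpa using hR.symm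
      simp [this]
    rw [h1]
    have h2 : v = (r.head?, v.2) := by
      ext1
      · simpa using hv
      · rfl
    rw [← h2]
    exact Exec.loopDone (by simpa [hv] using hr)
  | cons z l ih =>
    have hz : p (some z) = true := hl z (by simp)
    have hv1 : v.1 = some z := by simpa using hv
    have hloop : Ex (.seq (cpop i) (.seq (cput j) (.seq (cput k) (cpeek i)))) v I O R
        ((l ++ r).head?, v.2) I O
        (update (update (update R i (l ++ r)) j (z :: R j)) k (z :: R k)) (1 + (1 + (1 + 1))) := by
      refine Ex.seq (ex_pop i) (Ex.seq (ex_put j) (Ex.seq (ex_put k) ?_))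
      have e1 : (R i).head? = some z := by rw [hR]; rfl
      have e2 : (R i).tail = l ++ r := by rw [hR]; rfl
      rw [e1, e2]
      simp only [Option.getD_some]
      rw [Function.update_of_ne (Ne.symm hij)]
      rw [Function.update_of_ne (Ne.symm hjk), Function.update_of_ne (Ne.symm hik)]
      have := ex_peek (I := I) (O := O)
        (R := update (update (update R i (l ++ r)) j (z :: R j)) k (z :: R k))
        (v := (some z, v.2)) i
      rw [Function.update_of_ne hik, Function.update_of_ne hij, Function.update_self] at this
      exact this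
    have ih' := ih (fun z hz => hl z (List.mem_cons_of_mem _ hz)) ((l ++ r).head?, v.2)
      (update (update (update R i (l ++ r)) j (z :: R j)) k (z :: R k))
      (by rw [Function.update_of_ne hik, Function.update_of_ne hij, Function.update_self]) rfl
    have hfin : update (update (update
          (update (update (update R i (l ++ r)) j (z :: R j)) k (z :: R k)) i r) j
        (l.reverse ++ (update (update (update R i (l ++ r)) j (z :: R j)) k (z :: R k)) j)) k
        (l.reverse ++ (update (update (update R i (l ++ r)) j (z :: R j)) k (z :: R k)) k)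
        = update (update (update R i r) j ((z :: l).reverse ++ R j)) k
          ((z :: l).reverse ++ R k) := by
      funext q
      by_cases hk : q = k
      · subst hk; simp
      · rw [Function.update_of_ne hk, Function.update_of_ne hk]
        by_cases hj : q = j
        · subst hj; simp [Function.update_of_ne hk]
        · rw [Function.update_of_ne hj, Function.update_of_ne hj]
          by_cases hi : q = i
          · subst hi; simp
          · rw [Function.update_of_ne hi, Function.update_of_ne hk, Function.update_of_ne hj,
              Function.update_of_ne hi, Function.update_of_ne hi]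
    rw [hfin] at ih'
    have := Exec.loopStep (p := fun v : Va A => p v.1) (by simpa [hv1] using hz) hloop ih'
    have ht : 1 + (1 + (1 + (1 + 1))) + (5 * l.length + 1) = 5 * (z :: l).length + 1 := by
      simp; ring
    rw [ht] at this
    exact this

theorem ex_mvW2 (i j k : Fin 4) (hij : i ≠ j) (hik : i ≠ k) (hjk : j ≠ k)
    (p : Option (Sy A) → Bool) (l r : List (Sy A))
    (hl : ∀ z ∈ l, p (some z) = true) (hr : p r.head? = false) (v : Va A)
    (R : Fin 4 → List (Sy A)) (hR : R i = l ++ r) :
    Ex (mvW2 i j k p) v I O R
      (r.head?, v.2) I O (update (update (update R i r) j (l.reverse ++ R j)) k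
        (l.reverse ++ R k)) (5 * l.length + 2) := by
  have h := ex_mvW2_loop (I := I) (O := O) i j k hij hik hjk p l r hl hr
    ((R i).head?, v.2) R hR (by rw [hR])
  have := Ex.seq (ex_peek (I := I) (O := O) (R := R) (v := v) i) h
  have ht : 1 + (5 * l.length + 1) = 5 * l.length + 2 := by ring
  rw [ht] at this
  exact this

/-- While the top of `i` satisfies `p`, drop it. -/
def drW (i : Fin 4) (p : Option (Sy A) → Bool) : Cm G₀ G₁ A :=
  .seq (cpeek i) (.loop (fun v => p v.1) (.seq (cpop i) (cpeek i)))

theorem ex_drW_loop (i : Fin 4) (p : Option (Sy A) → Bool) (l r : List (Sy A))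
    (hl : ∀ z ∈ l, p (some z) = true) (hr : p r.head? = false) (v : Va A)
    (R : Fin 4 → List (Sy A)) (hR : R i = l ++ r) (hv : v.1 = (l ++ r).head?) :
    Ex (.loop (fun v => p v.1) (.seq (cpop i) (cpeek i))) v I O R
      (r.head?, v.2) I O (update R i r) (3 * l.length + 1) := by
  induction l generalizing v R with
  | nil =>
    have h1 : update R i r = R := by
      rw [Function.update_eq_self_iff]; simpa using hR.symm
    rw [h1]
    have h2 : v = (r.head?, v.2) := by
      ext1
      · simpa using hv
      · rfl
    rw [← h2]
    exact Exec.loopDone (by simpa [hv] using hr)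
  | cons z l ih =>
    have hz : p (some z) = true := hl z (by simp)
    have hv1 : v.1 = some z := by simpa using hv
    have hloop : Ex (.seq (cpop i) (cpeek i)) v I O R ((l ++ r).head?, v.2) I O
        (update R i (l ++ r)) (1 + 1) := by
      refine Ex.seq (ex_pop i) ?_
      have e1 : (R i).head? = some z := by rw [hR]; rfl
      have e2 : (R i).tail = l ++ r := by rw [hR]; rfl
      rw [e1, e2]
      have := ex_peek (I := I) (O := O) (R := update R i (l ++ r))
        (v := (some z, v.2)) i
      rw [Function.update_self] at this
      exact this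
    have ih' := ih (fun z hz => hl z (List.mem_cons_of_mem _ hz)) ((l ++ r).head?, v.2)
      (update R i (l ++ r)) (by rw [Function.update_self]) rfl
    rw [Function.update_idem] at ih'
    have := Exec.loopStep (p := fun v : Va A => p v.1) (by simpa [hv1] using hz) hloop ih'
    have ht : 1 + (1 + 1) + (3 * l.length + 1) = 3 * (z :: l).length + 1 := by
      simp; ring
    rw [ht] at this
    exact this

theorem ex_drW (i : Fin 4) (p : Option (Sy A) → Bool) (l r : List (Sy A))
    (hl : ∀ z ∈ l, p (some z) = true) (hr : p r.head? = false) (v : Va A)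
    (R : Fin 4 → List (Sy A)) (hR : R i = l ++ r) :
    Ex (drW i p) v I O R
      (r.head?, v.2) I O (update R i r) (3 * l.length + 2) := by
  have h := ex_drW_loop (I := I) (O := O) i p l r hl hr ((R i).head?, v.2) R hR (by rw [hR])
  have := Ex.seq (ex_peek (I := I) (O := O) (R := R) (v := v) i) h
  have ht : 1 + (3 * l.length + 1) = 3 * l.length + 2 := by ring
  rw [ht] at this
  exact this

/-- Push a constant string. -/
def pushStr (i : Fin 4) : List (Sy A) → Cm G₀ G₁ A
  | [] => cskip
  | z :: l => .seq (pushStr i l) (cpush i z)

theorem ex_pushStr (i : Fin 4) (l : List (Sy A)) (R : Fin 4 → List (Sy A)) :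
    Ex (pushStr i l) v I O R v I O (update R i (l ++ R i)) (l.length + 1) := by
  induction l with
  | nil => simpa [pushStr] using ex_skip
  | cons z l ih =>
    have := Ex.seq ih (ex_push i z)
    rw [Function.update_idem, Function.update_self] at this
    exact this

end

end Pool.Agent.PT81
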