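import Pool.Agent.Lib_MP_a1eae6_lc.Hard

/-!
# ISO-IMP is in `Σ₂ᵖ`: the verifier and its correctness
-/

set_option linter.unusedSectionVars false
set_option linter.unusedVariables false

namespace Pool.Agent.IsoImp

/-- Tokens. -/
abbrev Tok := Sym × List Bool

/-- One step of the tokenizer (reading from the right). -/
def tstep (s : Sym) (st : List Bool × List Tok) : List Bool × List Tok :=
  match s with
  | .bit b => (b :: st.1, st.2)
  | .var => ([], (.var, st.1) :: st.2)
  | .neg => ([], (.neg, st.1) :: st.2)
  | .and => ([], (.and, st.1) :: st.2)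
  | .or => ([], (.or, st.1) :: st.2)

/-- The tokenizer. -/
def tokz (w : List Sym) : List Bool × List Tok := w.foldr tstep ([], [])

/-- Tokens of a formula. -/
def Fml.toks : Fml Name → List Tok
  | .var x => [(.var, x)]
  | .neg f => (.neg, []) :: f.toks
  | .and f g => (.and, []) :: (f.toks ++ g.toks)
  | .or f g => (.or, []) :: (f.toks ++ g.toks)

/-- The string of a list of tokens. -/
def flat (T : List Tok) : List Sym := T.flatMap fun t => t.1 :: t.2.map Sym.bit

theorem flat_toks (f : Fml Name) : flat f.toks = f.code := by
  induction f with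
  | var x => simp [Fml.toks, flat, Fml.code]
  | neg f ih => simp only [Fml.toks, flat, Fml.code, List.flatMap_cons] at ih ⊢; rw [ih]; rfl
  | and f g ihf ihg =>
    simp only [Fml.toks, flat, Fml.code, List.flatMap_cons, List.flatMap_append] at ihf ihg ⊢
    rw [ihf, ihg]; rfl
  | or f g ihf ihg =>
    simp only [Fml.toks, flat, Fml.code, List.flatMap_cons, List.flatMap_append] at ihf ihg ⊢
    rw [ihf, ihg]; rfl

theorem flat_tokz (w : List Sym) : (tokz w).1.map Sym.bit ++ flat (tokz w).2 = w := by
  induction w with
  | nil => rfl
  | cons s w ih =>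
    have : tokz (s :: w) = tstep s (tokz w) := rfl
    rw [this]
    cases s <;> simp only [tstep, List.map_cons, List.cons_append, ih, List.map_nil,
      List.nil_append, flat, List.flatMap_cons] <;> simpa [flat] using ih

theorem tokz_bits (x : List Bool) (w : List Sym) :
    tokz (x.map Sym.bit ++ w) = (x ++ (tokz w).1, (tokz w).2) := by
  induction x with
  | nil => rfl
  | cons b x ih =>
    have : tokz ((b :: x).map Sym.bit ++ w) = tstep (.bit b) (tokz (x.map Sym.bit ++ w)) := rfl
    rw [this, ih]
    rfl

theorem tokz_code (f : Fml Name) : ∀ w, (tokz w).1 = [] →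
    tokz (f.code ++ w) = ([], f.toks ++ (tokz w).2) := by
  induction f with
  | var x =>
    intro w hw
    have : tokz ((Fml.var x).code ++ w) = tstep .var (tokz (x.map Sym.bit ++ w)) := rfl
    rw [this, tokz_bits, hw]
    simp [tstep, Fml.toks]
  | neg f ih =>
    intro w hw
    have : tokz ((Fml.neg f).code ++ w) = tstep .neg (tokz (f.code ++ w)) := rfl
    rw [this, ih w hw]
    rfl
  | and f g ihf ihg =>
    intro w hw
    have : tokz ((Fml.and f g).code ++ w) = tstep .and (tokz (f.code ++ (g.code ++ w))) := by
      rw [← List.append_assoc]; rfl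
    have h1 := ihg w hw
    rw [this, ihf _ (by rw [h1]), h1]
    simp [tstep, Fml.toks]
  | or f g ihf ihg =>
    intro w hw
    have : tokz ((Fml.or f g).code ++ w) = tstep .or (tokz (f.code ++ (g.code ++ w))) := by
      rw [← List.append_assoc]; rfl
    have h1 := ihg w hw
    rw [this, ihf _ (by rw [h1]), h1]
    simp [tstep, Fml.toks]

theorem tokz_code' (f : Fml Name) : tokz f.code = ([], f.toks) := by
  have := tokz_code f [] rfl
  simpa [tokz] using this

theorem tokz_length (w : List Sym) : (tokz w).2.length ≤ w.length := by
  induction w with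
  | nil => simp [tokz]
  | cons s w ih =>
    have : tokz (s :: w) = tstep s (tokz w) := rfl
    rw [this]
    cases s <;> simp only [tstep, List.length_cons] <;> omega

/-- One step of the evaluation (reading from the right): a stack machine. -/
def estep (t : Sym × Bool × Bool) (st : Option (List Bool)) : Option (List Bool) :=
  match t with
  | (.var, b, _) => match st with
    | none => none
    | some r => some (b :: r)
  | (.neg, _, true) => match st with
    | none => none
    | some r => match r with
      | [] => none
      | x :: r => some ((!x) :: r)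
  | (.and, _, true) => match st with
    | none => none
    | some r => match r with
      | [] => none
      | x :: r => match r with
        | [] => none
        | y :: r => some ((x && y) :: r)
  | (.or, _, true) => match st with
    | none => none
    | some r => match r with
      | [] => none
      | x :: r => match r with
        | [] => none
        | y :: r => some ((x || y) :: r)
  | _ => none

def ev (a : Name → Bool) (t : Tok) : Sym × Bool × Bool := (t.1, a t.2, t.2.isEmpty)

/-- Evaluation of a list of tokens. -/
def erun (a : Name → Bool) (T : List Tok) : Option (List Bool) :=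
  T.foldr (fun t st => estep (ev a t) st) (some [])

theorem erun_cons (a : Name → Bool) (t : Tok) (T : List Tok) :
    erun a (t :: T) = estep (ev a t) (erun a T) := rfl

theorem erun_toks (a : Name → Bool) (f : Fml Name) : ∀ (T : List Tok) (r : List Bool),
    erun a T = some r → erun a (f.toks ++ T) = some (f.eval a :: r) := by
  induction f with
  | var x =>
    intro T r h
    simp only [Fml.toks, List.cons_append, List.nil_append, erun_cons, h]
    rfl
  | neg f ih =>
    intro T r h
    simp only [Fml.toks, List.cons_append, erun_cons, ih T r h]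
    rfl
  | and f g ihf ihg =>
    intro T r h
    simp only [Fml.toks, List.cons_append, List.append_assoc, erun_cons]
    rw [ihf _ _ (ihg T r h)]
    rfl
  | or f g ihf ihg =>
    intro T r h
    simp only [Fml.toks, List.cons_append, List.append_assoc, erun_cons]
    rw [ihf _ _ (ihg T r h)]
    rfl

theorem erun_toks' (a : Name → Bool) (f : Fml Name) : erun a f.toks = some [f.eval a] := by
  have := erun_toks a f [] [] rfl
  simpa using this

theorem erun_build (a : Name → Bool) (T : List Tok) : ∀ r, erun a T = some r →
    ∃ fs : List (Fml Name), T = fs.flatMap Fml.toks ∧ r = fs.map (Fml.eval a) := by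
  induction T with
  | nil =>
    intro r h
    simp only [erun, List.foldr_nil, Option.some.injEq] at h
    subst h
    exact ⟨[], rfl, rfl⟩
  | cons t T ih =>
    intro r h
    rw [erun_cons] at h
    obtain ⟨s, x⟩ := t
    cases hT : erun a T with
    | none =>
      rw [hT] at h
      simp only [ev, estep] at h
      split at h <;> simp_all
    | some r' =>
      rw [hT] at h
      obtain ⟨fs, h1, h2⟩ := ih r' hT
      cases s with
      | bit b => simp [ev, estep] at h
      | var =>
        simp only [ev, estep, Option.some.injEq] at h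
        refine ⟨.var x :: fs, ?_, ?_⟩
        · simp [Fml.toks, h1]
        · rw [← h, h2]; rfl
      | neg =>
        cases x with
        | cons b x => simp [ev, estep] at h
        | nil =>
          cases fs with
          | nil =>
            rw [h2] at h
            simp [ev, estep] at h
          | cons f fs =>
            rw [h2] at h
            simp only [ev, estep, List.isEmpty_nil, List.map_cons, Option.some.injEq] at h
            refine ⟨.neg f :: fs, ?_, ?_⟩
            · simp [Fml.toks, h1]
            · rw [← h]; rfl
      | and =>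
        cases x with
        | cons b x => simp [ev, estep] at h
        | nil =>
          cases fs with
          | nil =>
            rw [h2] at h
            simp [ev, estep] at h
          | cons f fs =>
            cases fs with
            | nil =>
              rw [h2] at h
              simp [ev, estep] at h
            | cons g fs =>
              rw [h2] at h
              simp only [ev, estep, List.isEmpty_nil, List.map_cons, Option.some.injEq] at h
              refine ⟨.and f g :: fs, ?_, ?_⟩
              · simp [Fml.toks, h1]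
              · rw [← h]; rfl
      | or =>
        cases x with
        | cons b x => simp [ev, estep] at h
        | nil =>
          cases fs with
          | nil =>
            rw [h2] at h
            simp [ev, estep] at h
          | cons f fs =>
            cases fs with
            | nil =>
              rw [h2] at h
              simp [ev, estep] at h
            | cons g fs =>
              rw [h2] at h
              simp only [ev, estep, List.isEmpty_nil, List.map_cons, Option.some.injEq] at h
              refine ⟨.or f g :: fs, ?_, ?_⟩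
              · simp [Fml.toks, h1]
              · rw [← h]; rfl

theorem erun_one {a : Name → Bool} {T : List Tok} {r : List Bool} (h : erun a T = some r)
    (hr : r.length = 1) : ∃ f : Fml Name, T = f.toks := by
  obtain ⟨fs, h1, h2⟩ := erun_build a T r h
  rw [h2, List.length_map] at hr
  obtain ⟨f, rfl⟩ := List.length_eq_one_iff.1 hr
  exact ⟨f, by simpa using h1⟩

theorem mem_toks (f : Fml Name) (y : Name) : (Sym.var, y) ∈ f.toks ↔ y ∈ f.vars := by
  induction f with
  | var x => simp [Fml.toks, Fml.vars]
  | neg f ih => simp [Fml.toks, Fml.vars, ih]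
  | and f g ihf ihg => simp [Fml.toks, Fml.vars, ihf, ihg]
  | or f g ihf ihg => simp [Fml.toks, Fml.vars, ihf, ihg]

/-! ### The verifier -/

section verifier

variable (x : List (Sym ⊕ Sym)) (u v : List Bool)

def w1 : List Sym := x.filterMap fun s => match s with
  | .inl a => some a
  | .inr _ => none
def w2 : List Sym := x.filterMap fun s => match s with
  | .inl _ => none
  | .inr a => some a
def T1 : List Tok := (tokz (w1 x)).2
def T2 : List Tok := (tokz (w2 x)).2
def TA : List Tok := T1 x ++ T2 x

/-- Image of a name under the guessed permutation. -/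
def rho (y : Name) : Option Tok :=
  (TA x)[(u.drop ((T1 x).findIdx (fun t => decide (t = (Sym.var, y))) * x.length)).findIdx
    (fun b => b)]?

/-- Value of a name under the guessed assignment. -/
def valv (y : Name) : Bool :=
  match v[(TA x).findIdx (fun t => decide (t = (Sym.var, y)))]? with
  | none => false
  | some b => b

def val1 (y : Name) : Bool :=
  match rho x u y with
  | none => false
  | some t => valv x v t.2

def isOne (o : Option (List Bool)) : Bool :=
  match o with
  | none => false
  | some r => decide (r.length = 1)

def ok0 : Bool :=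
  decide (x = (w1 x).map Sum.inl ++ (w2 x).map Sum.inr) &&
  ((tokz (w1 x)).1.isEmpty && ((tokz (w2 x)).1.isEmpty &&
    (isOne (erun (fun _ => false) (T1 x)) && isOne (erun (fun _ => false) (T2 x)))))

def isVarO (o : Option Tok) : Bool :=
  match o with
  | none => false
  | some t => decide (t.1 = Sym.var)

def ok1 : Bool :=
  (T1 x).all fun t => !decide (t.1 = Sym.var) || isVarO (rho x u t.2)

def ok2 : Bool :=
  (T1 x).all fun t => (T1 x).all fun t' =>
    !(decide (t.1 = Sym.var) && (decide (t'.1 = Sym.var) &&
      decide (rho x u t.2 = rho x u t'.2))) || decide (t.2 = t'.2)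

def ok3 : Bool :=
  !decide (erun (val1 x u v) (T1 x) = some [true]) || decide (erun (valv x v) (T2 x) = some [true])

/-- The verifier. -/
def verif (t : List (Sym ⊕ Sym) × List Bool × List Bool) : Bool :=
  ok0 t.1 && (ok1 t.1 t.2.1 && (ok2 t.1 t.2.1 && ok3 t.1 t.2.1 t.2.2))

end verifier

theorem w1_pair (a b : List Sym) : w1 (a.map Sum.inl ++ b.map Sum.inr) = a := by
  simp only [w1, List.filterMap_append, List.filterMap_map]
  have h1 : List.filterMap ((fun s : Sym ⊕ Sym => match s with
    | .inl a => some a
    | .inr _ => none) ∘ Sum.inl) a = a := by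
    induction a with
    | nil => rfl
    | cons c a ih => simpa [List.filterMap_cons] using ih
  have h2 : List.filterMap ((fun s : Sym ⊕ Sym => match s with
    | .inl a => some a
    | .inr _ => none) ∘ Sum.inr) b = [] := by
    induction b with
    | nil => rfl
    | cons c b ih => simpa [List.filterMap_cons] using ih
  rw [h1, h2, List.append_nil]

theorem w2_pair (a b : List Sym) : w2 (a.map Sum.inl ++ b.map Sum.inr) = b := by
  simp only [w2, List.filterMap_append, List.filterMap_map]
  have h1 : List.filterMap ((fun s : Sym ⊕ Sym => match s with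
    | .inl _ => none
    | .inr a => some a) ∘ Sum.inl) a = [] := by
    induction a with
    | nil => rfl
    | cons c a ih => simpa [List.filterMap_cons] using ih
  have h2 : List.filterMap ((fun s : Sym ⊕ Sym => match s with
    | .inl _ => none
    | .inr a => some a) ∘ Sum.inr) b = b := by
    induction b with
    | nil => rfl
    | cons c b ih => simpa [List.filterMap_cons] using ih
  rw [h1, h2, List.nil_append]

theorem ok0_spec (x : List (Sym ⊕ Sym)) : ok0 x = true ↔
    ∃ φ ψ : Fml Name, x = φ.code.map Sum.inl ++ ψ.code.map Sum.inr := by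
  constructor
  · intro h
    simp only [ok0, Bool.and_eq_true, decide_eq_true_eq] at h
    obtain ⟨h1, h2, h3, h4, h5⟩ := h
    have key : ∀ w : List Sym, (tokz w).1.isEmpty = true →
        isOne (erun (fun _ => false) (tokz w).2) = true → ∃ f : Fml Name, w = f.code := by
      intro w hw1 hw2
      cases he : erun (fun _ => false) (tokz w).2 with
      | none => rw [he] at hw2; simp [isOne] at hw2
      | some r =>
        rw [he] at hw2
        simp only [isOne, decide_eq_true_eq] at hw2
        obtain ⟨f, hf⟩ := erun_one he hw2
        refine ⟨f, ?_⟩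
        have := flat_tokz w
        rw [hf, flat_toks, List.isEmpty_iff.1 hw1] at this
        simpa using this.symm
    obtain ⟨φ, hφ⟩ := key _ h2 h4
    obtain ⟨ψ, hψ⟩ := key _ h3 h5
    exact ⟨φ, ψ, by rw [← hφ, ← hψ]; exact h1⟩
  · rintro ⟨φ, ψ, h⟩
    have e1 : w1 x = φ.code := by rw [h]; exact w1_pair _ _
    have e2 : w2 x = ψ.code := by rw [h]; exact w2_pair _ _
    simp only [ok0, Bool.and_eq_true, decide_eq_true_eq, T1, T2, e1, e2, tokz_code']
    refine ⟨h, by simp, by simp, ?_, ?_⟩
    · rw [erun_toks']; simp [isOne]
    · rw [erun_toks']; simp [isOne]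

section spec

variable {x : List (Sym ⊕ Sym)} {φ ψ : Fml Name}

theorem T1_eq (hx : x = φ.code.map Sum.inl ++ ψ.code.map Sum.inr) : T1 x = φ.toks := by
  rw [T1, hx, w1_pair, tokz_code']

theorem T2_eq (hx : x = φ.code.map Sum.inl ++ ψ.code.map Sum.inr) : T2 x = ψ.toks := by
  rw [T2, hx, w2_pair, tokz_code']

theorem TA_len (hx : x = φ.code.map Sum.inl ++ ψ.code.map Sum.inr) :
    (TA x).length ≤ x.length := by
  rw [TA, T1_eq hx, T2_eq hx, List.length_append]
  have h1 := tokz_length φ.code
  have h2 := tokz_length ψ.code
  rw [tokz_code'] at h1 h2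
  have h3 : x.length = φ.code.length + ψ.code.length := by rw [hx]; simp
  simp only at h1 h2
  omega

theorem mem_TA (hx : x = φ.code.map Sum.inl ++ ψ.code.map Sum.inr) (y : Name) :
    (Sym.var, y) ∈ TA x ↔ y ∈ φ.vars ∪ ψ.vars := by
  rw [TA, T1_eq hx, T2_eq hx, List.mem_append, mem_toks, mem_toks]
  rfl

/-- The assignment guessed by `v`. -/
theorem valv_spec (hx : x = φ.code.map Sum.inl ++ ψ.code.map Sum.inr) (a : Name → Bool) :
    ∃ v : List Bool, v.length = x.length ^ 2 ∧ ∀ y ∈ φ.vars ∪ ψ.vars, valv x v y = a y := by
  refine ⟨(List.range (x.length ^ 2)).map fun k => match (TA x)[k]? with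
    | none => false
    | some t => a t.2, by simp, fun y hy => ?_⟩
  have hmem := (mem_TA hx y).2 hy
  set k := (TA x).findIdx (fun t => decide (t = (Sym.var, y))) with hk
  have hlt : k < (TA x).length := by
    rw [hk, List.findIdx_lt_length]
    exact ⟨_, hmem, by simp⟩
  have hget : (TA x)[k] = (Sym.var, y) := by
    have := List.findIdx_getElem (p := fun t => decide (t = (Sym.var, y))) (xs := TA x)
      (w := by rw [← hk]; exact hlt)
    simpa using this
  have hlt2 : k < x.length ^ 2 := by
    have := TA_len hx
    have h1 : x.length ≤ x.length ^ 2 := Nat.le_self_pow (by norm_num) _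
    omega
  unfold valv
  rw [← hk]
  simp only [List.getElem?_map, List.getElem?_range hlt2, Option.map_some,
    List.getElem?_eq_getElem hlt, hget]

/-- The permutation guessed by `u`. -/
theorem rho_spec (hx : x = φ.code.map Sum.inl ++ ψ.code.map Sum.inr) (π : Name → Name)
    (hπ : ∀ y ∈ φ.vars, π y ∈ φ.vars ∪ ψ.vars) :
    ∃ u : List Bool, u.length = x.length ^ 2 ∧ ∀ y ∈ φ.vars, rho x u y = some (Sym.var, π y) := by
  set N := x.length with hN
  let tgt : ℕ → ℕ := fun i => match (T1 x)[i]? with
    | none => 0
    | some t => (TA x).findIdx (fun t' => decide (t' = (Sym.var, π t.2)))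
  refine ⟨(List.range (N ^ 2)).map fun p => decide (p % N = tgt (p / N)), by simp,
    fun y hy => ?_⟩
  set u := (List.range (N ^ 2)).map fun p => decide (p % N = tgt (p / N)) with hu
  have hmem1 : (Sym.var, y) ∈ T1 x := by rw [T1_eq hx, mem_toks]; exact hy
  set i := (T1 x).findIdx (fun t => decide (t = (Sym.var, y))) with hi
  have hi1 : i < (T1 x).length := by
    rw [hi, List.findIdx_lt_length]
    exact ⟨_, hmem1, by simp⟩
  have hget1 : (T1 x)[i] = (Sym.var, y) := by
    have := List.findIdx_getElem (p := fun t => decide (t = (Sym.var, y))) (xs := T1 x)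
      (w := by rw [← hi]; exact hi1)
    simpa using this
  have hmem2 := (mem_TA hx (π y)).2 (hπ y hy)
  set j := (TA x).findIdx (fun t => decide (t = (Sym.var, π y))) with hj
  have hj1 : j < (TA x).length := by
    rw [hj, List.findIdx_lt_length]
    exact ⟨_, hmem2, by simp⟩
  have hget2 : (TA x)[j] = (Sym.var, π y) := by
    have := List.findIdx_getElem (p := fun t => decide (t = (Sym.var, π y))) (xs := TA x)
      (w := by rw [← hj]; exact hj1)
    simpa using this
  have hTA := TA_len hx
  have hiN : i < N := by
    have : (T1 x).length ≤ (TA x).length := by simp [TA]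
    omega
  have hjN : j < N := by omega
  have htgt : tgt i = j := by
    simp only [tgt, List.getElem?_eq_getElem hi1, hget1]
    rfl
  have hlen : (u.drop (i * N)).length = N ^ 2 - i * N := by simp [hu]
  have hbig : i * N + N ≤ N ^ 2 := by
    have : (i + 1) * N ≤ N * N := Nat.mul_le_mul_right _ hiN
    nlinarith
  have hent : ∀ k < N, ∀ (h : k < (u.drop (i * N)).length), (u.drop (i * N))[k] = decide (k = j) := by
    intro k hk h
    rw [List.getElem_drop]
    simp only [hu, List.getElem_map, List.getElem_range]
    have h1 : (i * N + k) % N = k := by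
      rw [Nat.mul_comm, Nat.mul_add_mod, Nat.mod_eq_of_lt hk]
    have h2 : (i * N + k) / N = i := by
      rw [Nat.mul_comm, Nat.mul_add_div (by omega), Nat.div_eq_of_lt hk, Nat.add_zero]
    rw [h1, h2, htgt]
  have hfind : (u.drop (i * N)).findIdx (fun b => b) = j := by
    have hjl : j < (u.drop (i * N)).length := by rw [hlen]; omega
    rw [List.findIdx_eq hjl]
    refine ⟨?_, ?_⟩
    · rw [hent j hjN hjl]; simp
    · intro k hk
      rw [hent k (by omega) (by omega)]
      simp; omega
  unfold rho
  rw [← hi, ← hN, hfind, List.getElem?_eq_getElem hj1, hget2]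

theorem ok1_spec (hx : x = φ.code.map Sum.inl ++ ψ.code.map Sum.inr) (u : List Bool) :
    ok1 x u = true ↔ ∀ y ∈ φ.vars, ∃ y', rho x u y = some (Sym.var, y') := by
  simp only [ok1, List.all_eq_true, Bool.or_eq_true, Bool.not_eq_true', decide_eq_false_iff_not,
    T1_eq hx]
  constructor
  · intro h y hy
    have h1 := h (Sym.var, y) ((mem_toks φ y).2 hy)
    simp only [not_true_eq_false, false_or] at h1
    cases hr : rho x u y with
    | none => rw [hr] at h1; simp [isVarO] at h1
    | some t =>
      rw [hr] at h1
      simp only [isVarO, decide_eq_true_eq] at h1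
      exact ⟨t.2, by rw [← h1]⟩
  · rintro h ⟨s, y⟩ ht
    by_cases hs : s = Sym.var
    · subst hs
      right
      obtain ⟨y', hy'⟩ := h y ((mem_toks φ y).1 ht)
      simp [hy', isVarO]
    · left; exact hs

theorem ok2_spec (hx : x = φ.code.map Sum.inl ++ ψ.code.map Sum.inr) (u : List Bool) :
    ok2 x u = true ↔ ∀ y ∈ φ.vars, ∀ y' ∈ φ.vars, rho x u y = rho x u y' → y = y' := by
  simp only [ok2, List.all_eq_true, T1_eq hx, Bool.or_eq_true, Bool.not_eq_true',
    Bool.and_eq_false_iff, decide_eq_false_iff_not, decide_eq_true_eq]
  constructor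
  · intro h y hy y' hy' hr
    have := h (Sym.var, y) ((mem_toks φ y).2 hy) (Sym.var, y') ((mem_toks φ y').2 hy')
    simpa [hr] using this
  · rintro h ⟨s, y⟩ ht ⟨s', y'⟩ ht'
    by_cases hs : s = Sym.var
    · by_cases hs' : s' = Sym.var
      · subst hs hs'
        by_cases hr : rho x u y = rho x u y'
        · right
          exact h y ((mem_toks φ y).1 ht) y' ((mem_toks φ y').1 ht') hr
        · left; right; right; exact hr
      · left; right; left; exact hs'
    · left; left; exact hs

theorem ok3_spec (hx : x = φ.code.map Sum.inl ++ ψ.code.map Sum.inr) (u v : List Bool) :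
    ok3 x u v = true ↔ (φ.eval (val1 x u v) = true → ψ.eval (valv x v) = true) := by
  simp only [ok3, T1_eq hx, T2_eq hx, erun_toks', Option.some.injEq, List.cons.injEq, and_true,
    Bool.or_eq_true, Bool.not_eq_true', decide_eq_false_iff_not, decide_eq_true_eq]
  tauto

theorem vars_finite (f : Fml Name) : f.vars.Finite := by
  induction f with
  | var x => exact Set.finite_singleton x
  | neg f ih => exact ih
  | and f g ihf ihg => exact ihf.union ihg
  | or f g ihf ihg => exact ihf.union ihg

/-- Extension of an injection to a permutation. -/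
theorem exists_perm (Y X : Set Name) (hX : X.Finite) (hYX : Y ⊆ X) (f : Name → Name)
    (hf : ∀ y ∈ Y, f y ∈ X) (hinj : ∀ y ∈ Y, ∀ y' ∈ Y, f y = f y' → y = y') :
    ∃ π : Equiv.Perm Name, (∀ y ∈ Y, π y = f y) ∧ ∀ y, y ∉ X → π y = y := by
  classical
  let XF : Finset Name := hX.toFinset
  have hXF : ∀ y, y ∈ XF ↔ y ∈ X := fun y => hX.mem_toFinset
  let s : Finset {y // y ∈ XF} := Finset.univ.filter fun y => y.1 ∈ Y
  have hcard : Fintype.card {y // y ∈ XF} = XF.card := Fintype.card_coe XF
  obtain ⟨g, hg⟩ := Finset.exists_equiv_extend_of_card_eq (α := {y // y ∈ XF}) (t := XF) hcard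
    (s := s) (f := fun y => f y.1) (by
      intro z hz
      obtain ⟨y, hy, rfl⟩ := Finset.mem_image.1 hz
      exact (hXF _).2 (hf _ (Finset.mem_filter.1 hy).2)) (by
      intro y hy y' hy' h
      have h1 := (Finset.mem_filter.1 (Finset.mem_coe.1 hy)).2
      have h2 := (Finset.mem_filter.1 (Finset.mem_coe.1 hy')).2
      exact Subtype.ext (hinj _ h1 _ h2 h))
  let p : Equiv.Perm {y // y ∈ XF} := g
  refine ⟨Equiv.Perm.ofSubtype p, fun y hy => ?_, fun y hy => ?_⟩
  · have hyX : y ∈ XF := (hXF y).2 (hYX hy)
    rw [Equiv.Perm.ofSubtype_apply_of_mem p hyX]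
    exact hg ⟨y, hyX⟩ (Finset.mem_filter.2 ⟨Finset.mem_univ _, hy⟩)
  · exact Equiv.Perm.ofSubtype_apply_of_not_mem p (fun h => hy ((hXF y).1 h))

end spec

/-- Correctness of the verifier. -/
theorem verif_spec (x : List (Sym ⊕ Sym)) : x ∈ ISO_IMP ↔
    ∃ u : List Bool, u.length = x.length ^ 2 ∧
      ∀ v : List Bool, v.length = x.length ^ 2 → verif (x, u, v) = true := by
  constructor
  · rintro ⟨φ, ψ, hx, π, hπ, himp⟩
    have hπX : ∀ y ∈ φ.vars, π y ∈ φ.vars ∪ ψ.vars := by
      intro y hy
      by_contra hcon
      have h1 := hπ _ hcon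
      have h2 : π y = y := π.injective h1
      rw [h2] at hcon
      exact hcon (Or.inl hy)
    obtain ⟨u, hu, hρ⟩ := rho_spec hx π hπX
    refine ⟨u, hu, fun v hv => ?_⟩
    simp only [verif, Bool.and_eq_true]
    refine ⟨(ok0_spec x).2 ⟨φ, ψ, hx⟩, ?_, ?_, ?_⟩
    · rw [ok1_spec hx]
      intro y hy
      exact ⟨_, hρ y hy⟩
    · rw [ok2_spec hx]
      intro y hy y' hy' h
      rw [hρ y hy, hρ y' hy'] at h
      simp only [Option.some.injEq, Prod.mk.injEq, true_and] at h
      exact π.injective h
    · rw [ok3_spec hx]
      intro h
      apply himp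
      rw [Fml.eval_rename]
      rw [← h]
      apply Fml.eval_congr
      intro y hy
      simp only [val1, hρ y hy]
  · rintro ⟨u, hu, huv⟩
    have hv0 := huv (List.replicate (x.length ^ 2) false) (by simp)
    simp only [verif, Bool.and_eq_true] at hv0
    obtain ⟨h0, h1, h2, _⟩ := hv0
    obtain ⟨φ, ψ, hx⟩ := (ok0_spec x).1 h0
    rw [ok1_spec hx] at h1
    rw [ok2_spec hx] at h2
    choose! f hf using h1
    have hfX : ∀ y ∈ φ.vars, f y ∈ φ.vars ∪ ψ.vars := by
      intro y hy
      rw [← mem_TA hx]
      have := hf y hy
      unfold rho at this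
      exact List.mem_of_getElem? this
    obtain ⟨π, hπ1, hπ2⟩ := exists_perm φ.vars (φ.vars ∪ ψ.vars)
      ((vars_finite φ).union (vars_finite ψ)) (fun y hy => Or.inl hy) f hfX (by
        intro y hy y' hy' h
        exact h2 y hy y' hy' (by rw [hf y hy, hf y' hy', h]))
    refine ⟨φ, ψ, hx, π, hπ2, fun a ha => ?_⟩
    obtain ⟨v, hv, hval⟩ := valv_spec hx a
    have h3 := huv v hv
    simp only [verif, Bool.and_eq_true] at h3
    have h4 := (ok3_spec hx u v).1 h3.2.2.2
    have h5 : φ.eval (val1 x u v) = true := by
      rw [Fml.eval_rename] at ha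
      rw [← ha]
      apply Fml.eval_congr
      intro y hy
      simp only [val1, hf y hy]
      rw [hval _ (hfX y hy), hπ1 y hy]
    have h6 := h4 h5
    rw [← h6]
    exact (Fml.eval_congr ψ (fun y hy => hval y (Or.inr hy))).symm

end Pool.Agent.IsoImp
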