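import Pool.Agent.Lib_MP_a1eae6_lc.Memb

/-!
# The verifier runs in polynomial time
-/

set_option linter.unusedSectionVars false
set_option linter.unusedVariables false

namespace Pool.Agent.IsoImp

open Pool.Agent.PT81 Turing Polynomial

noncomputable section

variable {E : Env} {γ α : Type} [Enc E γ] [Enc E α]

theorem Poly.findIdx {f : γ → List α} {p : γ × α → Bool} (hf : Poly E f) (hp : Poly E p) :
    Poly E (fun c => (f c).findIdx (fun a => p (c, a))) := by
  have h := Poly.foldrAdd (b := fun _ => (0 : ℕ))
    (g := fun x : γ × (α × ℕ) => if p (x.1, x.2.1) then 0 else x.2.2 + 1) hf (Poly.const 0)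
    (Poly.ite (hp.comp (Poly.fst.pair (Poly.fst.comp Poly.snd))) (Poly.const 0)
      (Poly.succ (Poly.snd.comp Poly.snd))) 2 (by
      intro c a ha b
      simp only [eval_ofNat]
      cases p (c, a) <;> simp <;> omega)
  refine h.congr fun c => ?_
  beta_reduce
  induction f c with
  | nil => rfl
  | cons a l ih =>
    rw [List.foldr_cons, List.findIdx_cons, ih]
    cases p (c, a) <;> rfl

theorem Poly.drop {f : γ → List α} {i : γ → ℕ} (hf : Poly E f) (hi : Poly E i) :
    Poly E (fun c => (f c).drop (i c)) := by
  obtain ⟨pf, hpf⟩ := hf.bound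
  have key : ∀ (c : γ) (k : ℕ), (fun b : List α => b.tail)^[k] (f c) = (f c).drop k := by
    intro c k
    induction k with
    | zero => rfl
    | succ k ih => rw [Function.iterate_succ_apply', ih]; simp
  have h := Poly.natIter (f := i) (b := f) (g := fun p : γ × List α => p.2.tail) hi hf
    (Poly.tail Poly.snd) pf (by
      intro c k hk
      beta_reduce
      rw [key]
      exact (esz_drop_le _ _).trans (hpf c))
  exact h.congr fun c => key c _

theorem Poly.listCasesF {β : Type} [Enc E β] {f : γ → List α} {g : γ → β}
    {h : γ × (α × List α) → β} (F : γ → β) (hf : Poly E f) (hg : Poly E g) (hh : Poly E h)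
    (h0 : ∀ c, f c = [] → F c = g c) (h1 : ∀ c a l, f c = a :: l → F c = h (c, (a, l))) :
    Poly E F := by
  refine (Poly.listCases hf hg hh).congr fun c => ?_
  beta_reduce
  cases hc : f c with
  | nil => exact (h0 c hc).symm
  | cons a l => exact (h1 c a l hc).symm

theorem Poly.optCasesF {β : Type} [Enc E β] {f : γ → Option α} {g : γ → β}
    {h : γ × α → β} (F : γ → β) (hf : Poly E f) (hg : Poly E g) (hh : Poly E h)
    (h0 : ∀ c, f c = none → F c = g c) (h1 : ∀ c a, f c = some a → F c = h (c, a)) :
    Poly E F := by
  refine (Poly.optCases hf hg hh).congr fun c => ?_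
  beta_reduce
  cases hc : f c with
  | none => exact (h0 c hc).symm
  | some a => exact (h1 c a hc).symm

theorem fin_bound (F : Type) [Fintype F] [Enc E F] : ∃ B : ℕ, ∀ x : F, esz E x ≤ B := by
  classical
  exact ⟨Finset.univ.sup fun x : F => esz E x, fun x =>
    Finset.le_sup (f := fun x : F => esz E x) (Finset.mem_univ x)⟩

theorem poly_tstep (s : Sym) : Poly E (fun st : List Bool × List Tok => tstep s st) := by
  cases s with
  | bit b => exact Poly.pair (Poly.cons (Poly.const b) Poly.fst) Poly.snd
  | var => exact Poly.pair (Poly.const []) (Poly.cons (Poly.pair (Poly.const _) Poly.fst) Poly.snd)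
  | neg => exact Poly.pair (Poly.const []) (Poly.cons (Poly.pair (Poly.const _) Poly.fst) Poly.snd)
  | and => exact Poly.pair (Poly.const []) (Poly.cons (Poly.pair (Poly.const _) Poly.fst) Poly.snd)
  | or => exact Poly.pair (Poly.const []) (Poly.cons (Poly.pair (Poly.const _) Poly.fst) Poly.snd)

theorem poly_tokz {f : γ → List Sym} (hf : Poly E f) : Poly E (fun c => tokz (f c)) := by
  obtain ⟨B, hB⟩ := fin_bound (E := E) Sym
  have h0 : Poly E (fun p : (List Bool × List Tok) × Sym => tstep p.2 p.1) :=
    Poly.finCase (f := fun p : (List Bool × List Tok) × Sym => tstep p.2 p.1) poly_tstep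
  have h := Poly.foldrAdd (b := fun _ => (([], []) : List Bool × List Tok))
    (g := fun x : γ × (Sym × (List Bool × List Tok)) => tstep x.2.1 x.2.2) hf (Poly.const _)
    (h0.comp (Poly.pair (Poly.snd.comp Poly.snd) (Poly.fst.comp Poly.snd))) (C (B + 5)) (by
      intro c s hs st
      have h1 := hB s
      simp only [eval_C]
      obtain ⟨x, T⟩ := st
      cases s with
      | bit b =>
        have := esz_bool (E := E) b
        simp only [tstep, esz_prod, esz_cons]
        omega
      | var => simp only [tstep, esz_prod, esz_cons, esz_nil]; omega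
      | neg => simp only [tstep, esz_prod, esz_cons, esz_nil]; omega
      | and => simp only [tstep, esz_prod, esz_cons, esz_nil]; omega
      | or => simp only [tstep, esz_prod, esz_cons, esz_nil]; omega)
  exact h

theorem poly_estep (t : Sym × Bool × Bool) :
    Poly E (fun st : Option (List Bool) => estep t st) := by
  obtain ⟨s, b, e⟩ := t
  have hnone : Poly E (fun st : Option (List Bool) => (none : Option (List Bool))) :=
    Poly.const none
  have hbin : ∀ (op : Bool → Bool → Bool),
      (∀ f g : ((Option (List Bool) × List Bool) × (Bool × List Bool)) × (Bool × List Bool) →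
        Bool, Poly E f → Poly E g → Poly E fun c => op (f c) (g c)) →
      ∀ F : Option (List Bool) → Option (List Bool),
      F none = none → F (some []) = none → (∀ x, F (some [x]) = none) →
      (∀ x y r, F (some (x :: y :: r)) = some (op x y :: r)) → Poly E F := by
    intro op hop F h1 h2 h3 h4
    have k2 : Poly E (fun q : (Option (List Bool) × List Bool) × (Bool × List Bool) =>
        F (some (q.2.1 :: q.2.2))) :=
      Poly.listCasesF
        (f := fun q : (Option (List Bool) × List Bool) × (Bool × List Bool) => q.2.2)
        (h := fun z : ((Option (List Bool) × List Bool) × (Bool × List Bool)) ×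
          (Bool × List Bool) => some (op z.1.2.1 z.2.1 :: z.2.2))
        _ (Poly.snd.comp Poly.snd) (Poly.const none)
        (Poly.osome (Poly.cons (hop _ _ (Poly.fst.comp (Poly.snd.comp Poly.fst))
          (Poly.fst.comp Poly.snd)) (Poly.snd.comp Poly.snd)))
        (fun c hc => by rw [hc, h3])
        (fun c a l hc => by rw [hc, h4])
    have k1 : Poly E (fun p : Option (List Bool) × List Bool => F (some p.2)) :=
      Poly.listCasesF (f := fun p : Option (List Bool) × List Bool => p.2) _ Poly.snd
        (Poly.const none) k2
        (fun c hc => by rw [hc, h2])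
        (fun c a l hc => by rw [hc])
    exact Poly.optCasesF (f := fun st : Option (List Bool) => st) _ Poly.id hnone k1
      (fun c hc => by rw [hc, h1])
      (fun c a hc => by rw [hc])
  cases s with
  | bit c => exact hnone.congr fun st => by simp [estep]
  | var =>
    exact Poly.optCasesF (f := fun st : Option (List Bool) => st)
      (h := fun p : Option (List Bool) × List Bool => some (b :: p.2)) _ Poly.id hnone
      (Poly.osome (Poly.cons (Poly.const b) Poly.snd))
      (fun c hc => by rw [hc]; rfl)
      (fun c a hc => by rw [hc]; rfl)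
  | neg =>
    cases e with
    | false => exact hnone.congr fun st => by simp [estep]
    | true =>
      have h1 : Poly E (fun p : Option (List Bool) × List Bool =>
          estep (.neg, b, true) (some p.2)) :=
        Poly.listCasesF (f := fun p : Option (List Bool) × List Bool => p.2)
          (h := fun q : (Option (List Bool) × List Bool) × (Bool × List Bool) =>
            some ((!q.2.1) :: q.2.2)) _ Poly.snd
          (Poly.const none)
          (Poly.osome (Poly.cons (Poly.not (Poly.fst.comp Poly.snd)) (Poly.snd.comp Poly.snd)))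
          (fun c hc => by rw [hc]; rfl)
          (fun c a l hc => by rw [hc]; rfl)
      exact Poly.optCasesF (f := fun st : Option (List Bool) => st) _ Poly.id hnone h1
        (fun c hc => by rw [hc]; rfl)
        (fun c a hc => by rw [hc])
  | and =>
    cases e with
    | false => exact hnone.congr fun st => by simp [estep]
    | true =>
      exact hbin (fun x y => x && y) (fun f g hf hg => Poly.and hf hg) _ rfl rfl
        (fun x => rfl) (fun x y r => rfl)
  | or =>
    cases e with
    | false => exact hnone.congr fun st => by simp [estep]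
    | true =>
      exact hbin (fun x y => x || y) (fun f g hf hg => Poly.or hf hg) _ rfl rfl
        (fun x => rfl) (fun x y r => rfl)

theorem estep_size (t : Sym × Bool × Bool) (st : Option (List Bool)) :
    esz E (estep t st) ≤ esz E st + 5 := by
  have hb : ∀ b : Bool, 1 ≤ esz E b := fun b => esz_pos b
  have hb' : ∀ b : Bool, esz E b ≤ 3 := fun b => esz_bool b
  obtain ⟨s, b, e⟩ := t
  cases s with
  | bit c => simp [estep]
  | var =>
    cases st with
    | none => simp [estep]
    | some r =>
      have := hb' b
      simp only [estep, esz_some, esz_cons]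
      omega
  | neg =>
    cases e with
    | false => simp [estep]
    | true =>
      cases st with
      | none => simp [estep]
      | some r =>
        cases r with
        | nil => simp [estep]
        | cons x r =>
          have := hb' (!x)
          have := hb x
          simp only [estep, esz_some, esz_cons]
          omega
  | and =>
    cases e with
    | false => simp [estep]
    | true =>
      cases st with
      | none => simp [estep]
      | some r =>
        cases r with
        | nil => simp [estep]
        | cons x r =>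
          cases r with
          | nil => simp [estep]
          | cons y r =>
            have := hb' (x && y)
            have := hb x
            simp only [estep, esz_some, esz_cons]
            omega
  | or =>
    cases e with
    | false => simp [estep]
    | true =>
      cases st with
      | none => simp [estep]
      | some r =>
        cases r with
        | nil => simp [estep]
        | cons x r =>
          cases r with
          | nil => simp [estep]
          | cons y r =>
            have := hb' (x || y)
            have := hb x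
            simp only [estep, esz_some, esz_cons]
            omega

theorem poly_erun {T : γ → List Tok} {a : γ × Name → Bool} (hT : Poly E T) (ha : Poly E a) :
    Poly E (fun c => erun (fun y => a (c, y)) (T c)) := by
  have h0 : Poly E (fun p : Option (List Bool) × (Sym × Bool × Bool) => estep p.2 p.1) :=
    Poly.finCase (f := fun p : Option (List Bool) × (Sym × Bool × Bool) => estep p.2 p.1)
      poly_estep
  have h1 : Poly E (fun p : γ × (Tok × Option (List Bool)) =>
      ev (fun y => a (p.1, y)) p.2.1) :=
    Poly.pair (Poly.fst.comp (Poly.fst.comp Poly.snd)) (Poly.pair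
      (ha.comp (Poly.pair Poly.fst (Poly.snd.comp (Poly.fst.comp Poly.snd))))
      (Poly.isEmpty (Poly.snd.comp (Poly.fst.comp Poly.snd))))
  exact Poly.foldrAdd (b := fun _ => (some [] : Option (List Bool)))
    (g := fun p : γ × (Tok × Option (List Bool)) => estep (ev (fun y => a (p.1, y)) p.2.1) p.2.2)
    hT (Poly.const _) (h0.comp (Poly.pair (Poly.snd.comp Poly.snd) h1)) 5 (by
      intro c t ht st
      have := estep_size (E := E) (ev (fun y => a (c, y)) t) st
      simpa using this)

/-! The verifier -/

section verifier

instance : Enc E (Sym ⊕ Sym) := finEnc E (Sym ⊕ Sym)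

variable {x : γ → List (Sym ⊕ Sym)} {u v : γ → List Bool}

theorem poly_w1 (hx : Poly E x) : Poly E (fun c => w1 (x c)) :=
  Poly.filterMap (g := fun p : γ × (Sym ⊕ Sym) => (match p.2 with
    | .inl a => some a
    | .inr _ => none)) hx (Poly.comp₁ (fun s : Sym ⊕ Sym => (match s with
    | .inl a => some a
    | .inr _ => none : Option Sym)) Poly.snd)

theorem poly_w2 (hx : Poly E x) : Poly E (fun c => w2 (x c)) :=
  Poly.filterMap (g := fun p : γ × (Sym ⊕ Sym) => (match p.2 with
    | .inl _ => none
    | .inr a => some a)) hx (Poly.comp₁ (fun s : Sym ⊕ Sym => (match s with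
    | .inl _ => none
    | .inr a => some a : Option Sym)) Poly.snd)

theorem poly_T1 (hx : Poly E x) : Poly E (fun c => T1 (x c)) :=
  Poly.snd.comp (poly_tokz (poly_w1 hx))
theorem poly_T2 (hx : Poly E x) : Poly E (fun c => T2 (x c)) :=
  Poly.snd.comp (poly_tokz (poly_w2 hx))
theorem poly_TA (hx : Poly E x) : Poly E (fun c => TA (x c)) :=
  Poly.append (poly_T1 hx) (poly_T2 hx)

theorem poly_idx {T : γ → List Tok} {y : γ → Name} (hT : Poly E T) (hy : Poly E y) :
    Poly E (fun c => (T c).findIdx (fun t => decide (t = (Sym.var, y c)))) :=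
  Poly.findIdx (p := fun p : γ × Tok => decide (p.2 = (Sym.var, y p.1))) hT
    (Poly.eq Poly.snd (Poly.pair (Poly.const _) (hy.comp Poly.fst)))

theorem poly_rho {y : γ → Name} (hx : Poly E x) (hu : Poly E u) (hy : Poly E y) :
    Poly E (fun c => rho (x c) (u c) (y c)) :=
  Poly.getElem? (poly_TA hx) (Poly.findIdx (p := fun p : γ × Bool => p.2)
    (Poly.drop hu (Poly.mul (poly_idx (poly_T1 hx) hy) (Poly.length hx))) Poly.snd)

theorem poly_valv {y : γ → Name} (hx : Poly E x) (hv : Poly E v) (hy : Poly E y) :
    Poly E (fun c => valv (x c) (v c) (y c)) :=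
  Poly.optCasesF (f := fun c => (v c)[(TA (x c)).findIdx (fun t => decide (t = (Sym.var, y c)))]?)
    (h := fun p : γ × Bool => p.2) _
    (Poly.getElem? hv (poly_idx (poly_TA hx) hy)) (Poly.const false) Poly.snd
    (fun c hc => by rw [valv, hc])
    (fun c a hc => by rw [valv, hc])

theorem poly_val1 {y : γ → Name} (hx : Poly E x) (hu : Poly E u) (hv : Poly E v)
    (hy : Poly E y) : Poly E (fun c => val1 (x c) (u c) (v c) (y c)) :=
  Poly.optCasesF (f := fun c => rho (x c) (u c) (y c))
    (h := fun p : γ × Tok => valv (x p.1) (v p.1) p.2.2) _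
    (poly_rho hx hu hy) (Poly.const false)
    (poly_valv (hx.comp Poly.fst) (hv.comp Poly.fst) (Poly.snd.comp Poly.snd))
    (fun c hc => by rw [val1, hc])
    (fun c a hc => by rw [val1, hc])

theorem poly_isOne {o : γ → Option (List Bool)} (ho : Poly E o) :
    Poly E (fun c => isOne (o c)) :=
  Poly.optCasesF (f := o) (h := fun p : γ × List Bool => decide (p.2.length = 1)) _
    ho (Poly.const false) (Poly.eq (Poly.length Poly.snd) (Poly.const 1))
    (fun c hc => by rw [hc]; rfl)
    (fun c a hc => by rw [hc]; rfl)

theorem poly_ok0 (hx : Poly E x) : Poly E (fun c => ok0 (x c)) := by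
  have h1 : Poly E (fun c => ((w1 (x c)).map Sum.inl ++ (w2 (x c)).map Sum.inr :
      List (Sym ⊕ Sym))) :=
    Poly.append (Poly.map (g := fun p : γ × Sym => (Sum.inl p.2 : Sym ⊕ Sym)) (poly_w1 hx)
      (Poly.comp₁ (fun s : Sym => (Sum.inl s : Sym ⊕ Sym)) Poly.snd))
      (Poly.map (g := fun p : γ × Sym => (Sum.inr p.2 : Sym ⊕ Sym)) (poly_w2 hx)
      (Poly.comp₁ (fun s : Sym => (Sum.inr s : Sym ⊕ Sym)) Poly.snd))
  exact Poly.and (Poly.eq hx h1) (Poly.and (Poly.isEmpty (Poly.fst.comp (poly_tokz (poly_w1 hx))))
    (Poly.and (Poly.isEmpty (Poly.fst.comp (poly_tokz (poly_w2 hx))))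
      (Poly.and (poly_isOne (poly_erun (a := fun _ => false) (poly_T1 hx) (Poly.const false)))
        (poly_isOne (poly_erun (a := fun _ => false) (poly_T2 hx) (Poly.const false))))))

theorem poly_isVarO {o : γ → Option Tok} (ho : Poly E o) : Poly E (fun c => isVarO (o c)) :=
  Poly.optCasesF (f := o) (h := fun p : γ × Tok => decide (p.2.1 = Sym.var)) _
    ho (Poly.const false) (Poly.eq (Poly.fst.comp Poly.snd) (Poly.const _))
    (fun c hc => by rw [hc]; rfl)
    (fun c a hc => by rw [hc]; rfl)

theorem poly_ok1 (hx : Poly E x) (hu : Poly E u) : Poly E (fun c => ok1 (x c) (u c)) :=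
  Poly.all (g := fun p : γ × Tok => !decide (p.2.1 = Sym.var) || isVarO (rho (x p.1) (u p.1) p.2.2))
    (poly_T1 hx) (Poly.or (Poly.not (Poly.eq (Poly.fst.comp Poly.snd) (Poly.const _)))
      (poly_isVarO (poly_rho (hx.comp Poly.fst) (hu.comp Poly.fst) (Poly.snd.comp Poly.snd))))

theorem poly_ok2 (hx : Poly E x) (hu : Poly E u) : Poly E (fun c => ok2 (x c) (u c)) := by
  refine Poly.all (g := fun p : γ × Tok => (T1 (x p.1)).all fun t' =>
    !(decide (p.2.1 = Sym.var) && (decide (t'.1 = Sym.var) &&
      decide (rho (x p.1) (u p.1) p.2.2 = rho (x p.1) (u p.1) t'.2))) || decide (p.2.2 = t'.2))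
    (poly_T1 hx) ?_
  refine Poly.all (g := fun p : (γ × Tok) × Tok => !(decide (p.1.2.1 = Sym.var) &&
      (decide (p.2.1 = Sym.var) &&
      decide (rho (x p.1.1) (u p.1.1) p.1.2.2 = rho (x p.1.1) (u p.1.1) p.2.2))) ||
        decide (p.1.2.2 = p.2.2))
    (poly_T1 (hx.comp Poly.fst)) ?_
  have hxx := hx.comp (Poly.fst.comp (Poly.fst : Poly E (fun p : (γ × Tok) × Tok => p.1)))
  have huu := hu.comp (Poly.fst.comp (Poly.fst : Poly E (fun p : (γ × Tok) × Tok => p.1)))
  exact Poly.or (Poly.not (Poly.and
    (Poly.eq (Poly.fst.comp (Poly.snd.comp Poly.fst)) (Poly.const _))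
    (Poly.and (Poly.eq (Poly.fst.comp Poly.snd) (Poly.const _))
      (Poly.eq (poly_rho hxx huu (Poly.snd.comp (Poly.snd.comp Poly.fst)))
        (poly_rho hxx huu (Poly.snd.comp Poly.snd))))))
    (Poly.eq (Poly.snd.comp (Poly.snd.comp Poly.fst)) (Poly.snd.comp Poly.snd))

theorem poly_ok3 (hx : Poly E x) (hu : Poly E u) (hv : Poly E v) :
    Poly E (fun c => ok3 (x c) (u c) (v c)) :=
  Poly.or (Poly.not (Poly.eq (poly_erun (a := fun p : γ × Name => val1 (x p.1) (u p.1) (v p.1) p.2)
      (poly_T1 hx) (poly_val1 (hx.comp Poly.fst) (hu.comp Poly.fst) (hv.comp Poly.fst) Poly.snd))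
      (Poly.const (some [true]))))
    (Poly.eq (poly_erun (a := fun p : γ × Name => valv (x p.1) (v p.1) p.2)
      (poly_T2 hx) (poly_valv (hx.comp Poly.fst) (hv.comp Poly.fst) Poly.snd))
      (Poly.const (some [true])))

theorem poly_verif (hx : Poly E x) (hu : Poly E u) (hv : Poly E v) :
    Poly E (fun c => verif (x c, u c, v c)) :=
  Poly.and (poly_ok0 hx) (Poly.and (poly_ok1 hx hu) (Poly.and (poly_ok2 hx hu)
    (poly_ok3 hx hu hv)))

end verifier

abbrev G3 : Type := (Sym ⊕ Sym) ⊕ (Bool ⊕ Bool)

instance : Enc E G3 := finEnc E G3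

def pX (l : List G3) : List (Sym ⊕ Sym) := l.filterMap fun s => match s with
  | .inl a => some a
  | .inr _ => none
def pU (l : List G3) : List Bool := l.filterMap fun s => match s with
  | .inl _ => none
  | .inr (.inl b) => some b
  | .inr (.inr _) => none
def pV (l : List G3) : List Bool := l.filterMap fun s => match s with
  | .inl _ => none
  | .inr (.inl _) => none
  | .inr (.inr b) => some b

theorem pX_enc (t : List (Sym ⊕ Sym) × List Bool × List Bool) : pX (enc3 t) = t.1 := by
  obtain ⟨x, u, v⟩ := t
  have h1 : ∀ x : List (Sym ⊕ Sym), pX (x.map Sum.inl) = x := by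
    intro x
    induction x with
    | nil => rfl
    | cons a x ih =>
      rw [List.map_cons]
      exact congrArg (List.cons a) ih
  have h2 : ∀ x : List (Bool ⊕ Bool), pX (x.map Sum.inr) = [] := by
    intro x
    induction x with
    | nil => rfl
    | cons a x ih =>
      rw [List.map_cons]
      exact ih
  have h3 : ∀ a b : List G3, pX (a ++ b) = pX a ++ pX b := fun a b => List.filterMap_append
  have e2 := h2 (u.map Sum.inl)
  have e3 := h2 (v.map Sum.inr)
  rw [List.map_map] at e2 e3
  show pX (x.map Sum.inl ++ (u.map (Sum.inr ∘ Sum.inl) ++ v.map (Sum.inr ∘ Sum.inr))) = x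
  rw [h3, h3, h1, e2, e3]
  simp

theorem pU_enc (t : List (Sym ⊕ Sym) × List Bool × List Bool) : pU (enc3 t) = t.2.1 := by
  obtain ⟨x, u, v⟩ := t
  have h1 : ∀ x : List (Sym ⊕ Sym), pU (x.map Sum.inl) = [] := by
    intro x
    induction x with
    | nil => rfl
    | cons a x ih =>
      rw [List.map_cons]
      exact ih
  have h2 : ∀ x : List Bool, pU (x.map (Sum.inr ∘ Sum.inl)) = x := by
    intro x
    induction x with
    | nil => rfl
    | cons a x ih =>
      rw [List.map_cons]
      exact congrArg (List.cons a) ih
  have h3 : ∀ x : List Bool, pU (x.map (Sum.inr ∘ Sum.inr)) = [] := by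
    intro x
    induction x with
    | nil => rfl
    | cons a x ih =>
      rw [List.map_cons]
      exact ih
  have h4 : ∀ a b : List G3, pU (a ++ b) = pU a ++ pU b := fun a b => List.filterMap_append
  show pU (x.map Sum.inl ++ (u.map (Sum.inr ∘ Sum.inl) ++ v.map (Sum.inr ∘ Sum.inr))) = u
  rw [h4, h4, h1, h2, h3]
  simp

theorem pV_enc (t : List (Sym ⊕ Sym) × List Bool × List Bool) : pV (enc3 t) = t.2.2 := by
  obtain ⟨x, u, v⟩ := t
  have h1 : ∀ x : List (Sym ⊕ Sym), pV (x.map Sum.inl) = [] := by
    intro x
    induction x with
    | nil => rfl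
    | cons a x ih =>
      rw [List.map_cons]
      exact ih
  have h2 : ∀ x : List Bool, pV (x.map (Sum.inr ∘ Sum.inl)) = [] := by
    intro x
    induction x with
    | nil => rfl
    | cons a x ih =>
      rw [List.map_cons]
      exact ih
  have h3 : ∀ x : List Bool, pV (x.map (Sum.inr ∘ Sum.inr)) = x := by
    intro x
    induction x with
    | nil => rfl
    | cons a x ih =>
      rw [List.map_cons]
      exact congrArg (List.cons a) ih
  have h4 : ∀ a b : List G3, pV (a ++ b) = pV a ++ pV b := fun a b => List.filterMap_append
  show pV (x.map Sum.inl ++ (u.map (Sum.inr ∘ Sum.inl) ++ v.map (Sum.inr ∘ Sum.inr))) = v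
  rw [h4, h4, h1, h2, h3]
  simp

theorem member : InSigmaTwo ISO_IMP := by
  classical
  refine ⟨verif, X ^ 2, ?_, fun x => ?_⟩
  · have hX : Poly (io G3 Bool) pX :=
      Poly.filterMap (g := fun p : List G3 × G3 => (match p.2 with
        | .inl a => some a
        | .inr _ => none)) Poly.id (Poly.comp₁ (fun s : G3 => (match s with
        | .inl a => some a
        | .inr _ => none : Option (Sym ⊕ Sym))) Poly.snd)
    have hU : Poly (io G3 Bool) pU :=
      Poly.filterMap (g := fun p : List G3 × G3 => (match p.2 with
        | .inl _ => none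
        | .inr (.inl b) => some b
        | .inr (.inr _) => none)) Poly.id (Poly.comp₁ (fun s : G3 => (match s with
        | .inl _ => none
        | .inr (.inl b) => some b
        | .inr (.inr _) => none : Option Bool)) Poly.snd)
    have hV : Poly (io G3 Bool) pV :=
      Poly.filterMap (g := fun p : List G3 × G3 => (match p.2 with
        | .inl _ => none
        | .inr (.inl _) => none
        | .inr (.inr b) => some b)) Poly.id (Poly.comp₁ (fun s : G3 => (match s with
        | .inl _ => none
        | .inr (.inl _) => none
        | .inr (.inr b) => some b : Option Bool)) Poly.snd)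
    have h := Poly.cons (poly_verif hX hU hV) (Poly.const ([] : List Bool))
    refine poly_toTM2 h _ _ _ fun t => ?_
    have e1 := pX_enc t
    have e2 := pU_enc t
    have e3 := pV_enc t
    show [verif (pX (enc3 t), pU (enc3 t), pV (enc3 t))] = [verif t]
    rw [e1, e2, e3]
  · rw [verif_spec]
    simp only [eval_pow, eval_X]

end

end Pool.Agent.IsoImp
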