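import Pool.Agent.Lib_MP_a1eae6_lc.Tree

/-!
# Polynomial-time functions between encoded types
-/

set_option linter.unusedSectionVars false

namespace Pool.Agent.PT81

open Polynomial

theorem pmono (p : ℕ[X]) {a b : ℕ} (h : a ≤ b) : p.eval a ≤ p.eval b := by
  induction p using Polynomial.induction_on' with
  | add p q hp hq => simpa using add_le_add hp hq
  | monomial n c =>
    simp only [eval_monomial]
    exact Nat.mul_le_mul_left _ (Nat.pow_le_pow_left h n)

/-- The environment: input alphabet, output alphabet, leaf labels. -/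
structure Env where
  G₀ : Type
  G₁ : Type
  A : Type
  [dec : DecidableEq A]
  nil : A

attribute [instance] Env.dec

variable {E : Env} {α β γ δ : Type}

/-- `f` is computed in polynomial time, in the encodings `e₁`, `e₂`. -/
def PT (E : Env) (e₁ : α → Tr E.A) (e₂ : β → Tr E.A) (f : α → β) : Prop :=
  ∃ (c : Cm E.G₀ E.G₁ E.A) (p : ℕ[X]), ∀ a, (e₂ (f a)).sz ≤ p.eval (e₁ a).sz ∧
    ∀ (I : List E.G₀) (O : List E.G₁) (s : List (Sy E.A)) (v : Va E.A), ∃ v',
      Rn c I O v (vec (e₁ a).str s [] []) v' (vec (e₂ (f a)).str s [] []) (p.eval (e₁ a).sz)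

/-- Product encoding. -/
def pe (e₁ : α → Tr E.A) (e₂ : β → Tr E.A) : α × β → Tr E.A := fun x => .node (e₁ x.1) (e₂ x.2)

theorem PT.of_eq {e₁ : α → Tr E.A} {e₂ : β → Tr E.A} {f : α → β} (h : ∀ a, e₂ (f a) = e₁ a) :
    PT E e₁ e₂ f := by
  refine ⟨cskip, X + 1, fun a => ⟨by simp [h], fun I O s v => ⟨v, ?_⟩⟩⟩
  rw [h]
  exact rn_skip.mono (by simp)

theorem PT.congr {e₁ : α → Tr E.A} {e₂ : β → Tr E.A} {f g : α → β} (hf : PT E e₁ e₂ f)
    (h : ∀ a, f a = g a) : PT E e₁ e₂ g := by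
  have : f = g := funext h
  rwa [← this]

theorem PT.id (e : α → Tr E.A) : PT E e e (fun a => a) := PT.of_eq fun _ => rfl

theorem PT.comp {e₁ : α → Tr E.A} {e₂ : β → Tr E.A} {e₃ : γ → Tr E.A} {g : β → γ} {f : α → β}
    (hg : PT E e₂ e₃ g) (hf : PT E e₁ e₂ f) : PT E e₁ e₃ (fun a => g (f a)) := by
  obtain ⟨cf, pf, hf⟩ := hf
  obtain ⟨cg, pg, hg⟩ := hg
  refine ⟨.seq cf cg, pf + pg.comp pf, fun a => ⟨?_, fun I O s v => ?_⟩⟩
  · have h1 := (hg (f a)).1
    have h2 := pmono pg (hf a).1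
    simp only [eval_add, eval_comp]
    omega
  · obtain ⟨v₁, h1⟩ := (hf a).2 I O s v
    obtain ⟨v₂, h2⟩ := (hg (f a)).2 I O s v₁
    refine ⟨v₂, (Rn.seq h1 h2).mono ?_⟩
    have h2 := pmono pg (hf a).1
    simp only [eval_add, eval_comp]
    omega

theorem PT.const (e₁ : α → Tr E.A) (e₂ : β → Tr E.A) (b : β) :
    PT E e₁ e₂ (fun _ => b) := by
  refine ⟨cconst (e₂ b).str, 3 * X + C ((e₂ b).sz) + 3, fun a => ⟨?_, fun I O s v => ⟨_,
    (rn_cconst _ _ _ _).mono ?_⟩⟩⟩
  · simp; omega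
  · simp [Tr.sz]

theorem PT.pair {e₁ : α → Tr E.A} {e₂ : β → Tr E.A} {e₃ : γ → Tr E.A} {f : α → β} {g : α → γ}
    (hf : PT E e₁ e₂ f) (hg : PT E e₁ e₃ g) : PT E e₁ (pe e₂ e₃) (fun a => (f a, g a)) := by
  obtain ⟨cf, pf, hf⟩ := hf
  obtain ⟨cg, pg, hg⟩ := hg
  refine ⟨.seq cdup (.seq cf (.seq cswap (.seq cg ccons))), 13 * X + 17 * pf + pg + 20,
    fun a => ⟨?_, fun I O s v => ?_⟩⟩
  · have h1 := (hf a).1
    have h2 := (hg a).1
    simp only [eval_add, eval_mul, eval_X, eval_ofNat, pe, Tr.sz_node]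
    omega
  · have h1 := (hf a).1
    have h2 := (hg a).1
    obtain ⟨v₁, h3⟩ := (hf a).2 I O ((e₁ a).str.reverse ++ none :: s) (none, v.2)
    obtain ⟨v₂, h4⟩ := (hg a).2 I O ((e₂ (f a)).str.reverse ++ none :: s) (none, v₁.2)
    refine ⟨_, (Rn.seq (rn_cdup _ _ _) (Rn.seq h3 (Rn.seq (rn_cswap _ _ _ _)
      (Rn.seq h4 (rn_ccons _ _ _ _))))).mono ?_⟩
    simp only [eval_add, eval_mul, eval_X, eval_ofNat]
    have : (e₁ a).str.length = (e₁ a).sz := rfl
    omega

theorem PT.fst (e₁ : α → Tr E.A) (e₂ : β → Tr E.A) : PT E (pe e₁ e₂) e₁ (fun x => x.1) := by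
  refine ⟨cfst, 13 * X + 8, fun a => ⟨?_, fun I O s v => ⟨_, (rn_cfst _ _ _ _).mono ?_⟩⟩⟩
  · simp [pe]; omega
  · simp [pe]; omega

theorem PT.snd (e₁ : α → Tr E.A) (e₂ : β → Tr E.A) : PT E (pe e₁ e₂) e₂ (fun x => x.2) := by
  refine ⟨csnd, 13 * X + 8, fun a => ⟨?_, fun I O s v => ⟨_, (rn_csnd _ _ _ _).mono ?_⟩⟩⟩
  · simp [pe]; omega
  · simp [pe]; omega

/-- Boolean encoding. -/
def be (E : Env) (b : Bool) : Tr E.A := bstr E.nil b

/-- Test whether a tree is a node. -/
def Tr.isNode {A : Type} : Tr A → Bool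
  | .leaf _ => false
  | .node _ _ => true

theorem Tr.isNode_be (b : Bool) : (be E b).isNode = b := by
  cases b <;> rfl

/-- Branching on the shape of a computed tree. -/
theorem PT.iteNode {e₁ : α → Tr E.A} {e₂ : β → Tr E.A} {k : α → Tr E.A}
    {f g : α → β} (hk : PT E e₁ (fun t => t) k)
    (hf : PT E (fun a : {a // (k a).isNode = true} => e₁ a) e₂ (fun a => f a))
    (hg : PT E (fun a : {a // (k a).isNode = false} => e₁ a) e₂ (fun a => g a)) :
    PT E e₁ e₂ (fun a => if (k a).isNode then f a else g a) := by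
  obtain ⟨ck, pk, hk⟩ := hk
  obtain ⟨cf, pf, hf⟩ := hf
  obtain ⟨cg, pg, hg⟩ := hg
  have hk' : ∀ a, (k a).sz ≤ pk.eval (e₁ a).sz := fun a => (hk a).1
  refine ⟨.seq cdup (.seq ck (.seq (cpeek 0) (.ite (fun v => decide (v.1 = some (some none)))
    (.seq crest cf) (.seq crest cg)))), 13 * X + 4 * pk + pf + pg + 20,
    fun a => ?_⟩
  have h1 := hk' a
  have hlen : (k a).str.length = (k a).sz := rfl
  have hlen' : (e₁ a).str.length = (e₁ a).sz := rfl
  by_cases h : (k a).isNode = true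
  · simp only [if_pos h]
    have h2 : (e₂ (f a)).sz ≤ pf.eval (e₁ a).sz := (hf ⟨a, h⟩).1
    refine ⟨?_, fun I O s v => ?_⟩
    · simp only [eval_add, eval_mul, eval_X, eval_ofNat]
      omega
    · obtain ⟨v₁, h3⟩ := (hk a).2 I O ((e₁ a).str.reverse ++ none :: s) (none, v.2)
      have h4 := rn_peek0 (I := I) (O := O) (k a).str ((e₁ a).str.reverse ++ none :: s) [] [] v₁
      have h5 := rn_crest (I := I) (O := O) (k a).str (e₁ a) s ((k a).str.head?, v₁.2)
      have h0 := rn_cdup (I := I) (O := O) (e₁ a).str s v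
      obtain ⟨v₂, h6⟩ := (hf ⟨a, h⟩).2 I O s (some none, v₁.2)
      have hh : (k a).str.head? = some (some none) := by
        cases hka : k a with
        | leaf x => rw [hka] at h; simp [Tr.isNode] at h
        | node l r => rfl
      have h7 := Rn.iteT (p := fun v : Va E.A => decide (v.1 = some (some none)))
        (c₂ := .seq crest cg) (by simp [hh]) (Rn.seq h5 h6)
      refine ⟨v₂, (Rn.seq h0 (Rn.seq h3 (Rn.seq h4 h7))).mono ?_⟩
      simp only [eval_add, eval_mul, eval_X, eval_ofNat]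
      omega
  · simp only [if_neg h]
    have h' : (k a).isNode = false := by simpa using h
    have h2 : (e₂ (g a)).sz ≤ pg.eval (e₁ a).sz := (hg ⟨a, h'⟩).1
    refine ⟨?_, fun I O s v => ?_⟩
    · simp only [eval_add, eval_mul, eval_X, eval_ofNat]
      omega
    · obtain ⟨v₁, h3⟩ := (hk a).2 I O ((e₁ a).str.reverse ++ none :: s) (none, v.2)
      have h4 := rn_peek0 (I := I) (O := O) (k a).str ((e₁ a).str.reverse ++ none :: s) [] [] v₁
      have h5 := rn_crest (I := I) (O := O) (k a).str (e₁ a) s ((k a).str.head?, v₁.2)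
      have h0 := rn_cdup (I := I) (O := O) (e₁ a).str s v
      obtain ⟨v₂, h6⟩ := (hg ⟨a, h'⟩).2 I O s (some none, v₁.2)
      have hh : (k a).str.head? ≠ some (some none) := by
        cases hka : k a with
        | leaf x => simp
        | node l r => rw [hka] at h; simp [Tr.isNode] at h
      have h7 := Rn.iteF (p := fun v : Va E.A => decide (v.1 = some (some none)))
        (c₁ := .seq crest cf) (by simp [hh]) (Rn.seq h5 h6)
      refine ⟨v₂, (Rn.seq h0 (Rn.seq h3 (Rn.seq h4 h7))).mono ?_⟩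
      simp only [eval_add, eval_mul, eval_X, eval_ofNat]
      omega

theorem PT.sub {e₁ : α → Tr E.A} {e₂ : β → Tr E.A} {f : α → β} (hf : PT E e₁ e₂ f)
    (P : α → Prop) : PT E (fun a : {a // P a} => e₁ a) e₂ (fun a => f a) := by
  obtain ⟨c, p, h⟩ := hf
  exact ⟨c, p, fun a => h a⟩

/-- Branching on a computed Boolean. -/
theorem PT.ite {e₁ : α → Tr E.A} {e₂ : β → Tr E.A} {k : α → Bool}
    {f g : α → β} (hk : PT E e₁ (be E) k) (hf : PT E e₁ e₂ f) (hg : PT E e₁ e₂ g) :
    PT E e₁ e₂ (fun a => if k a then f a else g a) := by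
  have h1 : PT E e₁ (fun t => t) (fun a => be E (k a)) :=
    PT.comp (PT.of_eq (fun _ => rfl) : PT E (be E) (fun t => t) (fun b => be E b)) hk
  refine (PT.iteNode h1 (hf.sub _) (hg.sub _)).congr ?_
  intro a
  rw [Tr.isNode_be]

/-- Equality test. -/
theorem PT.eqTest {e : α → Tr E.A} [DecidableEq α] (he : Function.Injective e) :
    PT E (pe e e) (be E) (fun x => decide (x.1 = x.2)) := by
  refine ⟨ceq E.nil, 20 * X + 30, fun a => ⟨?_, fun I O s v => ?_⟩⟩
  · have : (be E (decide (a.1 = a.2))).sz ≤ 3 := by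
      cases decide (a.1 = a.2) <;> simp [be, bstr]
    simp only [eval_add, eval_mul, eval_X, eval_ofNat]
    omega
  · obtain ⟨v', h⟩ := rn_ceq (I := I) (O := O) E.nil (e a.1) (e a.2) s v
    refine ⟨v', ?_⟩
    have : decide (e a.1 = e a.2) = decide (a.1 = a.2) := by
      simp [he.eq_iff]
    rw [this] at h
    refine h.mono ?_
    simp [pe]

/-- The loop running `c` once per symbol of a counter. -/
def citer (c : Cm E.G₀ E.G₁ E.A) : Cm E.G₀ E.G₁ E.A :=
  .seq (cpop 0) (.seq takeT (.seq (cpush 1 none) (.seq (mvW 2 1 isS)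
    (.seq (cpeek 1) (.seq (.loop (fun v => isT v.1) (.seq (cpop 1) (.seq c (cpeek 1))))
      (cpop 1))))))

theorem rn_iterLoop {c : Cm E.G₀ E.G₁ E.A} {e : α → Tr E.A} {f : α → α} {B : ℕ}
    (I : List E.G₀) (O : List E.G₁) (s : List (Sy E.A)) (l : List (Sy E.A))
    (hl : ∀ z ∈ l, z ≠ none) (a : α)
    (hc : ∀ k < l.length, ∀ (s : List (Sy E.A)) (v : Va E.A), ∃ v',
      Rn c I O v (vec (e (f^[k] a)).str s [] []) v' (vec (e (f^[k+1] a)).str s [] []) B)
    (v : Va E.A) (hv : v.1 = (l ++ none :: s).head?) :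
    ∃ v', Rn (.loop (fun v => isT v.1) (.seq (cpop 1) (.seq c (cpeek 1)))) I O v
      (vec (e a).str (l ++ none :: s) [] []) v' (vec (e (f^[l.length] a)).str (none :: s) [] [])
      (l.length * (B + 3) + 1) := by
  induction l generalizing a v with
  | nil =>
    refine ⟨v, (Rn.loopDone ?_).mono ?_⟩
    · simp [hv, isT]
    · simp
  | cons z l ih =>
    have hz : z ≠ none := hl z (by simp)
    obtain ⟨v₁, h1⟩ := hc 0 (by simp) (l ++ none :: s) ((z :: l ++ none :: s).head?, v.2)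
    have hb : Rn (.seq (cpop 1) (.seq c (cpeek 1))) I O v
        (vec (e a).str (z :: l ++ none :: s) [] []) ((l ++ none :: s).head?, v₁.2)
        (vec (e (f a)).str (l ++ none :: s) [] []) (1 + (B + 1)) :=
      Rn.seq (rn_pop1 _ _ _ _ _) (Rn.seq h1 (rn_peek1 _ _ _ _ _))
    obtain ⟨v₂, h2⟩ := ih (fun z hz => hl z (List.mem_cons_of_mem _ hz)) (f a)
      (fun k hk s v => by
        have := hc (k+1) (by simpa using hk) s v
        simpa only [Function.iterate_succ_apply] using this)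
      ((l ++ none :: s).head?, v₁.2) rfl
    refine ⟨v₂, ?_⟩
    have h3 := Rn.loopStep (p := fun v : Va E.A => isT v.1) (by
      rw [hv]
      cases z with
      | none => exact absurd rfl hz
      | some z => rfl) hb h2
    have e1 : f^[l.length] (f a) = f^[(z :: l).length] a := by
      simp [Function.iterate_succ_apply]
    rw [e1] at h3
    refine h3.mono ?_
    simp only [List.length_cons]
    ring_nf
    omega

/-- Iteration: the number of iterations is the size of the first component. -/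
theorem PT.iter {ec : δ → Tr E.A} {e : α → Tr E.A} {f : α → α} (hf : PT E e e f)
    (q : ℕ[X]) (hq : ∀ (n : δ) (a : α), ∀ k ≤ (ec n).sz,
      (e (f^[k] a)).sz ≤ q.eval ((ec n).sz + (e a).sz)) :
    PT E (pe ec e) e (fun x => f^[(ec x.1).sz] x.2) := by
  obtain ⟨c, p, hf⟩ := hf
  refine ⟨citer c, q + 20 * X + X * (p.comp q + 3) + 30, fun x => ⟨?_, fun I O s v => ?_⟩⟩
  · have h1 := hq x.1 x.2 _ le_rfl
    have h2 : q.eval ((ec x.1).sz + (e x.2).sz) ≤ q.eval (pe ec e x).sz :=
      pmono q (by simp only [pe, Tr.sz_node]; omega)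
    simp only [eval_add, eval_mul, eval_X, eval_ofNat, eval_comp]
    omega
  · obtain ⟨n, a⟩ := x
    set N := (pe ec e (n, a)).sz with hN
    have hN' : N = 1 + (ec n).sz + (e a).sz := by simp [hN, pe]
    have h1 := rn_pop0 (I := I) (O := O) (pe ec e (n, a)).str s [] [] v
    have h2 := rn_takeT (I := I) (O := O) (ec n) (e a).str s [] ((pe ec e (n,a)).str.head?, v.2)
    have h3 := rn_push1 (I := I) (O := O) none (e a).str s (ec n).str.reverse [] (none, v.2)
    have h4 := rn_mvW21 (I := I) (O := O) isS (ec n).str.reverse [] (isS_all _) rfl (e a).str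
      (none :: s) [] (none, v.2)
    have h5 := rn_peek1 (I := I) (O := O) (e a).str ((ec n).str ++ none :: s) [] [] (none, v.2)
    simp only [List.append_nil, List.reverse_reverse, List.head?_nil, List.length_reverse] at h2 h4
    have hsz : ∀ k ≤ (ec n).sz, (e (f^[k] a)).sz ≤ q.eval N := fun k hk =>
      (hq n a k hk).trans (pmono q (by omega))
    obtain ⟨v₁, h6⟩ := rn_iterLoop (c := c) (e := e) (f := f) (B := p.eval (q.eval N)) I O s
      (ec n).str (fun z hz => (ec n).str_ne z hz) a (fun k hk s v => by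
        obtain ⟨v', h⟩ := (hf (f^[k] a)).2 I O s v
        refine ⟨v', ?_⟩
        rw [Function.iterate_succ_apply']
        exact h.mono (pmono p (hsz k hk.le))) (((ec n).str ++ none :: s).head?, v.2) rfl
    have h7 := rn_pop1 (I := I) (O := O) (e (f^[(ec n).sz] a)).str (none :: s) [] [] v₁
    refine ⟨_, (Rn.seq h1 (Rn.seq h2 (Rn.seq h3 (Rn.seq h4 (Rn.seq h5 (Rn.seq h6 h7)))))).mono ?_⟩
    simp only [eval_add, eval_mul, eval_X, eval_ofNat, eval_comp]
    have e1 : (ec n).str.length = (ec n).sz := rfl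
    have h8 : (ec n).sz * (p.eval (q.eval N) + 3) ≤ N * (p.eval (q.eval N) + 3) :=
      Nat.mul_le_mul_right _ (by omega)
    rw [e1]
    omega

end Pool.Agent.PT81
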