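import Pool.Agent.Lib_MP_a1eae6_lc.Mach

/-!
# Bounded-time runs
-/

set_option linter.unusedSectionVars false

namespace Pool.Agent.PT81

open Function (update)

section

variable {G₀ G₁ A : Type} [DecidableEq A]

/-- The command runs from the first to the second configuration in at most `B` steps. -/
def Rn (c : Cm G₀ G₁ A) (I : List G₀) (O : List G₁) (v : Va A) (R : Fin 4 → List (Sy A))
    (v' : Va A) (R' : Fin 4 → List (Sy A)) (B : ℕ) : Prop :=
  ∃ n ≤ B, Ex c v I O R v' I O R' n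

variable {I : List G₀} {O : List G₁}

theorem Rn.mono {c : Cm G₀ G₁ A} {v v' : Va A} {R R' : Fin 4 → List (Sy A)} {B B' : ℕ}
    (h : Rn c I O v R v' R' B) (hB : B ≤ B') : Rn c I O v R v' R' B' := by
  obtain ⟨n, hn, h⟩ := h
  exact ⟨n, hn.trans hB, h⟩

theorem Rn.seq {c₁ c₂ : Cm G₀ G₁ A} {v₀ v₁ v₂ : Va A}
    {R₀ R₁ R₂ : Fin 4 → List (Sy A)} {B₁ B₂ : ℕ}
    (h₁ : Rn c₁ I O v₀ R₀ v₁ R₁ B₁) (h₂ : Rn c₂ I O v₁ R₁ v₂ R₂ B₂) :
    Rn (.seq c₁ c₂) I O v₀ R₀ v₂ R₂ (B₁ + B₂) := by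
  obtain ⟨n₁, hn₁, h₁⟩ := h₁
  obtain ⟨n₂, hn₂, h₂⟩ := h₂
  exact ⟨n₁ + n₂, add_le_add hn₁ hn₂, Ex.seq h₁ h₂⟩

theorem Rn.iteT {p : Va A → Bool} {c₁ c₂ : Cm G₀ G₁ A} {v v' : Va A}
    {R R' : Fin 4 → List (Sy A)} {B : ℕ} (hp : p v = true)
    (h : Rn c₁ I O v R v' R' B) : Rn (.ite p c₁ c₂) I O v R v' R' (1 + B) := by
  obtain ⟨n, hn, h⟩ := h
  exact ⟨1 + n, by omega, Exec.iteT hp h⟩

theorem Rn.iteF {p : Va A → Bool} {c₁ c₂ : Cm G₀ G₁ A} {v v' : Va A}
    {R R' : Fin 4 → List (Sy A)} {B : ℕ} (hp : p v = false)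
    (h : Rn c₂ I O v R v' R' B) : Rn (.ite p c₁ c₂) I O v R v' R' (1 + B) := by
  obtain ⟨n, hn, h⟩ := h
  exact ⟨1 + n, by omega, Exec.iteF hp h⟩

theorem Rn.loopDone {p : Va A → Bool} {c : Cm G₀ G₁ A} {v : Va A}
    {R : Fin 4 → List (Sy A)} (hp : p v = false) : Rn (.loop p c) I O v R v R 1 :=
  ⟨1, le_rfl, Exec.loopDone hp⟩

theorem Rn.loopStep {p : Va A → Bool} {c : Cm G₀ G₁ A} {v v' v'' : Va A}
    {R R' R'' : Fin 4 → List (Sy A)} {B B' : ℕ} (hp : p v = true)
    (h : Rn c I O v R v' R' B) (h' : Rn (.loop p c) I O v' R' v'' R'' B') :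
    Rn (.loop p c) I O v R v'' R'' (1 + B + B') := by
  obtain ⟨n, hn, h⟩ := h
  obtain ⟨n', hn', h'⟩ := h'
  exact ⟨1 + n + n', by omega, Exec.loopStep hp h h'⟩

theorem rn_skip {R : Fin 4 → List (Sy A)} {v : Va A} : Rn cskip I O v R v R 1 :=
  ⟨1, le_rfl, ex_skip⟩

theorem rn_load (f : Va A → Va A) {R : Fin 4 → List (Sy A)} {v : Va A} :
    Rn (.load f) I O v R (f v) R 1 :=
  ⟨1, le_rfl, Exec.load (Γ := Gam G₀ G₁ A) f v (st I O R)⟩

theorem rn_pop0 (m s x y : List (Sy A)) (v : Va A) :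
    Rn (cpop 0) I O v (vec m s x y) (m.head?, v.2) (vec m.tail s x y) 1 := by
  have := ex_pop (I := I) (O := O) (R := vec m s x y) (v := v) 0
  rw [upd0] at this
  exact ⟨1, le_rfl, this⟩

theorem rn_peek0 (m s x y : List (Sy A)) (v : Va A) :
    Rn (cpeek 0) I O v (vec m s x y) (m.head?, v.2) (vec m s x y) 1 :=
  ⟨1, le_rfl, ex_peek 0⟩

theorem rn_push0 (z : Sy A) (m s x y : List (Sy A)) (v : Va A) :
    Rn (cpush 0 z) I O v (vec m s x y) v (vec (z :: m) s x y) 1 := by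
  have := ex_push (I := I) (O := O) (R := vec m s x y) (v := v) 0 z
  rw [upd0] at this
  exact ⟨1, le_rfl, this⟩

theorem rn_put0 (m s x y : List (Sy A)) (v : Va A) :
    Rn (cput 0) I O v (vec m s x y) v (vec (v.1.getD none :: m) s x y) 1 := by
  have := ex_put (I := I) (O := O) (R := vec m s x y) (v := v) 0
  rw [upd0] at this
  exact ⟨1, le_rfl, this⟩

theorem rn_pushStr0 (l : List (Sy A)) (m s x y : List (Sy A)) (v : Va A) :
    Rn (pushStr 0 l) I O v (vec m s x y) v (vec (l ++ m) s x y) (l.length + 1) := by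
  have := ex_pushStr (I := I) (O := O) (v := v) 0 l (vec m s x y)
  rw [upd0] at this
  exact ⟨_, le_rfl, this⟩

theorem rn_drW0 (p : Option (Sy A) → Bool) (l r : List (Sy A))
    (hl : ∀ z ∈ l, p (some z) = true) (hr : p r.head? = false) (s x y : List (Sy A)) (v : Va A) :
    Rn (drW 0 p) I O v (vec (l ++ r) s x y) (r.head?, v.2) (vec r s x y)
      (3 * l.length + 2) := by
  have := ex_drW (I := I) (O := O) 0 p l r hl hr v (vec (l ++ r) s x y) rfl
  rw [upd0] at this
  exact ⟨_, le_rfl, this⟩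

theorem rn_pop1 (m s x y : List (Sy A)) (v : Va A) :
    Rn (cpop 1) I O v (vec m s x y) (s.head?, v.2) (vec m s.tail x y) 1 := by
  have := ex_pop (I := I) (O := O) (R := vec m s x y) (v := v) 1
  rw [upd1] at this
  exact ⟨1, le_rfl, this⟩

theorem rn_peek1 (m s x y : List (Sy A)) (v : Va A) :
    Rn (cpeek 1) I O v (vec m s x y) (s.head?, v.2) (vec m s x y) 1 :=
  ⟨1, le_rfl, ex_peek 1⟩

theorem rn_push1 (z : Sy A) (m s x y : List (Sy A)) (v : Va A) :
    Rn (cpush 1 z) I O v (vec m s x y) v (vec m (z :: s) x y) 1 := by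
  have := ex_push (I := I) (O := O) (R := vec m s x y) (v := v) 1 z
  rw [upd1] at this
  exact ⟨1, le_rfl, this⟩

theorem rn_put1 (m s x y : List (Sy A)) (v : Va A) :
    Rn (cput 1) I O v (vec m s x y) v (vec m (v.1.getD none :: s) x y) 1 := by
  have := ex_put (I := I) (O := O) (R := vec m s x y) (v := v) 1
  rw [upd1] at this
  exact ⟨1, le_rfl, this⟩

theorem rn_pushStr1 (l : List (Sy A)) (m s x y : List (Sy A)) (v : Va A) :
    Rn (pushStr 1 l) I O v (vec m s x y) v (vec m (l ++ s) x y) (l.length + 1) := by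
  have := ex_pushStr (I := I) (O := O) (v := v) 1 l (vec m s x y)
  rw [upd1] at this
  exact ⟨_, le_rfl, this⟩

theorem rn_drW1 (p : Option (Sy A) → Bool) (l r : List (Sy A))
    (hl : ∀ z ∈ l, p (some z) = true) (hr : p r.head? = false) (m x y : List (Sy A)) (v : Va A) :
    Rn (drW 1 p) I O v (vec m (l ++ r) x y) (r.head?, v.2) (vec m r x y)
      (3 * l.length + 2) := by
  have := ex_drW (I := I) (O := O) 1 p l r hl hr v (vec m (l ++ r) x y) rfl
  rw [upd1] at this
  exact ⟨_, le_rfl, this⟩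

theorem rn_pop2 (m s x y : List (Sy A)) (v : Va A) :
    Rn (cpop 2) I O v (vec m s x y) (x.head?, v.2) (vec m s x.tail y) 1 := by
  have := ex_pop (I := I) (O := O) (R := vec m s x y) (v := v) 2
  rw [upd2] at this
  exact ⟨1, le_rfl, this⟩

theorem rn_peek2 (m s x y : List (Sy A)) (v : Va A) :
    Rn (cpeek 2) I O v (vec m s x y) (x.head?, v.2) (vec m s x y) 1 :=
  ⟨1, le_rfl, ex_peek 2⟩

theorem rn_push2 (z : Sy A) (m s x y : List (Sy A)) (v : Va A) :
    Rn (cpush 2 z) I O v (vec m s x y) v (vec m s (z :: x) y) 1 := by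
  have := ex_push (I := I) (O := O) (R := vec m s x y) (v := v) 2 z
  rw [upd2] at this
  exact ⟨1, le_rfl, this⟩

theorem rn_put2 (m s x y : List (Sy A)) (v : Va A) :
    Rn (cput 2) I O v (vec m s x y) v (vec m s (v.1.getD none :: x) y) 1 := by
  have := ex_put (I := I) (O := O) (R := vec m s x y) (v := v) 2
  rw [upd2] at this
  exact ⟨1, le_rfl, this⟩

theorem rn_pushStr2 (l : List (Sy A)) (m s x y : List (Sy A)) (v : Va A) :
    Rn (pushStr 2 l) I O v (vec m s x y) v (vec m s (l ++ x) y) (l.length + 1) := by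
  have := ex_pushStr (I := I) (O := O) (v := v) 2 l (vec m s x y)
  rw [upd2] at this
  exact ⟨_, le_rfl, this⟩

theorem rn_drW2 (p : Option (Sy A) → Bool) (l r : List (Sy A))
    (hl : ∀ z ∈ l, p (some z) = true) (hr : p r.head? = false) (m s y : List (Sy A)) (v : Va A) :
    Rn (drW 2 p) I O v (vec m s (l ++ r) y) (r.head?, v.2) (vec m s r y)
      (3 * l.length + 2) := by
  have := ex_drW (I := I) (O := O) 2 p l r hl hr v (vec m s (l ++ r) y) rfl
  rw [upd2] at this
  exact ⟨_, le_rfl, this⟩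

theorem rn_pop3 (m s x y : List (Sy A)) (v : Va A) :
    Rn (cpop 3) I O v (vec m s x y) (y.head?, v.2) (vec m s x y.tail) 1 := by
  have := ex_pop (I := I) (O := O) (R := vec m s x y) (v := v) 3
  rw [upd3] at this
  exact ⟨1, le_rfl, this⟩

theorem rn_peek3 (m s x y : List (Sy A)) (v : Va A) :
    Rn (cpeek 3) I O v (vec m s x y) (y.head?, v.2) (vec m s x y) 1 :=
  ⟨1, le_rfl, ex_peek 3⟩

theorem rn_push3 (z : Sy A) (m s x y : List (Sy A)) (v : Va A) :
    Rn (cpush 3 z) I O v (vec m s x y) v (vec m s x (z :: y)) 1 := by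
  have := ex_push (I := I) (O := O) (R := vec m s x y) (v := v) 3 z
  rw [upd3] at this
  exact ⟨1, le_rfl, this⟩

theorem rn_put3 (m s x y : List (Sy A)) (v : Va A) :
    Rn (cput 3) I O v (vec m s x y) v (vec m s x (v.1.getD none :: y)) 1 := by
  have := ex_put (I := I) (O := O) (R := vec m s x y) (v := v) 3
  rw [upd3] at this
  exact ⟨1, le_rfl, this⟩

theorem rn_pushStr3 (l : List (Sy A)) (m s x y : List (Sy A)) (v : Va A) :
    Rn (pushStr 3 l) I O v (vec m s x y) v (vec m s x (l ++ y)) (l.length + 1) := by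
  have := ex_pushStr (I := I) (O := O) (v := v) 3 l (vec m s x y)
  rw [upd3] at this
  exact ⟨_, le_rfl, this⟩

theorem rn_drW3 (p : Option (Sy A) → Bool) (l r : List (Sy A))
    (hl : ∀ z ∈ l, p (some z) = true) (hr : p r.head? = false) (m s x : List (Sy A)) (v : Va A) :
    Rn (drW 3 p) I O v (vec m s x (l ++ r)) (r.head?, v.2) (vec m s x r)
      (3 * l.length + 2) := by
  have := ex_drW (I := I) (O := O) 3 p l r hl hr v (vec m s x (l ++ r)) rfl
  rw [upd3] at this
  exact ⟨_, le_rfl, this⟩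

theorem rn_mvW02 (p : Option (Sy A) → Bool) (l r : List (Sy A))
    (hl : ∀ z ∈ l, p (some z) = true) (hr : p r.head? = false) (s x y : List (Sy A)) (v : Va A) :
    Rn (mvW 0 2 p) I O v (vec (l ++ r) s x y) (r.head?, v.2) (vec r s (l.reverse ++ x) y)
      (4 * l.length + 2) := by
  have := ex_mvW (I := I) (O := O) 0 2 (by decide) p l r hl hr v (vec (l ++ r) s x y) rfl
  rw [upd0, upd2] at this
  exact ⟨_, le_rfl, this⟩

theorem rn_mvW20 (p : Option (Sy A) → Bool) (l r : List (Sy A))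
    (hl : ∀ z ∈ l, p (some z) = true) (hr : p r.head? = false) (m s y : List (Sy A)) (v : Va A) :
    Rn (mvW 2 0 p) I O v (vec m s (l ++ r) y) (r.head?, v.2) (vec (l.reverse ++ m) s r y)
      (4 * l.length + 2) := by
  have := ex_mvW (I := I) (O := O) 2 0 (by decide) p l r hl hr v (vec m s (l ++ r) y) rfl
  rw [upd2, upd0] at this
  exact ⟨_, le_rfl, this⟩

theorem rn_mvW10 (p : Option (Sy A) → Bool) (l r : List (Sy A))
    (hl : ∀ z ∈ l, p (some z) = true) (hr : p r.head? = false) (m x y : List (Sy A)) (v : Va A) :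
    Rn (mvW 1 0 p) I O v (vec m (l ++ r) x y) (r.head?, v.2) (vec (l.reverse ++ m) r x y)
      (4 * l.length + 2) := by
  have := ex_mvW (I := I) (O := O) 1 0 (by decide) p l r hl hr v (vec m (l ++ r) x y) rfl
  rw [upd1, upd0] at this
  exact ⟨_, le_rfl, this⟩

theorem rn_mvW23 (p : Option (Sy A) → Bool) (l r : List (Sy A))
    (hl : ∀ z ∈ l, p (some z) = true) (hr : p r.head? = false) (m s y : List (Sy A)) (v : Va A) :
    Rn (mvW 2 3 p) I O v (vec m s (l ++ r) y) (r.head?, v.2) (vec m s r (l.reverse ++ y))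
      (4 * l.length + 2) := by
  have := ex_mvW (I := I) (O := O) 2 3 (by decide) p l r hl hr v (vec m s (l ++ r) y) rfl
  rw [upd2, upd3] at this
  exact ⟨_, le_rfl, this⟩

theorem rn_mvW31 (p : Option (Sy A) → Bool) (l r : List (Sy A))
    (hl : ∀ z ∈ l, p (some z) = true) (hr : p r.head? = false) (m s x : List (Sy A)) (v : Va A) :
    Rn (mvW 3 1 p) I O v (vec m s x (l ++ r)) (r.head?, v.2) (vec m (l.reverse ++ s) x r)
      (4 * l.length + 2) := by
  have := ex_mvW (I := I) (O := O) 3 1 (by decide) p l r hl hr v (vec m s x (l ++ r)) rfl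
  rw [upd3, upd1] at this
  exact ⟨_, le_rfl, this⟩

theorem rn_mvW03 (p : Option (Sy A) → Bool) (l r : List (Sy A))
    (hl : ∀ z ∈ l, p (some z) = true) (hr : p r.head? = false) (s x y : List (Sy A)) (v : Va A) :
    Rn (mvW 0 3 p) I O v (vec (l ++ r) s x y) (r.head?, v.2) (vec r s x (l.reverse ++ y))
      (4 * l.length + 2) := by
  have := ex_mvW (I := I) (O := O) 0 3 (by decide) p l r hl hr v (vec (l ++ r) s x y) rfl
  rw [upd0, upd3] at this
  exact ⟨_, le_rfl, this⟩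

theorem rn_mvW21 (p : Option (Sy A) → Bool) (l r : List (Sy A))
    (hl : ∀ z ∈ l, p (some z) = true) (hr : p r.head? = false) (m s y : List (Sy A)) (v : Va A) :
    Rn (mvW 2 1 p) I O v (vec m s (l ++ r) y) (r.head?, v.2) (vec m (l.reverse ++ s) r y)
      (4 * l.length + 2) := by
  have := ex_mvW (I := I) (O := O) 2 1 (by decide) p l r hl hr v (vec m s (l ++ r) y) rfl
  rw [upd2, upd1] at this
  exact ⟨_, le_rfl, this⟩

theorem rn_mvW01 (p : Option (Sy A) → Bool) (l r : List (Sy A))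
    (hl : ∀ z ∈ l, p (some z) = true) (hr : p r.head? = false) (s x y : List (Sy A)) (v : Va A) :
    Rn (mvW 0 1 p) I O v (vec (l ++ r) s x y) (r.head?, v.2) (vec r (l.reverse ++ s) x y)
      (4 * l.length + 2) := by
  have := ex_mvW (I := I) (O := O) 0 1 (by decide) p l r hl hr v (vec (l ++ r) s x y) rfl
  rw [upd0, upd1] at this
  exact ⟨_, le_rfl, this⟩

theorem rn_mvW12 (p : Option (Sy A) → Bool) (l r : List (Sy A))
    (hl : ∀ z ∈ l, p (some z) = true) (hr : p r.head? = false) (m x y : List (Sy A)) (v : Va A) :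
    Rn (mvW 1 2 p) I O v (vec m (l ++ r) x y) (r.head?, v.2) (vec m r (l.reverse ++ x) y)
      (4 * l.length + 2) := by
  have := ex_mvW (I := I) (O := O) 1 2 (by decide) p l r hl hr v (vec m (l ++ r) x y) rfl
  rw [upd1, upd2] at this
  exact ⟨_, le_rfl, this⟩

theorem rn_mvW2_021 (p : Option (Sy A) → Bool) (l r : List (Sy A))
    (hl : ∀ z ∈ l, p (some z) = true) (hr : p r.head? = false) (s x y : List (Sy A)) (v : Va A) :
    Rn (mvW2 0 2 1 p) I O v (vec (l ++ r) s x y) (r.head?, v.2) (vec r (l.reverse ++ s) (l.reverse ++ x) y)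
      (5 * l.length + 2) := by
  have := ex_mvW2 (I := I) (O := O) 0 2 1 (by decide) (by decide) (by decide) p l r hl hr v
    (vec (l ++ r) s x y) rfl
  rw [upd0, upd2, upd1] at this
  exact ⟨_, le_rfl, this⟩

end

end Pool.Agent.PT81
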