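import Pool.Agent.Lib_MP_a1eae6_lc.Logic

/-!
# The computation tableau of a machine with several stacks, as a Boolean formula
-/

set_option linter.unusedSectionVars false

namespace Pool.Agent.IsoImp

open Fml

/-- Stack actions. -/
inductive Act (Sg : Type) : Type
  | keep
  | push (a : Sg)
  | pop

def Act.app {Sg : Type} : Act Sg → List Sg → List Sg
  | .keep, l => l
  | .push a, l => a :: l
  | .pop, l => l.tail

/-- A simple machine with finitely many controls, stacks and symbols, acting on one stack at a
time. -/
structure UM (C K Sg : Type) where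
  kk : C → K
  nx : C → Option Sg → C
  ac : C → Act Sg

variable {C K Sg : Type} [Fintype C] [DecidableEq C] [Fintype K] [DecidableEq K]
  [Fintype Sg] [DecidableEq Sg]

def UM.step (M : UM C K Sg) (x : C × (K → List Sg)) : C × (K → List Sg) :=
  (M.nx x.1 (x.2 (M.kk x.1)).head?,
    Function.update x.2 (M.kk x.1) ((M.ac x.1).app (x.2 (M.kk x.1))))

/-- Kinds of variables. -/
abbrev Kd (C K Sg : Type) := C ⊕ ((K × Option Sg) ⊕ Fin 4)

section formulas

variable (M : UM C K Sg) (N : Kd C K Sg → ℕ → ℕ → Name)

def nz : Name := N (.inr (.inr 3)) 0 0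
def nU (i : ℕ) : Name := N (.inr (.inr 0)) 0 i
def nU' (i : ℕ) : Name := N (.inr (.inr 1)) 0 i
def nV (i : ℕ) : Name := N (.inr (.inr 2)) 0 i
def vc (c : C) (t : ℕ) : Fml Name := .var (N (.inl c) t 0)
def vs (k : K) (a : Option Sg) (t i : ℕ) : Fml Name := .var (N (.inr (.inl (k, a))) t i)

/-- A constant. -/
def cst (b : Bool) : Fml Name := if b then tt (nz N) else ff (nz N)

@[simp] theorem eval_cst (b : Bool) (A : Name → Bool) : (cst N b).eval A = b := by
  cases b <;> simp [cst]

/-- Next control. -/
noncomputable def ctlF (t : ℕ) (c' : C) : Fml Name :=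
  fiff (vc N c' (t + 1)) (bigOr (nz N) ((Finset.univ : Finset (C × Option Sg)).toList.map fun p =>
    .and (cst N (decide (M.nx p.1 p.2 = c'))) (.and (vc N p.1 t) (vs N (M.kk p.1) p.2 t 0))))

/-- New contents of position 0 if the control is `c`. -/
def g0 (t : ℕ) (k : K) (a : Option Sg) (c : C) : Fml Name :=
  if M.kk c = k then
    match M.ac c with
    | .keep => vs N k a t 0
    | .push b => cst N (decide (a = some b))
    | .pop => vs N k a t 1
  else vs N k a t 0

/-- New contents of position `i + 1` if the control is `c`. -/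
def g1 (t i : ℕ) (k : K) (a : Option Sg) (c : C) : Fml Name :=
  if M.kk c = k then
    match M.ac c with
    | .keep => vs N k a t (i + 1)
    | .push _ => vs N k a t i
    | .pop => vs N k a t (i + 2)
  else vs N k a t (i + 1)

noncomputable def sy0F (t : ℕ) (k : K) (a : Option Sg) : Fml Name :=
  fiff (vs N k a (t + 1) 0) (bigOr (nz N) ((Finset.univ : Finset C).toList.map fun c =>
    .and (vc N c t) (g0 M N t k a c)))

noncomputable def sy1F (t i : ℕ) (k : K) (a : Option Sg) : Fml Name :=
  fiff (vs N k a (t + 1) (i + 1)) (bigOr (nz N) ((Finset.univ : Finset C).toList.map fun c =>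
    .and (vc N c t) (g1 M N t i k a c)))

noncomputable def stepT (t : ℕ) : Fml Name :=
  .and (bigAnd (nz N) ((Finset.univ : Finset C).toList.map fun c => ctlF M N t c))
    (bigAnd (nz N) ((Finset.univ : Finset (K × Option Sg)).toList.map fun p =>
      sy0F M N t p.1 p.2))

noncomputable def stepTI (t i : ℕ) : Fml Name :=
  bigAnd (nz N) ((Finset.univ : Finset (K × Option Sg)).toList.map fun p =>
    sy1F M N t i p.1 p.2)

/-- All transitions. -/
noncomputable def stepsF (T W : ℕ) : Fml Name :=
  bigAnd (nz N) ((List.range T).map fun t => .and (stepT M N t)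
    (bigAnd (nz N) ((List.range W).map fun i => stepTI M N t i)))

/-- Stack `k` at position `i` at time 0 has contents `o`. -/
noncomputable def posF (k : K) (i : ℕ) (o : Option Sg) : Fml Name :=
  bigAnd (nz N) ((Finset.univ : Finset (Option Sg)).toList.map fun a =>
    fiff (vs N k a 0 i) (cst N (decide (a = o))))

/-- Stack `k` at position `i` at time 0 has contents `f b`, with `b` the value of `w`. -/
noncomputable def posB (k : K) (i : ℕ) (w : Name) (f : Bool → Sg) : Fml Name :=
  bigAnd (nz N) ((Finset.univ : Finset (Option Sg)).toList.map fun a =>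
    fiff (vs N k a 0 i) (.or (.and (.var w) (cst N (decide (a = some (f true)))))
      (.and (.neg (.var w)) (cst N (decide (a = some (f false)))))))

/-- Initial control. -/
noncomputable def ctl0F (c0 : C) : Fml Name :=
  bigAnd (nz N) ((Finset.univ : Finset C).toList.map fun c =>
    fiff (vc N c 0) (cst N (decide (c = c0))))

variable {Γ : Type} (k₀ : K) (inX : Γ → Sg) (inU inV : Bool → Sg) (c0 : C)

/-- Initial configuration: input `x`, bits `U`, bits `V`. -/
noncomputable def initF (x : List Γ) (m W : ℕ) : Fml Name :=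
  .and (ctl0F N c0) (.and
    (bigAnd (nz N) ((Finset.univ : Finset K).toList.map fun k =>
      if k = k₀ then cst N true else
        bigAnd (nz N) ((List.range (x.length + m + m + W)).map fun i => posF N k i none)))
    (.and (bigAnd (nz N) ((List.range x.length).map fun i => posF N k₀ i (x[i]?.map inX)))
    (.and (bigAnd (nz N) ((List.range m).map fun j => posB N k₀ (x.length + j) (nU N j) inU))
    (.and (bigAnd (nz N) ((List.range m).map fun j =>
        posB N k₀ (x.length + m + j) (nV N j) inV))
    (bigAnd (nz N) ((List.range W).map fun j => posF N k₀ (x.length + m + m + j) none))))))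

/-- The whole tableau, with `T` steps. -/
noncomputable def validF (x : List Γ) (m T : ℕ) : Fml Name :=
  .and (initF N k₀ inX inU inV c0 x m (T + 1)) (stepsF M N T (x.length + m + m + T))

end formulas

section semantics

variable {M : UM C K Sg} {N : Kd C K Sg → ℕ → ℕ → Name}

theorem eval_ctlF (A : Name → Bool) (t : ℕ) (c' : C) (c : C) (S : K → List Sg)
    (hc : ∀ d, A (N (.inl d) t 0) = decide (d = c))
    (hS : ∀ k a, A (N (.inr (.inl (k, a))) t 0) = decide ((S k)[0]? = a)) :
    (ctlF M N t c').eval A = true ↔
      A (N (.inl c') (t + 1) 0) = decide (c' = (M.step (c, S)).1) := by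
  rw [ctlF, eval_fiff]
  have h : (bigOr (nz N) ((Finset.univ : Finset (C × Option Sg)).toList.map fun p =>
    Fml.and (cst N (decide (M.nx p.1 p.2 = c')))
      (.and (vc N p.1 t) (vs N (M.kk p.1) p.2 t 0)))).eval A = decide (c' = (M.step (c, S)).1) := by
    rw [Bool.eq_iff_iff, eval_bigOr]
    simp only [List.mem_map, Finset.mem_toList, Finset.mem_univ, true_and, decide_eq_true_eq]
    constructor
    · rintro ⟨f, ⟨⟨d, a⟩, rfl⟩, hf⟩
      simp only [eval, eval_cst, vc, vs, Bool.and_eq_true, decide_eq_true_eq, hc, hS] at hf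
      obtain ⟨h1, h2, h3⟩ := hf
      subst h2 h3
      rw [← h1]
      simp [UM.step, List.head?_eq_getElem?]
    · intro h
      refine ⟨_, ⟨(c, (S (M.kk c))[0]?), rfl⟩, ?_⟩
      simp only [eval, eval_cst, vc, vs, Bool.and_eq_true, decide_eq_true_eq, hc, hS]
      refine ⟨?_, by simp, by simp⟩
      rw [h]
      simp [UM.step, List.head?_eq_getElem?]
  rw [h]
  rfl

theorem eval_g_or (A : Name → Bool) (t : ℕ) (c : C) (g : C → Fml Name)
    (hc : ∀ d, A (N (.inl d) t 0) = decide (d = c)) :
    (bigOr (nz N) ((Finset.univ : Finset C).toList.map fun c => Fml.and (vc N c t) (g c))).eval A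
      = (g c).eval A := by
  rw [Bool.eq_iff_iff, eval_bigOr]
  simp only [List.mem_map, Finset.mem_toList, Finset.mem_univ, true_and]
  constructor
  · rintro ⟨f, ⟨d, rfl⟩, hf⟩
    simp only [eval, vc, Bool.and_eq_true, hc, decide_eq_true_eq] at hf
    obtain ⟨h1, h2⟩ := hf
    subst h1
    exact h2
  · intro h
    exact ⟨_, ⟨c, rfl⟩, by simp [eval, vc, hc, h]⟩

theorem eval_sy0F (A : Name → Bool) (t : ℕ) (k : K) (a : Option Sg) (c : C) (S : K → List Sg)
    (hc : ∀ d, A (N (.inl d) t 0) = decide (d = c))
    (hS : ∀ k a, ∀ i < 2, A (N (.inr (.inl (k, a))) t i) = decide ((S k)[i]? = a)) :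
    (sy0F M N t k a).eval A = true ↔
      A (N (.inr (.inl (k, a))) (t + 1) 0) = decide (((M.step (c, S)).2 k)[0]? = a) := by
  rw [sy0F, eval_fiff, eval_g_or A t c _ hc]
  have h : (g0 M N t k a c).eval A = decide (((M.step (c, S)).2 k)[0]? = a) := by
    unfold g0
    by_cases hk : M.kk c = k
    · subst hk
      simp only [if_true, UM.step, Function.update_self]
      cases M.ac c with
      | keep =>
        simp only [vs, eval, Act.app, hS _ _ 0 (by omega)]
        rfl
      | push b => simp [Act.app, eq_comm]
      | pop =>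
        simp only [vs, eval, Act.app, hS _ _ 1 (by omega), List.getElem?_tail]
    · have hk' : k ≠ M.kk c := fun h => hk h.symm
      simp [if_neg hk, UM.step, Function.update_of_ne hk', vs, eval, hS]
  rw [h]
  rfl

theorem eval_sy1F (A : Name → Bool) (t i : ℕ) (k : K) (a : Option Sg) (c : C) (S : K → List Sg)
    (hc : ∀ d, A (N (.inl d) t 0) = decide (d = c))
    (hS : ∀ k a, ∀ j, j ≤ i + 2 → A (N (.inr (.inl (k, a))) t j) = decide ((S k)[j]? = a)) :
    (sy1F M N t i k a).eval A = true ↔
      A (N (.inr (.inl (k, a))) (t + 1) (i + 1)) =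
        decide (((M.step (c, S)).2 k)[i + 1]? = a) := by
  rw [sy1F, eval_fiff, eval_g_or A t c _ hc]
  have h : (g1 M N t i k a c).eval A = decide (((M.step (c, S)).2 k)[i + 1]? = a) := by
    unfold g1
    by_cases hk : M.kk c = k
    · subst hk
      simp only [if_true, UM.step, Function.update_self]
      cases M.ac c with
      | keep =>
        simp only [vs, eval, Act.app, hS _ _ (i + 1) (by omega)]
        rfl
      | push b =>
        simp only [vs, eval, Act.app, hS _ _ i (by omega), List.getElem?_cons_succ]
        rfl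
      | pop =>
        simp only [vs, eval, Act.app, hS _ _ (i + 2) (by omega), List.getElem?_tail]
    · have hk' : k ≠ M.kk c := fun h => hk h.symm
      simp only [if_neg hk, UM.step, Function.update_of_ne hk', vs, eval,
        hS _ _ (i + 1) (by omega)]
  rw [h]
  rfl

theorem eval_posF (A : Name → Bool) (k : K) (i : ℕ) (o : Option Sg) :
    (posF N k i o).eval A = true ↔ ∀ a, A (N (.inr (.inl (k, a))) 0 i) = decide (o = a) := by
  rw [posF, eval_bigAnd]
  simp only [List.mem_map, Finset.mem_toList, Finset.mem_univ, true_and]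
  constructor
  · intro h a
    have := h _ ⟨a, rfl⟩
    rw [eval_fiff, eval_cst] at this
    simpa [vs, eval, eq_comm] using this
  · rintro h f ⟨a, rfl⟩
    rw [eval_fiff, eval_cst]
    simpa [vs, eval, eq_comm] using h a

theorem eval_posB (A : Name → Bool) (k : K) (i : ℕ) (w : Name) (f : Bool → Sg) :
    (posB N k i w f).eval A = true ↔
      ∀ a, A (N (.inr (.inl (k, a))) 0 i) = decide (some (f (A w)) = a) := by
  rw [posB, eval_bigAnd]
  simp only [List.mem_map, Finset.mem_toList, Finset.mem_univ, true_and]
  have key : ∀ a : Option Sg, Fml.eval A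
      (Fml.or (Fml.and (Fml.var w) (cst N (decide (a = some (f true)))))
        (Fml.and (Fml.neg (Fml.var w)) (cst N (decide (a = some (f false))))))
      = decide (some (f (A w)) = a) := by
    intro a
    simp only [eval, eval_cst]
    cases A w <;> simp [eq_comm]
  constructor
  · intro h a
    have := h _ ⟨a, rfl⟩
    rw [eval_fiff, key] at this
    simpa [vs, eval] using this
  · rintro h g ⟨a, rfl⟩
    rw [eval_fiff, key]
    simpa [vs, eval] using h a

variable {Γ : Type} {k₀ : K} {inX : Γ → Sg} {inU inV : Bool → Sg} {c0 : C}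

/-- The initial stacks. -/
def stk0 (k₀ : K) (inX : Γ → Sg) (inU inV : Bool → Sg) (x : List Γ) (u v : List Bool) :
    K → List Sg :=
  fun k => if k = k₀ then x.map inX ++ (u.map inU ++ v.map inV) else []

theorem eval_initF (A : Name → Bool) (x : List Γ) (m W : ℕ) (u v : List Bool)
    (hu : u = (List.range m).map fun j => A (nU N j))
    (hv : v = (List.range m).map fun j => A (nV N j)) :
    (initF N k₀ inX inU inV c0 x m W).eval A = true ↔
      (∀ c, A (N (.inl c) 0 0) = decide (c = c0)) ∧
      ∀ k a, ∀ i < x.length + m + m + W, A (N (.inr (.inl (k, a))) 0 i) =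
        decide ((stk0 k₀ inX inU inV x u v k)[i]? = a) := by
  have hul : u.length = m := by simp [hu]
  have hvl : v.length = m := by simp [hv]
  have e1 : ∀ i < x.length, (stk0 k₀ inX inU inV x u v k₀)[i]? = x[i]?.map inX := by
    intro i hi
    simp only [stk0, if_true]
    rw [List.getElem?_append_left (by simpa using hi), List.getElem?_map]
  have e2 : ∀ j < m, (stk0 k₀ inX inU inV x u v k₀)[x.length + j]? = some (inU (A (nU N j))) := by
    intro j hj
    simp only [stk0, if_true]
    rw [List.getElem?_append_right (by simp), List.getElem?_append_left (by simp; omega),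
      List.getElem?_map, hu]
    simp [hj]
  have e3 : ∀ j < m, (stk0 k₀ inX inU inV x u v k₀)[x.length + m + j]? =
      some (inV (A (nV N j))) := by
    intro j hj
    simp only [stk0, if_true]
    rw [List.getElem?_append_right (by simp; omega), List.getElem?_append_right (by simp; omega),
      List.getElem?_map, hv]
    have : x.length + m + j - (x.map inX).length - (u.map inU).length = j := by simp; omega
    rw [this]
    simp [hj]
  have e4 : ∀ j, (stk0 k₀ inX inU inV x u v k₀)[x.length + m + m + j]? = none := by
    intro j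
    simp only [stk0, if_true]
    rw [List.getElem?_eq_none]
    simp
    omega
  simp only [initF, eval, Bool.and_eq_true]
  have h0 : (ctl0F N c0).eval A = true ↔ (∀ c, A (N (.inl c) 0 0) = decide (c = c0)) := by
    rw [ctl0F, eval_bigAnd]
    simp only [List.mem_map, Finset.mem_toList, Finset.mem_univ, true_and]
    constructor
    · intro h c
      have := h _ ⟨c, rfl⟩
      rw [eval_fiff, eval_cst] at this
      simpa [vc, eval] using this
    · rintro h f ⟨c, rfl⟩
      rw [eval_fiff, eval_cst]
      simpa [vc, eval] using h c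
  rw [h0]
  refine and_congr_right fun _ => ?_
  constructor
  · rintro ⟨h1, h2, h3, h4, h5⟩ k a i hi
    by_cases hk : k = k₀
    · subst hk
      rw [eval_bigAnd] at h2 h3 h4 h5
      by_cases c1 : i < x.length
      · have := (eval_posF A k i (x[i]?.map inX)).1
          (h2 _ (List.mem_map.2 ⟨i, by simpa using c1, rfl⟩)) a
        rw [this, e1 i c1]
      · by_cases c2 : i < x.length + m
        · obtain ⟨j, rfl⟩ : ∃ j, i = x.length + j := ⟨i - x.length, by omega⟩
          have hj : j < m := by omega
          have := (eval_posB A k (x.length + j) (nU N j) inU).1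
            (h3 _ (List.mem_map.2 ⟨j, by simpa using hj, rfl⟩)) a
          rw [this, e2 j hj]
        · by_cases c3 : i < x.length + m + m
          · obtain ⟨j, rfl⟩ : ∃ j, i = x.length + m + j := ⟨i - (x.length + m), by omega⟩
            have hj : j < m := by omega
            have := (eval_posB A k (x.length + m + j) (nV N j) inV).1
              (h4 _ (List.mem_map.2 ⟨j, by simpa using hj, rfl⟩)) a
            rw [this, e3 j hj]
          · obtain ⟨j, rfl⟩ : ∃ j, i = x.length + m + m + j := ⟨i - (x.length + m + m), by omega⟩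
            have hj : j < W := by omega
            have := (eval_posF A k (x.length + m + m + j) none).1
              (h5 _ (List.mem_map.2 ⟨j, by simpa using hj, rfl⟩)) a
            rw [this, e4 j]
    · rw [eval_bigAnd] at h1
      have := h1 _ (List.mem_map.2 ⟨k, by simp, rfl⟩)
      rw [if_neg hk, eval_bigAnd] at this
      have := (eval_posF A k i none).1 (this _ (List.mem_map.2 ⟨i, by simpa using hi, rfl⟩)) a
      rw [this]
      simp [stk0, if_neg hk]
  · intro h
    refine ⟨?_, ?_, ?_, ?_, ?_⟩
    · rw [eval_bigAnd]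
      intro f hf
      obtain ⟨k, _, rfl⟩ := List.mem_map.1 hf
      by_cases hk : k = k₀
      · simp [if_pos hk]
      · rw [if_neg hk, eval_bigAnd]
        intro f hf
        obtain ⟨i, hi, rfl⟩ := List.mem_map.1 hf
        rw [eval_posF]
        intro a
        rw [h k a i (by simpa using hi)]
        simp [stk0, if_neg hk]
    · rw [eval_bigAnd]
      intro f hf
      obtain ⟨i, hi, rfl⟩ := List.mem_map.1 hf
      have hi' : i < x.length := by simpa using hi
      rw [eval_posF]
      intro a
      rw [h k₀ a i (by omega), e1 i hi']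
    · rw [eval_bigAnd]
      intro f hf
      obtain ⟨j, hj, rfl⟩ := List.mem_map.1 hf
      have hj' : j < m := by simpa using hj
      rw [eval_posB]
      intro a
      rw [h k₀ a _ (by omega), e2 j hj']
    · rw [eval_bigAnd]
      intro f hf
      obtain ⟨j, hj, rfl⟩ := List.mem_map.1 hf
      have hj' : j < m := by simpa using hj
      rw [eval_posB]
      intro a
      rw [h k₀ a _ (by omega), e3 j hj']
    · rw [eval_bigAnd]
      intro f hf
      obtain ⟨j, hj, rfl⟩ := List.mem_map.1 hf
      have hj' : j < W := by simpa using hj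
      rw [eval_posF]
      intro a
      rw [h k₀ a _ (by omega), e4 j]

/-- A satisfying assignment of the tableau describes the run. -/
theorem valid_run (A : Name → Bool) (x : List Γ) (m T : ℕ) (u v : List Bool)
    (hu : u = (List.range m).map fun j => A (nU N j))
    (hv : v = (List.range m).map fun j => A (nV N j))
    (h : (validF M N k₀ inX inU inV c0 x m T).eval A = true) :
    ∀ t ≤ T, (∀ c, A (N (.inl c) t 0) =
        decide (c = (M.step^[t] (c0, stk0 k₀ inX inU inV x u v)).1)) ∧
      ∀ k a, ∀ i, i + t ≤ x.length + m + m + T → A (N (.inr (.inl (k, a))) t i) =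
        decide (((M.step^[t] (c0, stk0 k₀ inX inU inV x u v)).2 k)[i]? = a) := by
  simp only [validF, eval, Bool.and_eq_true] at h
  obtain ⟨h0, h1⟩ := h
  rw [eval_initF A x m (T + 1) u v hu hv] at h0
  intro t
  induction t with
  | zero =>
    intro _
    refine ⟨h0.1, fun k a i hi => ?_⟩
    exact h0.2 k a i (by omega)
  | succ t ih =>
    intro ht
    obtain ⟨ih1, ih2⟩ := ih (by omega)
    rw [stepsF, eval_bigAnd] at h1
    have h2 := h1 _ (List.mem_map.2 ⟨t, by simpa using ht, rfl⟩)
    simp only [eval, Bool.and_eq_true] at h2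
    obtain ⟨h2, h3⟩ := h2
    rw [stepT] at h2
    simp only [eval, Bool.and_eq_true] at h2
    obtain ⟨h2, h2'⟩ := h2
    rw [eval_bigAnd] at h2 h2' h3
    rw [Function.iterate_succ_apply']
    set X := M.step^[t] (c0, stk0 k₀ inX inU inV x u v) with hX
    refine ⟨fun c => ?_, fun k a i hi => ?_⟩
    · have := h2 _ (List.mem_map.2 ⟨c, by simp, rfl⟩)
      rw [eval_ctlF A t c X.1 X.2 ih1 (fun k a => ih2 k a 0 (by omega))] at this
      exact this
    · cases i with
      | zero =>
        have := h2' _ (List.mem_map.2 ⟨(k, a), by simp, rfl⟩)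
        rw [eval_sy0F A t k a X.1 X.2 ih1 (fun k a i hi => ih2 k a i (by omega))] at this
        exact this
      | succ i =>
        have := h3 _ (List.mem_map.2 ⟨i, by simp; omega, rfl⟩)
        rw [stepTI, eval_bigAnd] at this
        have := this _ (List.mem_map.2 ⟨(k, a), by simp, rfl⟩)
        rw [eval_sy1F A t i k a X.1 X.2 ih1 (fun k a j hj => ih2 k a j (by omega))] at this
        exact this

/-- Conversely, an assignment describing the run satisfies the tableau. -/
theorem run_valid (A : Name → Bool) (x : List Γ) (m T : ℕ) (u v : List Bool)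
    (hu : u = (List.range m).map fun j => A (nU N j))
    (hv : v = (List.range m).map fun j => A (nV N j))
    (h : ∀ t, (∀ c, A (N (.inl c) t 0) =
        decide (c = (M.step^[t] (c0, stk0 k₀ inX inU inV x u v)).1)) ∧
      ∀ k a, ∀ i, A (N (.inr (.inl (k, a))) t i) =
        decide (((M.step^[t] (c0, stk0 k₀ inX inU inV x u v)).2 k)[i]? = a)) :
    (validF M N k₀ inX inU inV c0 x m T).eval A = true := by
  simp only [validF, eval, Bool.and_eq_true]
  constructor
  · rw [eval_initF A x m (T + 1) u v hu hv]
    exact ⟨(h 0).1, fun k a i _ => (h 0).2 k a i⟩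
  · rw [stepsF, eval_bigAnd]
    intro f hf
    obtain ⟨t, _, rfl⟩ := List.mem_map.1 hf
    have ht := h t
    have ht' := h (t + 1)
    rw [Function.iterate_succ_apply'] at ht'
    set X := M.step^[t] (c0, stk0 k₀ inX inU inV x u v) with hX
    simp only [eval, Bool.and_eq_true, stepT]
    refine ⟨⟨?_, ?_⟩, ?_⟩
    · rw [eval_bigAnd]
      intro f hf
      obtain ⟨c, _, rfl⟩ := List.mem_map.1 hf
      rw [eval_ctlF A t c X.1 X.2 ht.1 (fun k a => ht.2 k a 0)]
      exact ht'.1 c
    · rw [eval_bigAnd]
      intro f hf
      obtain ⟨p, _, rfl⟩ := List.mem_map.1 hf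
      rw [eval_sy0F A t p.1 p.2 X.1 X.2 ht.1 (fun k a i _ => ht.2 k a i)]
      exact ht'.2 _ _ _
    · rw [eval_bigAnd]
      intro f hf
      obtain ⟨i, _, rfl⟩ := List.mem_map.1 hf
      rw [stepTI, eval_bigAnd]
      intro f hf
      obtain ⟨p, _, rfl⟩ := List.mem_map.1 hf
      rw [eval_sy1F A t i p.1 p.2 X.1 X.2 ht.1 (fun k a i _ => ht.2 k a i)]
      exact ht'.2 _ _ _

end semantics

end Pool.Agent.IsoImp
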