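import Pool.Agent.Lib_MP_a1eae6_lc.Run

/-!
# Trees and basic subroutines
-/

set_option linter.unusedSectionVars false

namespace Pool.Agent.PT81

open Function (update)

/-- Binary trees with labelled leaves. -/
inductive Tr (A : Type) : Type
  | leaf (a : A) : Tr A
  | node (l r : Tr A) : Tr A
  deriving DecidableEq

namespace Tr

variable {A : Type}

/-- The string of a tree. -/
def str : Tr A → List (Sy A)
  | leaf a => [some (some a)]
  | node l r => some none :: (l.str ++ r.str)

/-- The size of a tree: the length of its string. -/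
def sz (t : Tr A) : ℕ := t.str.length

@[simp] theorem str_leaf (a : A) : (leaf a).str = [some (some a)] := rfl
@[simp] theorem str_node (l r : Tr A) : (node l r).str = some none :: (l.str ++ r.str) := rfl
@[simp] theorem sz_leaf (a : A) : (leaf a).sz = 1 := rfl
@[simp] theorem sz_node (l r : Tr A) : (node l r).sz = 1 + l.sz + r.sz := by
  simp [sz]; ring

theorem sz_pos (t : Tr A) : 0 < t.sz := by
  cases t <;> simp [sz]

theorem str_ne (t : Tr A) : ∀ z ∈ t.str, z ≠ none := by
  induction t with
  | leaf a => simp
  | node l r ihl ihr =>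
    intro z hz
    simp only [str_node, List.mem_cons, List.mem_append] at hz
    rcases hz with h | h | h
    · simp [h]
    · exact ihl z h
    · exact ihr z h

theorem str_append_inj : ∀ (s t : Tr A) (a b : List (Sy A)),
    s.str ++ a = t.str ++ b → s = t ∧ a = b := by
  intro s
  induction s with
  | leaf x =>
    intro t a b h
    cases t with
    | leaf y => simpa using h
    | node l r => simp at h
  | node l r ihl ihr =>
    intro t a b h
    cases t with
    | leaf y => simp at h
    | node l' r' =>
      simp only [str_node, List.cons_append, List.append_assoc, List.cons.injEq, true_and] at h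
      obtain ⟨h1, h2⟩ := ihl _ _ _ h
      obtain ⟨h3, h4⟩ := ihr _ _ _ h2
      subst h1 h3 h4
      exact ⟨rfl, rfl⟩

theorem str_inj {s t : Tr A} (h : s.str = t.str) : s = t :=
  (str_append_inj s t [] [] (by simpa using h)).1

end Tr

section

variable {G₀ G₁ A : Type} [DecidableEq A] {I : List G₀} {O : List G₁}

/-- The body of the loop that moves a tree from stack 0 to stack 2. -/
def takeBody : Cm G₀ G₁ A :=
  .seq (cpop 0) (.seq (cput 2)
    (.seq (.ite (fun v => decide (v.1 = some (some none))) (cpush 3 none) (cpop 3)) (cpeek 3)))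

def takeLoop : Cm G₀ G₁ A := .loop (fun v => v.1.isSome) takeBody

theorem rn_takeLoop (t : Tr A) : ∀ (m s xs ys : List (Sy A)) (v : Va A) (_ : v.1.isSome = true)
    (v' : Va A) (R' : Fin 4 → List (Sy A)) (n : ℕ),
    Rn takeLoop I O (ys.head?, v.2) (vec m s (t.str.reverse ++ xs) ys) v' R' n →
    Rn takeLoop I O v (vec (t.str ++ m) s xs (none :: ys)) v' R' (6 * t.sz + n) := by
  induction t with
  | leaf a =>
    intro m s xs ys v hv v' R' n h
    have hb : Rn takeBody I O v (vec ((Tr.leaf a).str ++ m) s xs (none :: ys))
        (ys.head?, v.2) (vec m s ((Tr.leaf a).str.reverse ++ xs) ys)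
        (1 + (1 + ((1 + 1) + 1))) := by
      refine Rn.seq (rn_pop0 _ _ _ _ _) (Rn.seq (rn_put2 _ _ _ _ _) (Rn.seq (Rn.iteF ?_
        (rn_pop3 _ _ _ _ _)) (rn_peek3 _ _ _ _ _)))
      simp
    refine (Rn.loopStep (p := fun v : Va A => v.1.isSome) hv hb h).mono ?_
    simp only [Tr.sz_leaf]
    omega
  | node l r ihl ihr =>
    intro m s xs ys v hv v' R' n h
    have hb : Rn takeBody I O v (vec ((Tr.node l r).str ++ m) s xs (none :: ys))
        ((none :: none :: ys).head?, v.2) (vec (l.str ++ (r.str ++ m)) s (some none :: xs)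
          (none :: none :: ys))
        (1 + (1 + ((1 + 1) + 1))) := by
      refine Rn.seq (rn_pop0 _ _ _ _ _) (Rn.seq (rn_put2 _ _ _ _ _) ?_)
      simp only [Tr.str_node, List.cons_append, List.head?_cons, List.tail_cons,
        Option.getD_some, List.append_assoc]
      refine Rn.seq (Rn.iteT ?_ (rn_push3 _ _ _ _ _ _)) (rn_peek3 _ _ _ _ _)
      simp
    have h2 := ihr m s (l.str.reverse ++ (some none :: xs)) ys ((none :: ys).head?, v.2) rfl v' R' n
      (by
        have e : (r.str.reverse ++ (l.str.reverse ++ (some none :: xs)))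
            = ((Tr.node l r).str.reverse ++ xs) := by simp
        rw [e]
        exact h)
    have h1 := ihl (r.str ++ m) s (some none :: xs) (none :: ys)
      ((none :: none :: ys).head?, v.2) rfl v' R' _ h2
    refine (Rn.loopStep (p := fun v : Va A => v.1.isSome) hv hb h1).mono ?_
    simp only [Tr.sz_node]
    omega

/-- Move the tree on top of stack 0 (reversed) to stack 2. -/
def takeT : Cm G₀ G₁ A := .seq (cpush 3 none) (.seq (cpeek 3) takeLoop)

theorem rn_takeT (t : Tr A) (m s x : List (Sy A)) (v : Va A) :
    Rn takeT I O v (vec (t.str ++ m) s x []) (none, v.2) (vec m s (t.str.reverse ++ x) [])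
      (6 * t.sz + 3) := by
  refine (Rn.seq (rn_push3 _ _ _ _ _ _) (Rn.seq (rn_peek3 _ _ _ _ _)
    (rn_takeLoop t m s x [] _ rfl _ _ _ (Rn.loopDone ?_)))).mono ?_
  · simp
  · omega

/-- Predicates on the last read symbol. -/
def isS (o : Option (Sy A)) : Bool := o.isSome
def isT : Option (Sy A) → Bool
  | some (some _) => true
  | _ => false

theorem isS_all (l : List (Sy A)) : ∀ z ∈ l, isS (some z) = true := fun _ _ => rfl

theorem isT_str (t : Tr A) : ∀ z ∈ t.str, isT (some z) = true := by
  intro z hz
  have := t.str_ne z hz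
  cases z with
  | none => exact absurd rfl this
  | some z => rfl

theorem isT_str_rev (t : Tr A) : ∀ z ∈ t.str.reverse, isT (some z) = true := by
  intro z hz
  exact isT_str t z (by simpa using hz)

/-- first component -/
def cfst : Cm G₀ G₁ A :=
  .seq (cpop 0) (.seq takeT (.seq (drW 0 isS) (mvW 2 0 isS)))

theorem rn_cfst (a b : Tr A) (s : List (Sy A)) (v : Va A) :
    Rn cfst I O v (vec (Tr.node a b).str s [] []) (none, v.2) (vec a.str s [] [])
      (10 * a.sz + 3 * b.sz + 8) := by
  have h1 := rn_pop0 (I := I) (O := O) (Tr.node a b).str s [] [] v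
  have h2 := rn_takeT (I := I) (O := O) a b.str s [] ((Tr.node a b).str.head?, v.2)
  have h3 := rn_drW0 (I := I) (O := O) isS b.str [] (isS_all _) rfl s (a.str.reverse ++ []) []
    (none, v.2)
  have h4 := rn_mvW20 (I := I) (O := O) isS (a.str.reverse) [] (isS_all _) rfl [] s []
    (none, v.2)
  simp only [List.append_nil, List.reverse_reverse, List.head?_nil, List.length_reverse] at h2 h3 h4
  refine (Rn.seq h1 (Rn.seq h2 (Rn.seq h3 h4))).mono ?_
  simp only [Tr.sz]
  omega

/-- second component -/
def csnd : Cm G₀ G₁ A :=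
  .seq (cpop 0) (.seq takeT (drW 2 isS))

theorem rn_csnd (a b : Tr A) (s : List (Sy A)) (v : Va A) :
    Rn csnd I O v (vec (Tr.node a b).str s [] []) (none, v.2) (vec b.str s [] [])
      (9 * a.sz + 6) := by
  have h1 := rn_pop0 (I := I) (O := O) (Tr.node a b).str s [] [] v
  have h2 := rn_takeT (I := I) (O := O) a b.str s [] ((Tr.node a b).str.head?, v.2)
  have h3 := rn_drW2 (I := I) (O := O) isS a.str.reverse [] (isS_all _) rfl b.str s []
    (none, v.2)
  simp only [List.append_nil, List.head?_nil, List.length_reverse] at h2 h3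
  refine (Rn.seq h1 (Rn.seq h2 h3)).mono ?_
  simp only [Tr.sz]
  omega

/-- save a copy of the main stack on the save stack -/
def cdup : Cm G₀ G₁ A :=
  .seq (cpush 1 none) (.seq (mvW2 0 2 1 isS) (mvW 2 0 isS))

theorem rn_cdup (w s : List (Sy A)) (v : Va A) :
    Rn cdup I O v (vec w s [] []) (none, v.2) (vec w (w.reverse ++ none :: s) [] [])
      (9 * w.length + 5) := by
  have h1 := rn_push1 (I := I) (O := O) none w s [] [] v
  have h2 := rn_mvW2_021 (I := I) (O := O) isS w [] (isS_all _) rfl (none :: s) [] [] v
  have h3 := rn_mvW20 (I := I) (O := O) isS w.reverse [] (isS_all _) rfl []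
    (w.reverse ++ none :: s) [] (none, v.2)
  simp only [List.append_nil, List.reverse_reverse, List.head?_nil, List.length_reverse] at h2 h3
  refine (Rn.seq h1 (Rn.seq h2 h3)).mono ?_
  omega

/-- swap the main stack with the saved string -/
def cswap : Cm G₀ G₁ A :=
  .seq (mvW 0 2 isS) (.seq (mvW 1 0 isT) (.seq (mvW 2 3 isS) (mvW 3 1 isS)))

theorem rn_cswap (t w : Tr A) (s : List (Sy A)) (v : Va A) :
    Rn cswap I O v (vec t.str (w.str.reverse ++ none :: s) [] []) (none, v.2)
      (vec w.str (t.str.reverse ++ none :: s) [] []) (12 * t.sz + 4 * w.sz + 8) := by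
  have h1 := rn_mvW02 (I := I) (O := O) isS t.str [] (isS_all _) rfl
    (w.str.reverse ++ none :: s) [] [] v
  have h2 := rn_mvW10 (I := I) (O := O) isT w.str.reverse (none :: s) (isT_str_rev w) rfl []
    (t.str.reverse ++ []) [] (none, v.2)
  have h3 := rn_mvW23 (I := I) (O := O) isS t.str.reverse [] (isS_all _) rfl w.str
    (none :: s) [] ((none :: s).head?, v.2)
  have h4 := rn_mvW31 (I := I) (O := O) isS t.str [] (isS_all _) rfl w.str
    (none :: s) [] (none, v.2)
  simp only [List.append_nil, List.reverse_reverse, List.head?_nil, List.length_reverse] at h1 h2 h3 h4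
  refine (Rn.seq h1 (Rn.seq h2 (Rn.seq h3 h4))).mono ?_
  simp only [Tr.sz]
  omega

/-- build a node from the saved string and the main stack -/
def ccons : Cm G₀ G₁ A :=
  .seq (mvW 1 0 isT) (.seq (cpop 1) (cpush 0 (some none)))

theorem rn_ccons (a b : Tr A) (s : List (Sy A)) (v : Va A) :
    Rn ccons I O v (vec b.str (a.str.reverse ++ none :: s) [] []) (some none, v.2)
      (vec (Tr.node a b).str s [] []) (4 * a.sz + 4) := by
  have h1 := rn_mvW10 (I := I) (O := O) isT a.str.reverse (none :: s) (isT_str_rev a) rfl b.str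
    [] [] v
  have h2 := rn_pop1 (I := I) (O := O) (a.str ++ b.str) (none :: s) [] [] (some none, v.2)
  have h3 := rn_push0 (I := I) (O := O) (some none) (a.str ++ b.str) s [] [] (some none, v.2)
  simp only [List.reverse_reverse, List.length_reverse] at h1
  refine (Rn.seq h1 (Rn.seq h2 h3)).mono ?_
  simp only [Tr.sz]
  omega

/-- replace the main stack by the saved string -/
def crest : Cm G₀ G₁ A :=
  .seq (drW 0 isS) (.seq (mvW 1 0 isT) (cpop 1))

theorem rn_crest (m : List (Sy A)) (w : Tr A) (s : List (Sy A)) (v : Va A) :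
    Rn crest I O v (vec m (w.str.reverse ++ none :: s) [] []) (some none, v.2)
      (vec w.str s [] []) (3 * m.length + 4 * w.sz + 5) := by
  have h0 := rn_drW0 (I := I) (O := O) isS m [] (isS_all _) rfl (w.str.reverse ++ none :: s) [] [] v
  have h1 := rn_mvW10 (I := I) (O := O) isT w.str.reverse (none :: s) (isT_str_rev w) rfl []
    [] [] (none, v.2)
  have h2 := rn_pop1 (I := I) (O := O) w.str (none :: s) [] [] (some none, v.2)
  simp only [List.append_nil, List.reverse_reverse, List.head?_nil, List.length_reverse] at h0 h1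
  refine (Rn.seq h0 (Rn.seq h1 h2)).mono ?_
  simp only [Tr.sz]
  omega

/-- replace the main stack by a constant -/
def cconst (l : List (Sy A)) : Cm G₀ G₁ A := .seq (drW 0 isS) (pushStr 0 l)

theorem rn_cconst (m l : List (Sy A)) (s : List (Sy A)) (v : Va A) :
    Rn (cconst l) I O v (vec m s [] []) (none, v.2) (vec l s [] []) (3 * m.length + l.length + 3) := by
  have h0 := rn_drW0 (I := I) (O := O) isS m [] (isS_all _) rfl s [] [] v
  have h1 := rn_pushStr0 (I := I) (O := O) l [] s [] [] (none, v.2)
  simp only [List.append_nil, List.head?_nil] at h0 h1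
  refine (Rn.seq h0 h1).mono ?_
  omega

/-! ### Equality test -/

/-- Compare the top of stack 3 with the last read symbol. -/
def ccmp : Cm G₀ G₁ A := .pop (.r 3) (fun v t => (v.1, v.2 && decide (v.1 = t)))

theorem rn_ccmp (m s x y : List (Sy A)) (v : Va A) :
    Rn ccmp I O v (vec m s x y) (v.1, v.2 && decide (v.1 = y.head?)) (vec m s x y.tail) 1 := by
  have := Exec.pop (Γ := Gam G₀ G₁ A) (.r 3) (fun v t => (v.1, v.2 && decide (v.1 = t))) v
    (st I O (vec m s x y))
  rw [update_st_r, upd3] at this
  exact ⟨1, le_rfl, this⟩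

def ctest : Cm G₀ G₁ A := .peek (.r 3) (fun v t => (v.1, v.2 && decide (t = none)))

theorem rn_ctest (m s x y : List (Sy A)) (v : Va A) :
    Rn ctest I O v (vec m s x y) (v.1, v.2 && decide (y.head? = none)) (vec m s x y) 1 := by
  have := Exec.peek (Γ := Gam G₀ G₁ A) (.r 3) (fun v t => (v.1, v.2 && decide (t = none))) v
    (st I O (vec m s x y))
  exact ⟨1, le_rfl, this⟩

def cmpBody : Cm G₀ G₁ A := .seq (cpop 2) (.seq ccmp (cpeek 2))
def cmpLoop : Cm G₀ G₁ A := .seq (cpeek 2) (.loop (fun v => v.1.isSome) cmpBody)

/-- Flag after the comparison. -/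
def cmpF : List (Sy A) → List (Sy A) → Bool → Bool
  | [], _, f => f
  | z :: a, b, f => cmpF a b.tail (f && decide (some z = b.head?))

theorem cmpF_false (a b : List (Sy A)) : cmpF a b false = false := by
  induction a generalizing b with
  | nil => rfl
  | cons z a ih => simpa [cmpF] using ih _

theorem cmpF_spec (a b : List (Sy A)) :
    (cmpF a b true && decide ((b.drop a.length).head? = none)) = decide (a = b) := by
  induction a generalizing b with
  | nil => cases b <;> simp [cmpF]
  | cons z a ih =>
    cases b with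
    | nil => simp [cmpF, cmpF_false]
    | cons w b =>
      by_cases h : z = w
      · subst h
        have := ih b
        simp only [cmpF, List.head?_cons, List.tail_cons, decide_true, Bool.and_true,
          List.length_cons, List.drop_succ_cons]
        rw [this]
        simp
      · simp [cmpF, h, cmpF_false]

theorem rn_cmpLoop' (m s : List (Sy A)) (a b : List (Sy A)) (f : Bool) :
    Rn (.loop (fun v => v.1.isSome) cmpBody) I O (a.head?, f) (vec m s a b)
      (none, cmpF a b f) (vec m s [] (b.drop a.length)) (4 * a.length + 1) := by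
  induction a generalizing b f with
  | nil => exact Rn.loopDone rfl
  | cons z a ih =>
    have hb : Rn cmpBody I O (some z, f) (vec m s (z :: a) b)
        (a.head?, f && decide (some z = b.head?)) (vec m s a b.tail) (1 + (1 + 1)) := by
      exact Rn.seq (rn_pop2 _ _ _ _ _) (Rn.seq (rn_ccmp _ _ _ _ _) (rn_peek2 _ _ _ _ _))
    have h := Rn.loopStep (p := fun v : Va A => v.1.isSome) rfl hb (ih _ _)
    have e : List.drop a.length b.tail = List.drop (z :: a).length b := by
      cases b <;> simp
    rw [e] at h
    refine h.mono ?_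
    simp only [List.length_cons]
    omega

theorem rn_cmpLoop (m s : List (Sy A)) (a b : List (Sy A)) (v : Va A) :
    Rn cmpLoop I O v (vec m s a b)
      (none, cmpF a b v.2) (vec m s [] (b.drop a.length)) (4 * a.length + 2) := by
  refine (Rn.seq (rn_peek2 _ _ _ _ _) (rn_cmpLoop' m s a b v.2)).mono ?_
  omega

/-- Strings of the Booleans. -/
def bstr (nil : A) : Bool → Tr A
  | false => .leaf nil
  | true => .node (.leaf nil) (.leaf nil)

/-- equality test of the two components -/
def ceq (nil : A) : Cm G₀ G₁ A :=
  .seq (cpop 0) (.seq takeT (.seq (mvW 0 3 isS) (.seq (.load fun v => (v.1, true))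
    (.seq cmpLoop (.seq ctest (.seq (drW 3 isS)
      (.ite (fun v => v.2) (pushStr 0 (bstr nil true).str) (pushStr 0 (bstr nil false).str))))))))

theorem rn_ceq (nil : A) (a b : Tr A) (s : List (Sy A)) (v : Va A) :
    ∃ v', Rn (ceq nil) I O v (vec (Tr.node a b).str s [] []) v'
      (vec (bstr nil (decide (a = b))).str s [] []) (20 * (a.sz + b.sz) + 30) := by
  have h1 := rn_pop0 (I := I) (O := O) (Tr.node a b).str s [] [] v
  have h2 := rn_takeT (I := I) (O := O) a b.str s [] ((Tr.node a b).str.head?, v.2)
  have h3 := rn_mvW03 (I := I) (O := O) isS b.str [] (isS_all _) rfl s a.str.reverse []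
    (none, v.2)
  have h4 := rn_load (I := I) (O := O) (fun v : Va A => (v.1, true))
    (R := vec [] s a.str.reverse b.str.reverse) (v := (none, v.2))
  have h5 := rn_cmpLoop (I := I) (O := O) [] s a.str.reverse b.str.reverse (none, true)
  have h6 := rn_ctest (I := I) (O := O) [] s [] (b.str.reverse.drop a.str.reverse.length)
    (none, cmpF a.str.reverse b.str.reverse true)
  have h7 := rn_drW3 (I := I) (O := O) isS (b.str.reverse.drop a.str.reverse.length) []
    (isS_all _) rfl [] s [] (none, cmpF a.str.reverse b.str.reverse true &&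
      decide ((b.str.reverse.drop a.str.reverse.length).head? = none))
  have hd : (cmpF a.str.reverse b.str.reverse true &&
      decide ((b.str.reverse.drop a.str.reverse.length).head? = none)) = decide (a = b) := by
    rw [cmpF_spec]
    have : a.str.reverse = b.str.reverse ↔ a = b := by
      rw [List.reverse_inj]
      exact ⟨Tr.str_inj, fun h => by rw [h]⟩
    simp [this]
  simp only [List.append_nil, List.head?_nil] at h2 h3 h7
  rw [hd] at h6 h7
  have hlen : (b.str.reverse.drop a.str.reverse.length).length ≤ b.sz := by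
    simp [Tr.sz]
  have hbl : (bstr nil (decide (a = b))).str.length ≤ 3 := by
    cases decide (a = b) <;> simp [bstr]
  refine ⟨(none, decide (a = b)), ?_⟩
  have h8 : Rn (.ite (fun v => v.2) (pushStr 0 (bstr nil true).str) (pushStr 0 (bstr nil false).str))
      I O (none, decide (a = b)) (vec [] s [] []) (none, decide (a = b))
      (vec (bstr nil (decide (a = b))).str s [] []) 5 := by
    cases hab : decide (a = b) with
    | true =>
      have := rn_pushStr0 (I := I) (O := O) (bstr nil true).str [] s [] [] (none, true)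
      simp only [List.append_nil] at this
      refine (Rn.iteT rfl this).mono ?_
      simp [bstr]
    | false =>
      have := rn_pushStr0 (I := I) (O := O) (bstr nil false).str [] s [] [] (none, false)
      simp only [List.append_nil] at this
      refine (Rn.iteF rfl this).mono ?_
      simp [bstr]
  refine (Rn.seq h1 (Rn.seq h2 (Rn.seq h3 (Rn.seq h4 (Rn.seq h5 (Rn.seq h6 (Rn.seq h7 h8))))))).mono ?_
  simp only [Tr.sz, List.length_reverse] at *
  omega

end

end Pool.Agent.PT81
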